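import Pool.Agent.FS.RotorSym.Sym

set_option autoImplicit false
set_option linter.unusedSectionVars false
set_option linter.deprecated false
set_option linter.unusedVariables false

namespace Pool.Agent.FS.RotorSym

open Pool.Agent.Lib.MP_9d2e01_pr MeasureTheory Function

lemma amp_Q {n : ℕ} {x : V} : x ∈ Q n ↔ -(n : ℤ) ≤ x.1 ∧ x.1 ≤ n ∧ -(n : ℤ) ≤ x.2 ∧ x.2 ≤ n :=
  Iff.rfl

lemma amp_fin (n : ℕ) : (Q n).Finite := Rect.finite _ _ _ _

/-- Cutting a path at its first exit from a square. -/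
lemma amp_exit {A B R : Set V} {n : ℕ} (hA : A ⊆ Q n) (hB : B ⊆ (Q n)ᶜ) :
    Arm A B R ⊆ Arm A (Q n)ᶜ (Q (n + 1)) := by
  rintro ω ⟨a, ha, b, hb, -, ho, hp⟩
  have up : ∀ x ∈ Q n, x ∈ Q (n + 1) := fun x hx => by
    rw [amp_Q] at hx ⊢
    push_cast
    omega
  have key : ∀ c, Relation.ReflTransGen (SStp ω R) a c →
      (c ∈ Q n ∧ Relation.ReflTransGen (SStp ω (Q (n + 1))) a c) ∨
        ∃ b' ∉ Q n, Relation.ReflTransGen (SStp ω (Q (n + 1))) a b' := by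
    intro c hc
    induction hc with
    | refl => exact Or.inl ⟨hA ha, .refl⟩
    | @tail c d _ hs ih =>
      rcases ih with ⟨h1, h2⟩ | h
      · obtain ⟨-, -, o1, o2, had⟩ := hs
        have hn := had.near
        have hd : d ∈ Q (n + 1) := by
          rw [amp_Q] at h1 ⊢
          rw [abs_le, abs_le] at hn
          push_cast
          omega
        have h3 := h2.tail (show SStp ω (Q (n + 1)) c d from ⟨up c h1, hd, o1, o2, had⟩)
        by_cases h4 : d ∈ Q n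
        · exact Or.inl ⟨h4, h3⟩
        · exact Or.inr ⟨d, h4, h3⟩
      · exact Or.inr h
  rcases key b hp with ⟨h1, -⟩ | ⟨b', h1, h2⟩
  · exact absurd h1 (hB hb)
  · exact ⟨a, ha, b', h1, up a (hA ha), ho, h2⟩

lemma amp_sub {m n : ℕ} (h : m ≤ n) : Q m ⊆ Q n := fun x hx => by
  rw [amp_Q] at hx ⊢
  omega

lemma amp_anti {m n : ℕ} (h1 : 1 ≤ m) (h : m ≤ n) : Out 1 n ⊆ Out 1 m :=
  amp_exit (amp_sub h1) (Set.compl_subset_compl.2 (amp_sub h))

/-- The arm event moved to the right. -/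
def ampSh (c : ℤ) (n : ℕ) : Set (JJ → Bool) :=
  Arm ((fun x => x + ((c, 0) : V)) '' Q 1) ((fun x => x + ((c, 0) : V)) '' (Q n)ᶜ)
    ((fun x => x + ((c, 0) : V)) '' Q (n + 1))

lemma amp_pp (θ : unitInterval) (c : ℤ) (n : ℕ) :
    pp (parJ θ) (ampSh c n) = pp (parJ θ) (Out 1 n) := by
  obtain ⟨T, hT⟩ := sym_add θ (c, 0)
  exact hT.pp_arm _ _ (amp_fin _)

lemma amp_loc (c : ℤ) (n : ℕ) : Loc (ampSh c n) := arm_loc _ _ ((amp_fin _).image _)

lemma amp_sh_anti (θ : unitInterval) (c : ℤ) {m n : ℕ} (h1 : 1 ≤ m) (h : m ≤ n) :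
    ampSh c n ⊆ ampSh c m := fun ω hω => by
  obtain ⟨T, hT⟩ := sym_add θ (c, 0)
  exact (hT.arm ω _ _ _).1 (amp_anti h1 h ((hT.arm ω _ _ _).2 hω))

lemma amp_dep (c : ℤ) (n : ℕ) :
    Dep (ampSh c n) {k | c - n - 2 ≤ k.1.1 ∧ k.1.1 ≤ c + n + 1} := by
  refine (arm_dep _ _ _).mono ?_
  rintro ⟨⟨x, y⟩, j⟩ (⟨-, z, hz, e⟩ | ⟨-, z, hz, e⟩)
  all_goals
    rw [amp_Q] at hz
    have e1 := congrArg Prod.fst e
    simp only [Prod.fst_add] at e1
    simp only [Set.mem_setOf_eq]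
    push_cast at hz
    omega

lemma amp_out {c : ℤ} {k n : ℕ} (h0 : 0 ≤ c) (h1 : c + 1 ≤ k) (h : k ≤ n) :
    ampSh c (n + k) ⊆ Out k n := by
  refine (arm_mono (A' := Q k) (B' := (Q n)ᶜ) ?_ ?_ subset_rfl).trans
    (amp_exit (amp_sub h) subset_rfl)
  · rintro _ ⟨x, hx, rfl⟩
    rw [amp_Q] at hx ⊢
    simp only [Prod.fst_add, Prod.snd_add]
    push_cast at hx
    omega
  · rintro _ ⟨x, hx, rfl⟩ h2
    refine hx ?_
    rw [amp_Q] at h2 ⊢
    simp only [Prod.fst_add, Prod.snd_add] at h2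
    push_cast
    omega

/-- All moved arms fail. -/
def ampF (n M : ℕ) : Set (JJ → Bool) := {ω | ∀ i < M, ω ∉ ampSh ((i : ℤ) * (2 * n + 5)) n}

lemma amp_F_succ (n M : ℕ) :
    ampF n (M + 1) = ampF n M ∩ (ampSh ((M : ℤ) * (2 * n + 5)) n)ᶜ := by
  ext ω
  exact Nat.forall_lt_succ_right

lemma amp_F (θ : unitInterval) (n : ℕ) {q : ℝ} (hq : 1 - pp (parJ θ) (Out 1 n) ≤ q) (M : ℕ) :
    Loc (ampF n M) ∧ Dep (ampF n M) {k | k.1.1 < (M : ℤ) * (2 * n + 5) - n - 2} ∧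
      pp (parJ θ) (ampF n M) ≤ q ^ M := by
  have h0 : 0 ≤ 1 - pp (parJ θ) (Out 1 n) := sub_nonneg.2 (pp_le_one _ _)
  induction M with
  | zero =>
    refine ⟨⟨∅, fun ω ω' _ _ i hi => absurd hi (Nat.not_lt_zero _)⟩,
      fun ω ω' _ _ i hi => absurd hi (Nat.not_lt_zero _), ?_⟩
    rw [pow_zero]
    exact pp_le_one _ _
  | succ M ih =>
    obtain ⟨h1, h2, h3⟩ := ih
    rw [amp_F_succ]
    refine ⟨h1.inter (amp_loc _ _).compl, (h2.mono fun k hk => ?_).inter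
      ((amp_dep _ _).compl.mono fun k hk => ?_), ?_⟩
    · simp only [Set.mem_setOf_eq] at hk ⊢
      push_cast
      linarith [Int.natCast_nonneg n]
    · simp only [Set.mem_setOf_eq] at hk ⊢
      push_cast
      linarith [hk.2]
    · rw [pp_indep _ h2 (amp_dep _ _).compl (Set.disjoint_left.2 fun k a b => by
        simp only [Set.mem_setOf_eq] at a b
        linarith [b.1]) h1 (amp_loc _ _).compl, pp_compl _ (amp_loc _ _), amp_pp, pow_succ]
      exact mul_le_mul h3 hq h0 ((pp_nonneg _ _).trans h3)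

theorem amp (θ : unitInterval) {η : ℝ} (hη : 0 < η) (h : ∀ n, 1 ≤ n → η ≤ pp (parJ θ) (Out 1 n))
    {ε : ℝ} (hε : 0 < ε) : ∃ k, ∀ n, k ≤ n → 1 - ε ≤ pp (parJ θ) (Out k n) := by
  obtain ⟨M, hM⟩ := exists_pow_lt_of_lt_one (half_pos hε) (show 1 - η < 1 by linarith)
  have hδ : 0 < ε / 2 / (M + 1) := by positivity
  obtain ⟨m, hm⟩ := exists_lt_of_ciInf_lt (f := fun n : ℕ => pp (parJ θ) (Out 1 (n + 1)))
    (lt_add_of_pos_right _ hδ)
  have hb : BddBelow (Set.range fun n : ℕ => pp (parJ θ) (Out 1 (n + 1))) :=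
    ⟨0, by rintro _ ⟨n, rfl⟩; exact pp_nonneg _ _⟩
  obtain ⟨k, hk⟩ : ∃ k, k = M * (2 * (m + 1) + 5) + m + 1 := ⟨_, rfl⟩
  refine ⟨k, fun n hn => ?_⟩
  have hk1 : m + 1 ≤ n + k := by omega
  have hinf := ciInf_le hb (n + k - 1)
  rw [Nat.sub_add_cancel (by omega)] at hinf
  have hF := (amp_F θ (m + 1) (q := 1 - η) (by linarith [h (m + 1) (by omega)]) M).2.2
  have hD : ∀ c : ℤ, pp (parJ θ) (ampSh c (m + 1) ∩ (ampSh c (n + k))ᶜ) ≤ ε / 2 / (M + 1) := by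
    intro c
    have h1 := pp_union_add_inter (parJ θ) (ampSh c (m + 1)) (amp_loc c (n + k)).compl
    have h2 : ampSh c (m + 1) ∪ (ampSh c (n + k))ᶜ = Set.univ :=
      Set.eq_univ_of_forall fun ω => (em (ω ∈ ampSh c (n + k))).imp
        (fun hω => amp_sh_anti θ c (by omega) hk1 hω) id
    rw [h2, pp_univ, pp_compl _ (amp_loc _ _), amp_pp, amp_pp] at h1
    linarith
  have hsub : (Out k n)ᶜ ⊆ ampF (m + 1) M ∪ ⋃ i ∈ Finset.range M,
      (ampSh ((i : ℤ) * (2 * (m + 1 : ℕ) + 5)) (m + 1) ∩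
        (ampSh ((i : ℤ) * (2 * (m + 1 : ℕ) + 5)) (n + k))ᶜ) := by
    intro ω hω
    by_cases h1 : ω ∈ ampF (m + 1) M
    · exact Or.inl h1
    · right
      simp only [ampF, Set.mem_setOf_eq, not_forall, not_not] at h1
      obtain ⟨i, hi, h1⟩ := h1
      refine Set.mem_iUnion₂.2 ⟨i, Finset.mem_range.2 hi, h1, fun h2 => hω (amp_out
        (by positivity) ?_ hn h2)⟩
      have : i * (2 * (m + 1) + 5) ≤ M * (2 * (m + 1) + 5) := Nat.mul_le_mul_right _ hi.le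
      have h3 : i * (2 * (m + 1) + 5) + 1 ≤ k := by omega
      exact_mod_cast h3
  have h1 := (pp_mono (parJ θ) hsub).trans (pp_union_le _ _ _)
  have h2 := (pp_le_sum (parJ θ) (Finset.range M) _ _ subset_rfl).trans
    (Finset.sum_le_sum fun i _ => hD ((i : ℤ) * (2 * (m + 1 : ℕ) + 5)))
  rw [Finset.sum_const, Finset.card_range, nsmul_eq_mul] at h2
  have h3 : (M : ℝ) * (ε / 2 / (M + 1)) ≤ ε / 2 := by
    rw [← mul_div_assoc, div_le_iff₀ (by positivity)]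
    nlinarith
  rw [pp_compl _ (show Loc (Out k n) from arm_loc _ _ (amp_fin _))] at h1
  linarith

end Pool.Agent.FS.RotorSym
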