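import Pool.Agent.FS.RotorSym.Sym

set_option autoImplicit false
set_option linter.unusedSectionVars false
set_option linter.deprecated false
set_option linter.unusedVariables false

namespace Pool.Agent.FS.RotorSym

open Pool.Agent.Lib.MP_9d2e01_pr MeasureTheory Function

/-- Contact points with a property. -/
def sideASet (k n : ℕ) (P : V → Prop) (ω : JJ → Bool) : Set V := {b | b ∈ Cn k n ω ∧ P b}

/-- Few contact points with a property. -/
def sideAEv (k n m : ℕ) (P : V → Prop) : Set (JJ → Bool) := {ω | (sideASet k n P ω).ncard < m}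

lemma sideA_sub (k n : ℕ) (ω : JJ → Bool) : Cn k n ω ⊆ Q (n + 1) := by
  rintro b ⟨-, a, -, b', hb', ha, -, hp⟩
  rw [Set.mem_singleton_iff] at hb'
  subst hb'
  rcases hp.cases_tail with h | ⟨c, -, h⟩
  · rw [h]; exact ha
  · exact h.2.1

lemma sideA_fin (k n : ℕ) (P : V → Prop) (ω : JJ → Bool) : (sideASet k n P ω).Finite :=
  (Rect.finite _ _ _ _).subset fun b hb => sideA_sub k n ω hb.1

lemma sideA_loc (k n m : ℕ) (P : V → Prop) : Loc (sideAEv k n m P) := by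
  refine Loc.of_finite (S := {j : JJ | (j.2 ≠ 2 ∧ j.1 ∈ Q (n + 1)) ∨
    (j.2 = 2 ∧ j.1 + (1, 0) ∈ Q (n + 1))}) (fun ω ω' h hω => ?_) ?_
  · have e : sideASet k n P ω' = sideASet k n P ω := by
      ext b
      exact ⟨fun hb => ⟨⟨hb.1.1, arm_dep _ _ _ ω' ω (fun i hi => (h i hi).symm) hb.1.2⟩, hb.2⟩,
        fun hb => ⟨⟨hb.1.1, arm_dep _ _ _ ω ω' h hb.1.2⟩, hb.2⟩⟩
    show (sideASet k n P ω').ncard < m
    rw [e]
    exact hω
  · refine ((Rect.finite (-(n : ℤ) - 2) (n + 2) (-(n : ℤ) - 2) (n + 2)).prod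
      (Set.finite_univ (α := Fin 3))).subset ?_
    rintro ⟨x, i⟩ hj
    refine ⟨?_, Set.mem_univ _⟩
    simp only [Q, Rect, Set.mem_setOf_eq, Prod.fst_add, Prod.snd_add] at hj ⊢
    push_cast at hj
    rcases hj with ⟨-, hj⟩ | ⟨-, hj⟩ <;> omega

lemma sideA_up (k n m : ℕ) (P : V → Prop) : Up (sideAEv k n m P)ᶜ := by
  intro ω ω' h hω hω'
  refine hω (lt_of_le_of_lt (Set.ncard_le_ncard (fun b hb => ?_) (sideA_fin k n P ω')) hω')
  exact ⟨⟨hb.1.1, arm_up _ _ _ ω ω' h hb.1.2⟩, hb.2⟩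

lemma sideA_up_inter {A B : Set (JJ → Bool)} (hA : Up Aᶜ) (hB : Up Bᶜ) : Up (A ∩ B)ᶜ :=
  fun ω ω' h hω hω' => hω ⟨by_contra fun ha => hA ω ω' h ha hω'.1,
    by_contra fun hb => hB ω ω' h hb hω'.2⟩

lemma sideA_sym {θ : unitInterval} {g : V → V} {T : (JJ → Bool) → JJ → Bool} (h : IsSym θ g T)
    (hg : ∀ (j : ℕ) (x : V), g x ∈ Q j ↔ x ∈ Q j) (k n m : ℕ) (P P' : V → Prop)
    (hP : ∀ b, P' (g b) ↔ P b) :
    pp (parJ θ) (sideAEv k n m P') = pp (parJ θ) (sideAEv k n m P) := by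
  have hQ : ∀ j : ℕ, g '' Q j = Q j := fun j => by
    ext y
    constructor
    · rintro ⟨x, hx, rfl⟩
      exact (hg j x).2 hx
    · intro hy
      obtain ⟨x, rfl⟩ := h.bij.2 y
      exact ⟨x, (hg j x).1 hy, rfl⟩
  have key : ∀ ω b, b ∈ sideASet k n P (T ω) ↔ g b ∈ sideASet k n P' ω := fun ω b => by
    have h1 := h.arm ω (Q k) {b} (Q (n + 1))
    rw [hQ, hQ, Set.image_singleton] at h1
    exact ⟨fun hb => ⟨⟨fun h2 => hb.1.1 ((hg n b).1 h2), h1.1 hb.1.2⟩, (hP b).2 hb.2⟩,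
      fun hb => ⟨⟨fun h2 => hb.1.1 ((hg n b).2 h2), h1.2 hb.1.2⟩, (hP b).1 hb.2⟩⟩
  have e : ∀ ω, sideASet k n P' ω = g '' sideASet k n P (T ω) := fun ω => by
    ext y
    constructor
    · intro hy
      obtain ⟨x, rfl⟩ := h.bij.2 y
      exact ⟨x, (key ω x).2 hy, rfl⟩
    · rintro ⟨x, hx, rfl⟩
      exact (key ω x).1 hx
  rw [← h.meas _ (sideA_loc k n m P)]
  have e2 : sideAEv k n m P' = {ω | T ω ∈ sideAEv k n m P} := by
    ext ω
    show (sideASet k n P' ω).ncard < m ↔ (sideASet k n P (T ω)).ncard < m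
    rw [e ω, Set.ncard_image_of_injective _ h.bij.1]
  rw [e2]

/-- Square root trick for the four sides. -/
theorem sideA (θ : unitInterval) (k n m : ℕ) {ε : ℝ} (hε : 0 ≤ ε)
    (h : pp (parJ θ) {ω | (Cn k n ω).ncard < 4 * m} ≤ ε ^ 4) :
    pp (parJ θ) {ω | (Rn k n ω).ncard < m} ≤ ε := by
  classical
  obtain ⟨T1, h1⟩ := sym_neg θ
  obtain ⟨T2, h2⟩ := sym_swp θ
  have q1 : ∀ (j : ℕ) (x : V), -x ∈ Q j ↔ x ∈ Q j := fun j x => by
    simp only [Q, Rect, Set.mem_setOf_eq, Prod.fst_neg, Prod.snd_neg]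
    omega
  have q2 : ∀ (j : ℕ) (x : V), x.swap ∈ Q j ↔ x ∈ Q j := fun j x => by
    simp only [Q, Rect, Set.mem_setOf_eq, Prod.fst_swap, Prod.snd_swap]
    omega
  have e2 := sideA_sym h1 q1 k n m (fun b => b.1 = n + 1) (fun b => b.1 = -(n + 1)) fun b => by
    simp only [Prod.fst_neg]
    omega
  have e3 := sideA_sym h2 q2 k n m (fun b => b.1 = n + 1) (fun b => b.2 = n + 1) fun b => by
    simp only [Prod.snd_swap]
  have e4 := sideA_sym h2 q2 k n m (fun b => b.1 = -(n + 1)) (fun b => b.2 = -(n + 1)) fun b => by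
    simp only [Prod.snd_swap]
  rw [e2] at e4
  set A1 := sideAEv k n m (fun b => b.1 = n + 1) with hA1
  set A2 := sideAEv k n m (fun b => b.1 = -(n + 1)) with hA2
  set A3 := sideAEv k n m (fun b => b.2 = n + 1) with hA3
  set A4 := sideAEv k n m (fun b => b.2 = -(n + 1)) with hA4
  have l1 : Loc A1 := sideA_loc _ _ _ _
  have l2 : Loc A2 := sideA_loc _ _ _ _
  have l3 : Loc A3 := sideA_loc _ _ _ _
  have l4 : Loc A4 := sideA_loc _ _ _ _
  have u1 : Up A1ᶜ := sideA_up _ _ _ _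
  have u2 : Up A2ᶜ := sideA_up _ _ _ _
  have u3 : Up A3ᶜ := sideA_up _ _ _ _
  have u4 : Up A4ᶜ := sideA_up _ _ _ _
  have f1 := pp_fkg_down (parJ θ) l1 l2 u1 u2
  have f2 := pp_fkg_down (parJ θ) l3 l4 u3 u4
  have f3 := pp_fkg_down (parJ θ) (l1.inter l2) (l3.inter l4) (sideA_up_inter u1 u2)
    (sideA_up_inter u3 u4)
  rw [e2] at f1
  rw [e3, e4] at f2
  have p0 := pp_nonneg (parJ θ) A1
  have f4 : pp (parJ θ) ((A1 ∩ A2) ∩ (A3 ∩ A4)) ≤
      pp (parJ θ) {ω | (Cn k n ω).ncard < 4 * m} := by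
    refine pp_mono _ ?_
    rintro ω ⟨⟨a1, a2⟩, a3, a4⟩
    have b1 : (sideASet k n (fun b => b.1 = n + 1) ω).ncard < m := a1
    have b2 : (sideASet k n (fun b => b.1 = -(n + 1)) ω).ncard < m := a2
    have b3 : (sideASet k n (fun b => b.2 = n + 1) ω).ncard < m := a3
    have b4 : (sideASet k n (fun b => b.2 = -(n + 1)) ω).ncard < m := a4
    have c0 : Cn k n ω ⊆ (sideASet k n (fun b => b.1 = n + 1) ω ∪
        sideASet k n (fun b => b.1 = -(n + 1)) ω) ∪ (sideASet k n (fun b => b.2 = n + 1) ω ∪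
        sideASet k n (fun b => b.2 = -(n + 1)) ω) := by
      intro b hb
      have d1 := sideA_sub k n ω hb
      have d2 := hb.1
      simp only [Q, Rect, Set.mem_setOf_eq] at d1 d2
      push_cast at d1
      have d3 : (b.1 = n + 1 ∨ b.1 = -(n + 1)) ∨ (b.2 = n + 1 ∨ b.2 = -(n + 1)) := by omega
      rcases d3 with (d | d) | (d | d)
      · exact Or.inl (Or.inl ⟨hb, d⟩)
      · exact Or.inl (Or.inr ⟨hb, d⟩)
      · exact Or.inr (Or.inl ⟨hb, d⟩)
      · exact Or.inr (Or.inr ⟨hb, d⟩)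
    have c1 := Set.ncard_le_ncard c0 (((sideA_fin _ _ _ _).union (sideA_fin _ _ _ _)).union
      ((sideA_fin _ _ _ _).union (sideA_fin _ _ _ _)))
    have c2 := Set.ncard_union_le (sideASet k n (fun b => b.1 = n + 1) ω ∪
      sideASet k n (fun b => b.1 = -(n + 1)) ω) (sideASet k n (fun b => b.2 = n + 1) ω ∪
      sideASet k n (fun b => b.2 = -(n + 1)) ω)
    have c3 := Set.ncard_union_le (sideASet k n (fun b => b.1 = n + 1) ω)
      (sideASet k n (fun b => b.1 = -(n + 1)) ω)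
    have c4 := Set.ncard_union_le (sideASet k n (fun b => b.2 = n + 1) ω)
      (sideASet k n (fun b => b.2 = -(n + 1)) ω)
    show (Cn k n ω).ncard < 4 * m
    omega
  have f5 : pp (parJ θ) A1 ^ 4 ≤ ε ^ 4 := by
    have g1 := mul_le_mul f1 f2 (mul_nonneg p0 p0) (pp_nonneg _ _)
    calc pp (parJ θ) A1 ^ 4
        = pp (parJ θ) A1 * pp (parJ θ) A1 * (pp (parJ θ) A1 * pp (parJ θ) A1) := by ring
      _ ≤ _ := g1.trans (f3.trans (f4.trans h))
  exact (pow_le_pow_iff_left₀ p0 hε (by norm_num)).1 f5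

end Pool.Agent.FS.RotorSym
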