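import Pool.Agent.FS.RotorSym.Sym

set_option autoImplicit false
set_option linter.unusedSectionVars false
set_option linter.deprecated false
set_option linter.unusedVariables false

namespace Pool.Agent.FS.RotorSym

open Pool.Agent.Lib.MP_9d2e01_pr MeasureTheory Function

/-- The site bits of a horizontal segment of length `L` at height `y`. -/
def sideBseg (c : ℤ) (L : ℕ) (y : ℤ) : Finset JJ :=
  (Finset.range L).image fun j : ℕ => (((c + j, y) : V), (0 : Fin 3))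

lemma sideB_card (c : ℤ) (L : ℕ) (y : ℤ) : (sideBseg c L y).card = L := by
  rw [sideBseg, Finset.card_image_of_injective, Finset.card_range]
  intro i j h
  simp only [Prod.mk.injEq, and_true, add_right_inj, Nat.cast_inj] at h
  exact h

lemma sideB_snd {c : ℤ} {L : ℕ} {y : ℤ} {i : JJ} (h : i ∈ sideBseg c L y) :
    i.1.2 = y ∧ i.2 = 0 := by
  obtain ⟨j, -, rfl⟩ := Finset.mem_image.1 h
  exact ⟨rfl, rfl⟩

lemma sideB_fail (θ : unitInterval) (c : ℤ) (L : ℕ) (Y : Finset ℤ) :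
    Loc {ω : JJ → Bool | ∀ y ∈ Y, ¬ ∀ i ∈ sideBseg c L y, ω i = true} ∧
    pp (parJ θ) {ω | ∀ y ∈ Y, ¬ ∀ i ∈ sideBseg c L y, ω i = true} =
      (1 - (1 / 2 : ℝ) ^ L) ^ Y.card := by
  induction Y using Finset.induction_on with
  | empty =>
    have : {ω : JJ → Bool | ∀ y ∈ (∅ : Finset ℤ), ¬ ∀ i ∈ sideBseg c L y, ω i = true} =
        Set.univ := by ext ω; simp
    rw [this, pp_univ]
    exact ⟨⟨∅, fun _ _ _ h => h⟩, by simp⟩
  | insert y Y hy ih =>
    have e : {ω : JJ → Bool | ∀ z ∈ insert y Y, ¬ ∀ i ∈ sideBseg c L z, ω i = true} =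
        {ω : JJ → Bool | ∀ i ∈ sideBseg c L y, ω i = true}ᶜ ∩
          {ω : JJ → Bool | ∀ z ∈ Y, ¬ ∀ i ∈ sideBseg c L z, ω i = true} := by
      ext ω
      simp only [Finset.forall_mem_insert, Set.mem_setOf_eq, Set.mem_inter_iff, Set.mem_compl_iff]
    have d1 : Dep {ω : JJ → Bool | ∀ i ∈ sideBseg c L y, ω i = true} (sideBseg c L y : Set JJ) :=
      fun ω ω' h h1 i hi => (h i hi).symm.trans (h1 i hi)
    have l1 : Loc {ω : JJ → Bool | ∀ i ∈ sideBseg c L y, ω i = true} := ⟨_, d1⟩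
    have d2 : Dep {ω : JJ → Bool | ∀ z ∈ Y, ¬ ∀ i ∈ sideBseg c L z, ω i = true}
        {i : JJ | i.1.2 ∈ Y} := fun ω ω' h h1 z hz h2 => h1 z hz fun i hi =>
      (h i (by rw [Set.mem_setOf_eq, (sideB_snd hi).1]; exact hz)).trans (h2 i hi)
    have hd : Disjoint (sideBseg c L y : Set JJ) {i : JJ | i.1.2 ∈ Y} :=
      Set.disjoint_left.2 fun i hi h => hy (by
        rw [Set.mem_setOf_eq, (sideB_snd hi).1] at h; exact h)
    rw [e]
    refine ⟨l1.compl.inter ih.1, ?_⟩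
    rw [pp_indep _ d1.compl d2 hd l1.compl ih.1, pp_compl _ l1, ih.2,
      pp_all _ _ (fun i hi => by simp [parJ, (sideB_snd hi).2]), sideB_card,
      Finset.card_insert_of_notMem hy, pow_succ']

lemma sideB_end {ω : JJ → Bool} {R : Set V} {a b : V} (ha : a ∈ R) (ho : ω (a, 0) = true)
    (h : Relation.ReflTransGen (SStp ω R) a b) : b ∈ R ∧ ω (b, 0) = true := by
  induction h with
  | refl => exact ⟨ha, ho⟩
  | tail _ hs _ => exact ⟨hs.2.1, hs.2.2.2.1⟩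

lemma sideB_ext {ω : JJ → Bool} {k n L : ℕ} {b : V} (hb : b.1 = n + 1)
    (h : ω ∈ Arm (Q k) {b} (Q (n + 1)))
    (hs : ∀ i ∈ sideBseg ((n : ℤ) + 2) L b.2, ω i = true) : ω ∈ RArm k (n + 1) L := by
  obtain ⟨a, ha, b', rfl, haR, ho, hp⟩ := h
  obtain ⟨hbR, hbo⟩ := sideB_end haR ho hp
  have hsub : Q (n + 1) ⊆ Rect (-((n + 1 : ℕ) : ℤ)) (((n + 1 : ℕ) : ℤ) + L) (-((n + 1 : ℕ) : ℤ))
      ((n + 1 : ℕ) : ℤ) := fun x hx => by
    simp only [Q, Rect, Set.mem_setOf_eq] at hx ⊢; omega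
  have key : ∀ j : ℕ, j ≤ L → ω ((((n : ℤ) + 1 + j, b'.2) : V), 0) = true ∧
      Relation.ReflTransGen (SStp ω (Rect (-((n + 1 : ℕ) : ℤ)) (((n + 1 : ℕ) : ℤ) + L)
        (-((n + 1 : ℕ) : ℤ)) ((n + 1 : ℕ) : ℤ))) a (((n : ℤ) + 1 + j, b'.2) : V) := by
    intro j
    induction j with
    | zero =>
      intro _
      have e : (((n : ℤ) + 1 + ((0 : ℕ) : ℤ), b'.2) : V) = b' := Prod.ext (by simp [hb]) rfl
      rw [e]
      exact ⟨hbo, rtg_mono (fun p q h => ⟨hsub h.1, hsub h.2.1, h.2.2⟩) hp⟩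
    | succ j ih =>
      intro hj
      obtain ⟨h1, h2⟩ := ih (by omega)
      have h3 : ω ((((n : ℤ) + 1 + ((j + 1 : ℕ) : ℤ), b'.2) : V), 0) = true :=
        hs _ (Finset.mem_image.2 ⟨j, Finset.mem_range.2 (by omega),
          Prod.ext (Prod.ext (by push_cast; ring) rfl) rfl⟩)
      simp only [Q, Rect, Set.mem_setOf_eq] at hbR
      refine ⟨h3, h2.tail ⟨?_, ?_, h1, h3, Or.inl (Or.inl ⟨by push_cast; ring, rfl⟩)⟩⟩
      · simp only [Rect, Set.mem_setOf_eq]; omega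
      · simp only [Rect, Set.mem_setOf_eq]; omega
  exact ⟨a, ha, _, by simp only [Set.mem_setOf_eq]; push_cast; rfl, hsub haR, ho, (key L le_rfl).2⟩

/-- Prolonging one of many contacts by an open segment. -/
theorem sideB (θ : unitInterval) (k n m L : ℕ) :
    (1 - (1 - (1 / 2 : ℝ) ^ L) ^ m) * (1 - pp (parJ θ) {ω | (Rn k n ω).ncard < m}) ≤
      pp (parJ θ) (RArm k (n + 1) L) := by
  classical
  have hQ : (Q (n + 1)).Finite := Rect.finite _ _ _ _
  have hfin : {i : JJ | (i.2 ≠ 2 ∧ i.1 ∈ Q (n + 1)) ∨ (i.2 = 2 ∧ i.1 + (1, 0) ∈ Q (n + 1))}.Finite := by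
    refine ((Rect.finite (-(n : ℤ) - 2) (n + 1) (-(n : ℤ) - 1) (n + 1)).prod
      (Set.finite_univ (α := Fin 3))).subset ?_
    intro i hi
    refine ⟨?_, Set.mem_univ _⟩
    simp only [Q, Rect, Set.mem_setOf_eq, Prod.fst_add, Prod.snd_add] at hi ⊢
    omega
  have hR : ∀ ω ω' : JJ → Bool, (∀ i ∈ (hfin.toFinset : Set JJ), ω i = ω' i) →
      Rn k n ω ⊆ Rn k n ω' := fun ω ω' h b hb =>
    ⟨⟨hb.1.1, arm_dep _ _ _ ω ω' (fun i hi => h i (by simpa using hi)) hb.1.2⟩, hb.2⟩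
  have dA : Dep {ω | (Rn k n ω).ncard < m} (hfin.toFinset : Set JJ) := fun ω ω' h h1 => by
    rw [Set.mem_setOf_eq, (hR ω' ω fun i hi => (h i hi).symm).antisymm (hR ω ω' h)]
    exact h1
  have lA : Loc {ω | (Rn k n ω).ncard < m} := ⟨_, dA⟩
  have lB : Loc (RArm k (n + 1) L) := arm_loc _ _ (Rect.finite _ _ _ _)
  rw [← pp_compl _ lA]
  refine (pp_cond _ hfin.toFinset dA.compl lB fun ξ hξ => ?_).trans
    (pp_mono _ Set.inter_subset_right)
  have hm : m ≤ (Rn k n ξ).ncard := not_lt.1 hξ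
  obtain ⟨T, hT, hTc⟩ := Set.exists_subset_card_eq hm
  have hRf : (Rn k n ξ).Finite := hQ.subset fun b hb => by
    obtain ⟨a, ha, b', rfl, haR, ho, hp⟩ := hb.1.2
    exact (sideB_end haR ho hp).1
  have hTf : T.Finite := hRf.subset hT
  have hY : (hTf.toFinset.image Prod.snd).card = m := by
    rw [Finset.card_image_of_injOn, ← Set.ncard_eq_toFinset_card T hTf, hTc]
    intro x hx y hy h
    exact Prod.ext ((hT (by simpa using hx)).2.trans (hT (by simpa using hy)).2.symm) h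
  obtain ⟨l1, e1⟩ := sideB_fail θ ((n : ℤ) + 2) L (hTf.toFinset.image Prod.snd)
  rw [← hY, ← e1, ← pp_compl _ l1]
  refine pp_mono _ fun ω hω => ?_
  simp only [Set.mem_compl_iff, Set.mem_setOf_eq] at hω
  push Not at hω
  obtain ⟨y, hy, hs⟩ := hω
  obtain ⟨b, hb, rfl⟩ := Finset.mem_image.1 hy
  have hb' : b ∈ Rn k n ξ := hT (by simpa using hb)
  have hb2 := hR ξ (hfin.toFinset.piecewise ξ ω)
    (fun i hi => (Finset.piecewise_eq_of_mem _ _ _ hi).symm) hb'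
  refine sideB_ext hb2.2 hb2.1.2 fun i hi => ?_
  rw [Finset.piecewise_eq_of_notMem]
  · exact hs i hi
  · obtain ⟨j, -, rfl⟩ := Finset.mem_image.1 hi
    simp only [Set.Finite.mem_toFinset, Q, Rect, Set.mem_setOf_eq, Prod.fst_add, Prod.snd_add]
    omega

end Pool.Agent.FS.RotorSym
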