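import Pool.Agent.FS.RotorSym.Cnt
import Pool.Agent.FS.RotorSym.SideA
import Pool.Agent.FS.RotorSym.SideB

set_option autoImplicit false
set_option linter.unusedSectionVars false
set_option linter.deprecated false
set_option linter.unusedVariables false

namespace Pool.Agent.FS.RotorSym

open Pool.Agent.Lib.MP_9d2e01_pr MeasureTheory Function

theorem arms (θ : unitInterval)
    (h : ∀ ε : ℝ, 0 < ε → ∃ k, ∀ n, k ≤ n → 1 - ε ≤ pp (parJ θ) (Out k n)) {δ : ℝ} (hδ : 0 < δ) :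
    ∃ k, ∀ K, ∃ N, k ≤ N ∧ ∀ L ≤ K, 1 - δ ≤ pp (parJ θ) (RArm k N L) := by
  have h0 : 0 < (δ / 2) ^ 4 / 2 := by positivity
  obtain ⟨k, hk⟩ := h _ h0
  refine ⟨k, fun K => ?_⟩
  have hK : (0 : ℝ) < (1 / 2) ^ K := by positivity
  obtain ⟨m, hm⟩ := exists_pow_lt_of_lt_one (x := δ / 2) (y := 1 - (1 / 2 : ℝ) ^ K)
    (by positivity) (by linarith)
  obtain ⟨n, hn, hc⟩ := con θ k (4 * m) k h0
  refine ⟨n + 1, by omega, fun L hL => ?_⟩
  have l : Loc (Out k n) := arm_loc _ _ (Rect.finite _ _ _ _)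
  have a : pp (parJ θ) {ω | (Cn k n ω).ncard < 4 * m} ≤ (δ / 2) ^ 4 := by
    have e : {ω | (Cn k n ω).ncard < 4 * m} ⊆
        {ω | ω ∈ Out k n ∧ (Cn k n ω).ncard < 4 * m} ∪ (Out k n)ᶜ := fun ω hω => by
      by_cases b : ω ∈ Out k n
      · exact Or.inl ⟨b, hω⟩
      · exact Or.inr b
    have e2 := (pp_mono (parJ θ) e).trans (pp_union_le _ _ _)
    rw [pp_compl _ l] at e2
    linarith [hk n hn]
  have b := sideA θ k n m (by positivity) a
  have c := sideB θ k n m L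
  have d1 : (1 / 2 : ℝ) ^ K ≤ (1 / 2) ^ L := pow_le_pow_of_le_one (by norm_num) (by norm_num) hL
  have d2 : (1 / 2 : ℝ) ^ L ≤ 1 := pow_le_one₀ (by norm_num) (by norm_num)
  have d3 : (1 - (1 / 2 : ℝ) ^ L) ^ m ≤ (1 - (1 / 2 : ℝ) ^ K) ^ m :=
    pow_le_pow_left₀ (by linarith) (by linarith) m
  have d4 : 0 ≤ (1 - (1 / 2 : ℝ) ^ L) ^ m := pow_nonneg (by linarith) m
  have d5 := mul_nonneg d4 (pp_nonneg (parJ θ) {ω | (Rn k n ω).ncard < m})
  nlinarith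

end Pool.Agent.FS.RotorSym
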