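import Pool.Agent.FS.RotorSym.Defs

set_option autoImplicit false
set_option linter.unusedSectionVars false
set_option linter.deprecated false
set_option linter.unusedVariables false

namespace Pool.Agent.FS.RotorSym

open Pool.Agent.Lib.MP_9d2e01_pr MeasureTheory Function

variable {ι : Type} (p : ι → unitInterval)

lemma pp_nonneg (A : Set (ι → Bool)) : 0 ≤ pp p A := measureReal_nonneg
lemma pp_mono {A B : Set (ι → Bool)} (h : A ⊆ B) : pp p A ≤ pp p B := measureReal_mono h
lemma pp_univ : pp p Set.univ = 1 := by simp [pp]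
lemma pp_empty : pp p ∅ = 0 := by simp [pp]
lemma pp_le_one (A : Set (ι → Bool)) : pp p A ≤ 1 := by
  rw [← pp_univ p]; exact pp_mono p (Set.subset_univ _)
lemma pp_union_le (A B : Set (ι → Bool)) : pp p (A ∪ B) ≤ pp p A + pp p B :=
  measureReal_union_le _ _
lemma pp_union_add_inter (A : Set (ι → Bool)) {B : Set (ι → Bool)} (h : Loc B) :
    pp p (A ∪ B) + pp p (A ∩ B) = pp p A + pp p B := measureReal_union_add_inter h.measurableSet
lemma pp_compl {A : Set (ι → Bool)} (h : Loc A) : pp p Aᶜ = 1 - pp p A := by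
  unfold pp
  rw [measureReal_compl h.measurableSet]; simp
lemma pp_sum_le {β : Type} (s : Finset β) (A : β → Set (ι → Bool)) (X : Set (ι → Bool))
    (hl : ∀ b ∈ s, Loc (A b)) (hd : (s : Set β).PairwiseDisjoint A) (hX : ∀ b ∈ s, A b ⊆ X) :
    ∑ b ∈ s, pp p (A b) ≤ pp p X := by
  unfold pp
  rw [← measureReal_biUnion_finset hd (fun b hb => (hl b hb).measurableSet)]
  exact measureReal_mono (Set.iUnion₂_subset hX)
lemma pp_le_sum {β : Type} (s : Finset β) (A : β → Set (ι → Bool)) (X : Set (ι → Bool))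
    (hX : X ⊆ ⋃ b ∈ s, A b) : pp p X ≤ ∑ b ∈ s, pp p (A b) :=
  (pp_mono p hX).trans (measureReal_biUnion_finset_le s A)

lemma pp_indep {A B : Set (ι → Bool)} {S T : Set ι} (hA : Dep A S) (hB : Dep B T)
    (hST : Disjoint S T) (lA : Loc A) (lB : Loc B) : pp p (A ∩ B) = pp p A * pp p B := by
  classical
  obtain ⟨F, hF⟩ := lA
  obtain ⟨G, hG⟩ := lB
  have hF' : Dep A ((F.filter (· ∈ S) : Finset ι) : Set ι) :=
    (hA.inter_dep hF).mono (fun i hi => by simp [hi.1, Finset.mem_coe.mp hi.2])
  have hG' : Dep B ((G.filter (· ∈ T) : Finset ι) : Set ι) :=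
    (hB.inter_dep hG).mono (fun i hi => by simp [hi.1, Finset.mem_coe.mp hi.2])
  have hd : Disjoint (F.filter (· ∈ S)) (G.filter (· ∈ T)) := by
    rw [Finset.disjoint_left]
    intro i hi hi'
    exact Set.disjoint_left.mp hST (Finset.mem_filter.mp hi).2 (Finset.mem_filter.mp hi').2
  have hind : ProbabilityTheory.iIndepFun (fun (i : ι) (ω : ι → Bool) => ω i) (mup p) :=
    ProbabilityTheory.iIndepFun_infinitePi (X := fun _ a => a) (fun _ => measurable_id)
  have h2 := hind.indepFun_finset _ _ hd (fun i => measurable_pi_apply i)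
  rw [ProbabilityTheory.indepFun_iff_measure_inter_preimage_eq_mul] at h2
  have h3 := h2 ((fun (ω : ι → Bool) (i : (F.filter (· ∈ S))) => ω i) '' A)
    ((fun (ω : ι → Bool) (i : (G.filter (· ∈ T))) => ω i) '' B)
    (Set.toFinite _).measurableSet (Set.toFinite _).measurableSet
  rw [← hF'.eq_preimage, ← hG'.eq_preimage] at h3
  unfold pp Measure.real
  rw [h3, ENNReal.toReal_mul]

lemma pb_ber_true (t : unitInterval) : ber t {true} = ENNReal.ofReal t := by
  simp [ber]

lemma pb_ber_false (t : unitInterval) : ber t {false} = ENNReal.ofReal (1 - t) := by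
  simp [ber]

lemma pb_coord (i : ι) (b : Bool) : mup p {ω | ω i = b} = ber (p i) {b} := by
  have h := (measurePreserving_eval_infinitePi
    (fun i : ι => ber (p i)) i).measure_preimage
    (s := ({b} : Set Bool)) (MeasurableSet.singleton b).nullMeasurableSet
  unfold mup
  have h2 : {ω : ι → Bool | ω i = b} = Function.eval i ⁻¹' ({b} : Set Bool) := rfl
  rw [h2, h]

lemma pb_ber_not (t : unitInterval) : (ber t).map (fun b => !b) = ber (unitInterval.symm t) := by
  apply Measure.ext_of_singleton
  intro b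
  rw [Measure.map_apply (by fun_prop) (MeasurableSet.singleton b)]
  have e : (fun b => !b) ⁻¹' {b} = {!b} := by
    ext c; cases b <;> cases c <;> simp
  rw [e]
  cases b
  · rw [Bool.not_false, pb_ber_true, pb_ber_false, unitInterval.coe_symm_eq]
    congr 1; ring
  · rw [Bool.not_true, pb_ber_true, pb_ber_false, unitInterval.coe_symm_eq]

lemma pp_coord (i : ι) : pp p {ω | ω i = true} = p i ∧ pp p {ω | ω i = false} = 1 - p i := by
  unfold pp Measure.real
  rw [pb_coord, pb_coord, pb_ber_true, pb_ber_false, ENNReal.toReal_ofReal (p i).2.1,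
    ENNReal.toReal_ofReal (sub_nonneg.2 (p i).2.2)]
  exact ⟨rfl, rfl⟩

/-- Reading coordinates through an injective map, some of them negated. -/
lemma pp_map {κ : Type} (q : κ → unitInterval) {f : κ → ι} (hf : Injective f) (fl : κ → Bool)
    (hq : ∀ k, q k = if fl k then unitInterval.symm (p (f k)) else p (f k))
    {A : Set (κ → Bool)} (h : Loc A) :
    pp p {ω | (fun k => xor (fl k) (ω (f k))) ∈ A} = pp q A := by
  have h1 : (mup p).map (fun ω k => ω (f k)) = mup (fun k => p (f k)) :=
    Measure.map_infinitePi_infinitePi_of_inj hf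
  have h2 : (mup (fun k => p (f k))).map (fun ω k => xor (fl k) (ω k)) = mup q := by
    unfold mup
    rw [Measure.infinitePi_map_pi (f := fun k b => xor (fl k) b) _
      (fun _ => measurable_of_countable _)]
    congr 1
    funext k
    rw [hq k]
    cases fl k
    · simp
    · simpa using pb_ber_not (p (f k))
  have m1 : Measurable (fun (ω : ι → Bool) (k : κ) => ω (f k)) :=
    measurable_pi_lambda _ (fun k => measurable_pi_apply _)
  have m2 : Measurable (fun (ω : κ → Bool) (k : κ) => xor (fl k) (ω k)) :=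
    measurable_pi_lambda _ (fun k =>
      (measurable_of_countable (fun b => xor (fl k) b)).comp (measurable_pi_apply k))
  unfold pp
  rw [← h2, map_measureReal_apply m2 h.measurableSet, ← h1,
    map_measureReal_apply m1 (m2 h.measurableSet)]
  rfl

lemma pb_dep_coord (i : ι) (b : Bool) : Dep {ω : ι → Bool | ω i = b} {i} := by
  intro ω ω' hω hA
  have := hω i rfl
  simp only [Set.mem_setOf_eq] at hA ⊢
  rw [← this, hA]

lemma pb_loc_coord (i : ι) (b : Bool) : Loc {ω : ι → Bool | ω i = b} :=
  Loc.of_finite (pb_dep_coord i b) (Set.finite_singleton i)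

/-- All coordinates of a finite set take the value `b`, when each is fair. -/
lemma pp_all (F : Finset ι) (hF : ∀ i ∈ F, p i = hf) (b : Bool) :
    pp p {ω | ∀ i ∈ F, ω i = b} = (1 / 2) ^ F.card := by
  classical
  induction F using Finset.induction_on with
  | empty => simpa using pp_univ p
  | insert i F hi ih =>
    have e : {ω : ι → Bool | ∀ j ∈ insert i F, ω j = b} =
        {ω | ω i = b} ∩ {ω | ∀ j ∈ F, ω j = b} := by
      ext ω; simp
    have d : Dep {ω : ι → Bool | ∀ j ∈ F, ω j = b} (F : Set ι) := by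
      intro ω ω' hω hA j hj
      rw [← hω j hj]; exact hA j hj
    have hc : pp p {ω | ω i = b} = 1 / 2 := by
      have hp : ((p i : unitInterval) : ℝ) = 1 / 2 := by
        rw [hF i (Finset.mem_insert_self i F)]; rfl
      cases b
      · rw [(pp_coord p i).2, hp]; norm_num
      · rw [(pp_coord p i).1, hp]
    rw [e, pp_indep p (pb_dep_coord i b) d (by simpa using hi) (pb_loc_coord i b) ⟨F, d⟩,
      ih (fun j hj => hF j (Finset.mem_insert_of_mem hj)), hc, Finset.card_insert_of_notMem hi]
    ring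

variable [DecidableEq ι]

lemma pp_split {A : Set (ι → Bool)} (h : Loc A) (i : ι) :
    pp p A = p i * pp p (sec A i true) + (1 - p i) * pp p (sec A i false) := by
  have h1 : ∀ b : Bool, pp p (A ∩ {ω | ω i = b}) =
      pp p (sec A i b) * pp p {ω | ω i = b} := by
    intro b
    have e : A ∩ {ω | ω i = b} = sec A i b ∩ {ω | ω i = b} := by
      ext ω
      simp only [sec, Set.mem_inter_iff, Set.mem_setOf_eq]
      constructor
      · rintro ⟨h1, h2⟩; exact ⟨by rw [← h2]; simpa using h1, h2⟩
      · rintro ⟨h1, h2⟩; exact ⟨by rw [← h2] at h1; simpa using h1, h2⟩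
    have hu : Dep A Set.univ := fun ω ω' hω hA => by
      have : ω = ω' := funext fun j => hω j trivial
      rwa [← this]
    rw [e, pp_indep p (hu.sec i b) (pb_dep_coord i b) (by simp) (h.sec i b) (pb_loc_coord i b)]
  have h2 := pp_union_add_inter p (A ∩ {ω | ω i = true}) (h.inter (pb_loc_coord i false))
  have e1 : A ∩ {ω | ω i = true} ∪ A ∩ {ω | ω i = false} = A := by
    ext ω; cases hω : ω i <;> simp [hω]
  have e2 : A ∩ {ω | ω i = true} ∩ (A ∩ {ω | ω i = false}) = ∅ := by
    ext ω; cases hω : ω i <;> simp [hω]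
  rw [e1, e2, pp_empty, h1, h1, (pp_coord p i).1, (pp_coord p i).2] at h2
  linarith

lemma pb_dep_sec {F : Finset ι} {i : ι} (C : Set (ι → Bool)) (b : Bool)
    (hC : Dep C ((insert i F : Finset ι) : Set ι)) : Dep (sec C i b) (F : Set ι) := by
  refine (hC.sec i b).mono ?_
  intro j hj
  have h1 := hj.1
  have h2 := hj.2
  simp only [Finset.coe_insert, Set.mem_insert_iff, Set.mem_singleton_iff] at h1 h2
  tauto

lemma pb_fkg_aux (F : Finset ι) : ∀ A B : Set (ι → Bool), Dep A (F : Set ι) →
    Dep B (F : Set ι) → Up A → Up B → pp p A * pp p B ≤ pp p (A ∩ B) := by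
  induction F using Finset.induction_on with
  | empty =>
    intro A B hA hB _ _
    rw [pp_indep p hA hB (by simp) ⟨∅, hA⟩ ⟨∅, hB⟩]
  | insert i F hi ih =>
    intro A B hA hB uA uB
    have h1 := ih _ _ (pb_dep_sec A true hA) (pb_dep_sec B true hB) (uA.sec i true) (uB.sec i true)
    have h0 := ih _ _ (pb_dep_sec A false hA) (pb_dep_sec B false hB) (uA.sec i false)
      (uB.sec i false)
    have ha := pp_mono p (uA.sec_sub i)
    have hb := pp_mono p (uB.sec_sub i)
    rw [pp_split p ⟨_, hA⟩ i, pp_split p ⟨_, hB⟩ i, pp_split p ⟨_, hA.inter hB⟩ i]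
    have e : ∀ b, sec (A ∩ B) i b = sec A i b ∩ sec B i b := fun b => rfl
    rw [e, e]
    have p0 : (0 : ℝ) ≤ p i := (p i).2.1
    have p1 : (0 : ℝ) ≤ 1 - p i := sub_nonneg.2 (p i).2.2
    have k1 := mul_le_mul_of_nonneg_left h1 p0
    have k0 := mul_le_mul_of_nonneg_left h0 p1
    have k2 := mul_nonneg (mul_nonneg p0 p1)
      (mul_nonneg (sub_nonneg.mpr ha) (sub_nonneg.mpr hb))
    nlinarith [k1, k0, k2]

lemma pp_fkg {A B : Set (ι → Bool)} (lA : Loc A) (lB : Loc B) (uA : Up A) (uB : Up B) :
    pp p A * pp p B ≤ pp p (A ∩ B) := by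
  obtain ⟨F, hF⟩ := lA
  obtain ⟨G, hG⟩ := lB
  exact pb_fkg_aux p (F ∪ G) A B (hF.mono (by simp)) (hG.mono (by simp)) uA uB

lemma pp_fkg_down {A B : Set (ι → Bool)} (lA : Loc A) (lB : Loc B) (uA : Up Aᶜ) (uB : Up Bᶜ) :
    pp p A * pp p B ≤ pp p (A ∩ B) := by
  have h1 := pp_fkg p lA.compl lB.compl uA uB
  have h2 := pp_union_add_inter p Aᶜ lB.compl
  have h3 := pp_compl p (lA.inter lB)
  rw [Set.compl_inter] at h3
  rw [pp_compl p lA, pp_compl p lB] at h1 h2
  nlinarith

/-- Conditioning on the coordinates of a finite set. -/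
lemma pp_cond (S : Finset ι) {A B : Set (ι → Bool)} (hA : Dep A (S : Set ι)) (lB : Loc B) {c : ℝ}
    (h : ∀ ξ ∈ A, c ≤ pp p {ω | S.piecewise ξ ω ∈ B}) : c * pp p A ≤ pp p (A ∩ B) := by
  induction S using Finset.induction_on generalizing A B with
  | empty =>
    rcases A.eq_empty_or_nonempty with rfl | ⟨ξ, hξ⟩
    · rw [pp_empty, mul_zero]; exact pp_nonneg p _
    · have hu : A = Set.univ :=
        Set.eq_univ_of_forall (fun ω => hA ξ ω (fun i hi => by simp at hi) hξ)
      have h1 := h ξ hξ
      have e : {ω | (∅ : Finset ι).piecewise ξ ω ∈ B} = B := by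
        ext ω; simp
      rw [e] at h1
      rw [hu, pp_univ, Set.univ_inter, mul_one]
      exact h1
  | insert i F hi ih =>
    have key : ∀ b : Bool, c * pp p (sec A i b) ≤ pp p (sec A i b ∩ sec B i b) := by
      intro b
      refine ih (pb_dep_sec A b hA) (lB.sec i b) (fun ξ hξ => ?_)
      have h1 := h (Function.update ξ i b) hξ
      have e : {ω | (insert i F).piecewise (Function.update ξ i b) ω ∈ B} =
          {ω | F.piecewise ξ ω ∈ sec B i b} := by
        ext ω
        have e2 : (insert i F).piecewise (Function.update ξ i b) ω =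
            Function.update (F.piecewise ξ ω) i b := by
          funext j
          by_cases hj : j = i
          · subst hj; simp [Finset.piecewise]
          · by_cases hF : j ∈ F <;> simp [Finset.piecewise, hj, hF]
        simp only [Set.mem_setOf_eq, sec, e2]
      rw [e] at h1
      exact h1
    have lA : Loc A := ⟨_, hA⟩
    rw [pp_split p lA i, pp_split p (lA.inter lB) i]
    have e : ∀ b, sec (A ∩ B) i b = sec A i b ∩ sec B i b := fun b => rfl
    rw [e, e]
    have p0 : (0 : ℝ) ≤ p i := (p i).2.1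
    have p1 : (0 : ℝ) ≤ 1 - p i := sub_nonneg.2 (p i).2.2
    have k1 := mul_le_mul_of_nonneg_left (key true) p0
    have k0 := mul_le_mul_of_nonneg_left (key false) p1
    nlinarith [k1, k0]

end Pool.Agent.FS.RotorSym
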