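import Pool.Agent.FS.RotorSym.Tri
import Pool.Agent.FS.RotorSym.Pb

set_option autoImplicit false
set_option linter.unusedSectionVars false
set_option linter.deprecated false
set_option linter.unusedVariables false

namespace Pool.Agent.FS.RotorSym

open Pool.Agent.Lib.MP_9d2e01_pr MeasureTheory Function

lemma cmp_Qfin (n : ℕ) : (Q n).Finite := by
  refine ((Set.finite_Icc (-(n : ℤ)) n).prod (Set.finite_Icc (-(n : ℤ)) n)).subset ?_
  intro x hx
  simp only [Q, Rect, Set.mem_setOf_eq] at hx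
  simp only [Set.mem_prod, Set.mem_Icc]
  omega

lemma cmp_congr {γ γ' : V → Gad} {d : Fin 4} {n : ℕ} (h : ∀ x ∈ Q n, γ x = γ' x)
    (e : Esc γ d n) : Esc γ' d n := by
  obtain ⟨v, h1, h2⟩ := e
  refine ⟨v, h1, rtg_mono (fun a b hab => ⟨hab.1, ?_⟩) h2⟩
  rcases hab.2 with k | ⟨k1, k2, k3⟩ | ⟨k1, k2, k3⟩
  · exact Or.inl k
  · exact Or.inr (Or.inl ⟨k1, k2, by rw [← h _ hab.1]; exact k3⟩)
  · exact Or.inr (Or.inr ⟨k1, k2, by rw [← h _ hab.1]; exact k3⟩)

open Classical in
lemma cmp_lin {ι β : Type} [Fintype β] (p : ι → unitInterval) (E : β → Set (ι → Bool))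
    (hE : ∀ b, Loc (E b)) (c : β → ℝ)
    (h : ∀ ω, 0 ≤ ∑ b, c b * (if ω ∈ E b then (1 : ℝ) else 0)) : 0 ≤ ∑ b, c b * pp p (E b) := by
  have h1 : ∀ b, c b * pp p (E b) = ∫ ω, c b * (E b).indicator (1 : (ι → Bool) → ℝ) ω ∂(mup p) := by
    intro b
    rw [integral_const_mul, integral_indicator_one (hE b).measurableSet]
    rfl
  simp only [h1]
  rw [← integral_finset_sum]
  · refine integral_nonneg (fun ω => ?_)
    have := h ω
    simpa [Set.indicator_apply] using this
  · intro b _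
    exact ((integrable_const (1 : ℝ)).indicator (hE b).measurableSet).const_mul _

/-- Index set of the gadgets that occur. -/
abbrev cmp_I := Fin 4 ⊕ Unit ⊕ (Bool × Bool × Bool × Bool)

/-- Four bits as a function. -/
def cmp_eta (s : Bool × Bool × Bool × Bool) : Fin 4 → Bool := fun i =>
  if i = 0 then s.1 else if i = 1 then s.2.1 else if i = 2 then s.2.2.1 else s.2.2.2

/-- Weight of four bits. -/
noncomputable def cmp_w (t : ℝ) (s : Bool × Bool × Bool × Bool) : ℝ :=
  (if s.1 then t else 1 - t) * (if s.2.1 then 1 - t else t) * (if s.2.2.1 then t else 1 - t) *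
    (if s.2.2.2 then 1 - t else t)

/-- The gadgets. -/
def cmp_g : cmp_I → Gad :=
  Sum.elim orig (Sum.elim (fun _ => allG) (fun s => clo (cmp_eta s)))

/-- The coefficients. -/
noncomputable def cmp_c (t : ℝ) : cmp_I → ℝ :=
  Sum.elim (fun m => if m = 0 ∨ m = 2 then -((1 - t) / 2) else -(t / 2))
    (Sum.elim (fun _ => 1 / 2) (fun s => cmp_w t s / 2))

lemma cmp_w_nonneg {t : ℝ} (h0 : 0 ≤ t) (h1 : t ≤ 1) (s : Bool × Bool × Bool × Bool) :
    0 ≤ cmp_w t s := by
  have h2 : 0 ≤ 1 - t := by linarith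
  unfold cmp_w
  refine mul_nonneg (mul_nonneg (mul_nonneg ?_ ?_) ?_) ?_ <;> split_ifs <;> assumption

lemma cmp_sum (t : ℝ) (e : Gad → ℝ) : ∑ b, cmp_c t b * e (cmp_g b) =
    1 / 2 * e allG + (∑ s, cmp_w t s * e (clo (cmp_eta s))) / 2 -
      ((1 - t) / 2 * e (orig 0) + t / 2 * e (orig 1) + (1 - t) / 2 * e (orig 2) +
        t / 2 * e (orig 3)) := by
  rw [Fintype.sum_sum_type, Fintype.sum_sum_type, Fin.sum_univ_four, Finset.sum_div]
  simp only [cmp_c, cmp_g, Sum.elim_inl, Sum.elim_inr, Finset.univ_unique, Finset.sum_singleton]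
  have h : ∑ s, cmp_w t s / 2 * e (clo (cmp_eta s)) = ∑ s, cmp_w t s * e (clo (cmp_eta s)) / 2 :=
    Finset.sum_congr rfl (fun s _ => by ring)
  rw [h]
  simp
  ring

lemma cmp_s0 (t : ℝ) :
    ∑ s, cmp_w t s * (if (fun _ => true) s = true then (1 : ℝ) else 0) = 1 := by
  simp [Fintype.sum_prod_type, cmp_w]
  ring

lemma cmp_s1 (t : ℝ) (u : Fin 4) :
    ∑ s, cmp_w t s * (if (fun s => cmp_eta s u) s = true then (1 : ℝ) else 0) =
      if u = 0 ∨ u = 2 then t else 1 - t := by
  fin_cases u <;> simp [Fintype.sum_prod_type, cmp_w, cmp_eta] <;> ring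

lemma cmp_s2 (t : ℝ) (u : Fin 4) :
    ∑ s, cmp_w t s * (if (fun s => cmp_eta s u && cmp_eta s (u + 2)) s = true then (1 : ℝ) else 0) =
      if u = 0 ∨ u = 2 then t ^ 2 else (1 - t) ^ 2 := by
  have hu : ∀ u : Fin 4, u = 0 ∨ u = 1 ∨ u = 2 ∨ u = 3 := by decide
  have c0 : ((0 : Fin 4) + 2) = 2 := by decide
  have c1 : ((1 : Fin 4) + 2) = 3 := by decide
  have c2 : ((2 : Fin 4) + 2) = 0 := by decide
  have c3 : ((3 : Fin 4) + 2) = 1 := by decide
  rcases hu u with rfl | rfl | rfl | rfl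
  · rw [c0]; simp [Fintype.sum_prod_type, cmp_w, cmp_eta]; ring
  · rw [c1]; simp [Fintype.sum_prod_type, cmp_w, cmp_eta]; ring
  · rw [c2]; simp [Fintype.sum_prod_type, cmp_w, cmp_eta]; ring
  · rw [c3]; simp [Fintype.sum_prod_type, cmp_w, cmp_eta]; ring

open Classical in
lemma cmp_pt {t : ℝ} (h0 : 0 ≤ t) (h1 : t ≤ 1) (P : Gad → Prop)
    (mono : ∀ g g' : Gad, (∀ k, g k = true → g' k = true) → P g → P g')
    (H : (∀ m, ¬ P (orig m)) ∨ P (clo fun _ => false) ∨
      (∃ u, ¬ P (orig u) ∧ P (clo fun c => decide (c = u))) ∨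
      (∃ u, ¬ P (orig u) ∧ ¬ P (orig (u + 1))) ∨
      (∃ u, ¬ P (orig u) ∧ ¬ P (orig (u + 2)) ∧ P (clo fun c => decide (c = u ∨ c = u + 2)))) :
    0 ≤ ∑ b, cmp_c t b * (if P (cmp_g b) then (1 : ℝ) else 0) := by
  rw [cmp_sum t (fun g => if P g then (1 : ℝ) else 0)]
  have h2 : 0 ≤ 1 - t := by linarith
  have hle : ∀ g, (if P g then (1 : ℝ) else 0) ≤ 1 := fun g => by split_ifs <;> norm_num
  have hge : ∀ g, (0 : ℝ) ≤ (if P g then (1 : ℝ) else 0) := fun g => by split_ifs <;> norm_num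
  have hlow : ∀ (η : Fin 4 → Bool) (ψ : Bool × Bool × Bool × Bool → Bool), P (clo η) →
      (∀ s, ψ s = true → ∀ c, η c = true → cmp_eta s c = true) →
      ∑ s, cmp_w t s * (if ψ s = true then (1 : ℝ) else 0) ≤
        ∑ s, cmp_w t s * (if P (clo (cmp_eta s)) then (1 : ℝ) else 0) := by
    intro η ψ hη hψ
    refine Finset.sum_le_sum (fun s _ => mul_le_mul_of_nonneg_left ?_ (cmp_w_nonneg h0 h1 s))
    by_cases hs : ψ s = true
    · rw [if_pos hs, if_pos (mono _ _ (fun k hk => ?_) hη)]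
      simp only [clo, Bool.and_eq_true] at hk ⊢
      exact ⟨hk.1, hψ s hs _ hk.2⟩
    · rw [if_neg hs]; exact hge _
  have hS : 0 ≤ ∑ s, cmp_w t s * (if P (clo (cmp_eta s)) then (1 : ℝ) else 0) :=
    Finset.sum_nonneg (fun s _ => mul_nonneg (cmp_w_nonneg h0 h1 s) (hge _))
  by_cases hno : ∀ m, ¬ P (orig m)
  · simp only [if_neg (hno _)]
    have := hge allG
    linarith
  have hall : P allG := by
    push Not at hno
    obtain ⟨m, hm⟩ := hno
    exact mono _ _ (fun _ _ => rfl) hm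
  rw [if_pos hall]
  have a0 := mul_le_mul_of_nonneg_left (hle (orig 0)) h2
  have a1 := mul_le_mul_of_nonneg_left (hle (orig 1)) h0
  have a2 := mul_le_mul_of_nonneg_left (hle (orig 2)) h2
  have a3 := mul_le_mul_of_nonneg_left (hle (orig 3)) h0
  have hu : ∀ u : Fin 4, u = 0 ∨ u = 1 ∨ u = 2 ∨ u = 3 := by decide
  rcases H with H | H | ⟨u, H1, H2⟩ | ⟨u, H1, H2⟩ | ⟨u, H1, H2, H3⟩
  · exact absurd H hno
  · have h3 := hlow _ (fun _ => true) H (fun s _ c hc => absurd hc (by simp))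
    rw [cmp_s0] at h3
    linarith
  · have h3 := hlow _ (fun s => cmp_eta s u) H2 (fun s hs c hc => by
      have : c = u := by simpa using hc
      rw [this]; exact hs)
    rw [cmp_s1] at h3
    rcases hu u with rfl | rfl | rfl | rfl
    · rw [if_neg H1]; rw [if_pos (by decide)] at h3; linarith
    · rw [if_neg H1]; rw [if_neg (by decide)] at h3; linarith
    · rw [if_neg H1]; rw [if_pos (by decide)] at h3; linarith
    · rw [if_neg H1]; rw [if_neg (by decide)] at h3; linarith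
  · rcases hu u with rfl | rfl | rfl | rfl
    · have H2' : ¬ P (orig 1) := H2
      rw [if_neg H1, if_neg H2']; linarith
    · have H2' : ¬ P (orig 2) := H2
      rw [if_neg H1, if_neg H2']; linarith
    · have H2' : ¬ P (orig 3) := H2
      rw [if_neg H1, if_neg H2']; linarith
    · have H2' : ¬ P (orig 0) := H2
      rw [if_neg H1, if_neg H2']; linarith
  · have h3 := hlow _ (fun s => cmp_eta s u && cmp_eta s (u + 2)) H3 (fun s hs c hc => by
      have h4 : c = u ∨ c = u + 2 := by simpa using hc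
      simp only [Bool.and_eq_true] at hs
      rcases h4 with h4 | h4
      · rw [h4]; exact hs.1
      · rw [h4]; exact hs.2)
    rw [cmp_s2] at h3
    have q1 := sq_nonneg t
    have q2 := sq_nonneg (1 - t)
    rcases hu u with rfl | rfl | rfl | rfl
    · have H2' : ¬ P (orig 2) := H2
      rw [if_neg H1, if_neg H2']; rw [if_pos (by decide)] at h3; nlinarith
    · have H2' : ¬ P (orig 3) := H2
      rw [if_neg H1, if_neg H2']; rw [if_neg (by decide)] at h3; nlinarith
    · have H2' : ¬ P (orig 0) := H2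
      rw [if_neg H1, if_neg H2']; rw [if_pos (by decide)] at h3; nlinarith
    · have H2' : ¬ P (orig 1) := H2
      rw [if_neg H1, if_neg H2']; rw [if_neg (by decide)] at h3; nlinarith

section step

variable (θ : unitInterval) (d : Fin 4) (n : ℕ) (y : V) (Γ : (KK → Bool) → V → Gad)

/-- Escape when the roundabout at `y` is read from the bits at `y` through `τ`. -/
def cmp_ev (τ : (Fin 3 ⊕ Fin 4 → Bool) → Gad) : Set (KK → Bool) :=
  {ω | Esc (update (Γ ω) y (τ fun k => ω (y, k))) d n}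

variable {Γ} (hΓ : ∀ ω ω' x, (∀ k, ω (x, k) = ω' (x, k)) → Γ ω x = Γ ω' x)
include hΓ

lemma cmp_loc (τ : (Fin 3 ⊕ Fin 4 → Bool) → Gad) : Loc (cmp_ev d n y Γ τ) := by
  refine Loc.of_finite (S := Q n ×ˢ Set.univ) ?_ ((cmp_Qfin n).prod Set.finite_univ)
  intro ω ω' h e
  refine cmp_congr (fun x hx => ?_) e
  have h1 : ∀ k, ω (x, k) = ω' (x, k) := fun k => h _ ⟨hx, trivial⟩
  by_cases hxy : x = y
  · subst hxy
    rw [update_self, update_self, funext h1]
  · rw [update_of_ne hxy, update_of_ne hxy, hΓ _ _ _ h1]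

lemma cmp_sec (τ : (Fin 3 ⊕ Fin 4 → Bool) → Gad) (k : Fin 3 ⊕ Fin 4) (b : Bool) :
    sec (cmp_ev d n y Γ τ) (y, k) b = cmp_ev d n y Γ (fun β => τ (update β k b)) := by
  ext ω
  have h1 : update (Γ (update ω (y, k) b)) y (τ fun j => update ω (y, k) b (y, j)) =
      update (Γ ω) y (τ (update (fun j => ω (y, j)) k b)) := by
    funext x
    by_cases hxy : x = y
    · subst hxy
      rw [update_self, update_self]
      congr 1
      funext j
      by_cases hj : j = k
      · subst hj; rw [update_self, update_self]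
      · rw [update_of_ne hj, update_of_ne (fun h => hj (Prod.mk.inj h).2)]
    · rw [update_of_ne hxy, update_of_ne hxy]
      exact hΓ _ _ _ (fun j => update_of_ne (fun h => hxy (Prod.mk.inj h).1) _ _)
  simp only [sec, cmp_ev, Set.mem_setOf_eq, h1]

lemma cmp_split (τ : (Fin 3 ⊕ Fin 4 → Bool) → Gad) (k : Fin 3 ⊕ Fin 4) :
    pp (parK θ) (cmp_ev d n y Γ τ) =
      parK θ (y, k) * pp (parK θ) (cmp_ev d n y Γ fun β => τ (update β k true)) +
        (1 - parK θ (y, k)) * pp (parK θ) (cmp_ev d n y Γ fun β => τ (update β k false)) := by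
  rw [pp_split (parK θ) (cmp_loc d n y hΓ τ) (y, k), cmp_sec d n y hΓ, cmp_sec d n y hΓ]

lemma cmp_ite (k : Fin 3 ⊕ Fin 4) (σ : Bool → (Fin 3 ⊕ Fin 4 → Bool) → Gad)
    (hσ : ∀ b c β, σ b (update β k c) = σ b β) :
    pp (parK θ) (cmp_ev d n y Γ fun β => σ (β k) β) =
      parK θ (y, k) * pp (parK θ) (cmp_ev d n y Γ (σ true)) +
        (1 - parK θ (y, k)) * pp (parK θ) (cmp_ev d n y Γ (σ false)) := by
  rw [cmp_split θ d n y hΓ _ k]
  simp only [update_self, hσ]

lemma cmp_left : pp (parK θ) (cmp_ev d n y Γ fun β =>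
      orig ((if β (Sum.inl 0) then (if β (Sum.inl 1) then 0 else 2)
        else (if β (Sum.inl 1) then 1 else 3)) + 1)) =
    (1 - θ) / 2 * pp (parK θ) (cmp_ev d n y Γ fun _ => orig 0) +
      θ / 2 * pp (parK θ) (cmp_ev d n y Γ fun _ => orig 1) +
      (1 - θ) / 2 * pp (parK θ) (cmp_ev d n y Γ fun _ => orig 2) +
      θ / 2 * pp (parK θ) (cmp_ev d n y Γ fun _ => orig 3) := by
  have e01 : (Sum.inl 1 : Fin 3 ⊕ Fin 4) ≠ Sum.inl 0 := by decide
  rw [cmp_split θ d n y hΓ _ (Sum.inl 0)]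
  simp only [update_self, update_of_ne e01, if_true, Bool.false_eq_true, if_false]
  rw [cmp_split θ d n y hΓ (fun β => orig ((if β (Sum.inl 1) = true then 0 else 2) + 1))
      (Sum.inl 1),
    cmp_split θ d n y hΓ (fun β => orig ((if β (Sum.inl 1) = true then 1 else 3) + 1))
      (Sum.inl 1)]
  simp only [update_self, if_true, Bool.false_eq_true, if_false]
  have p0 : (parK θ (y, Sum.inl 0) : ℝ) = θ := by simp [parK]
  have p1 : (parK θ (y, Sum.inl 1) : ℝ) = 1 / 2 := by simp [parK, hf]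
  have c0 : ((0 : Fin 4) + 1) = 1 := by decide
  have c1 : ((1 : Fin 4) + 1) = 2 := by decide
  have c2 : ((2 : Fin 4) + 1) = 3 := by decide
  have c3 : ((3 : Fin 4) + 1) = 0 := by decide
  rw [p0, p1, c0, c1, c2, c3]
  ring

lemma cmp_bit (i : Fin 4) (f : Bool → (Fin 3 ⊕ Fin 4 → Bool) → Gad)
    (hf' : ∀ b c β, f b (update β (Sum.inr i) c) = f b β) :
    pp (parK θ) (cmp_ev d n y Γ fun β => f (β (Sum.inr i)) β) =
      ∑ b : Bool, (if i = 0 ∨ i = 2 then (if b then (θ : ℝ) else 1 - θ)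
        else (if b then 1 - (θ : ℝ) else θ)) * pp (parK θ) (cmp_ev d n y Γ (f b)) := by
  rw [cmp_ite θ d n y hΓ (Sum.inr i) f hf', Fintype.sum_bool]
  by_cases hi : i = 0 ∨ i = 2
  · simp [parK, hi]
  · simp [parK, hi]

lemma cmp_right : pp (parK θ) (cmp_ev d n y Γ fun β =>
      if β (Sum.inl 2) then allG else clo (fun c => β (Sum.inr c))) =
    1 / 2 * pp (parK θ) (cmp_ev d n y Γ fun _ => allG) +
      (∑ s, cmp_w θ s * pp (parK θ) (cmp_ev d n y Γ fun _ => clo (cmp_eta s))) / 2 := by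
  rw [cmp_split θ d n y hΓ _ (Sum.inl 2)]
  have e2 : ∀ c : Fin 4, (Sum.inr c : Fin 3 ⊕ Fin 4) ≠ Sum.inl 2 := fun c => by simp
  simp only [update_self, update_of_ne (e2 _), if_true, Bool.false_eq_true, if_false]
  have p2 : (parK θ (y, Sum.inl 2) : ℝ) = 1 / 2 := by simp [parK, hf]
  have hη : (fun β : Fin 3 ⊕ Fin 4 → Bool => clo (fun c => β (Sum.inr c))) = fun β =>
      clo (cmp_eta (β (Sum.inr 0), β (Sum.inr 1), β (Sum.inr 2), β (Sum.inr 3))) := by
    funext β
    congr 1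
    funext c
    fin_cases c <;> simp [cmp_eta]
  have s0 := cmp_bit θ d n y hΓ 0
    (fun a β => clo (cmp_eta (a, β (Sum.inr 1), β (Sum.inr 2), β (Sum.inr 3))))
    (fun b c β => by simp)
  have s1 := fun a => cmp_bit θ d n y hΓ 1
    (fun b β => clo (cmp_eta (a, b, β (Sum.inr 2), β (Sum.inr 3)))) (fun b c β => by simp)
  have s2 := fun a b => cmp_bit θ d n y hΓ 2
    (fun c β => clo (cmp_eta (a, b, c, β (Sum.inr 3)))) (fun b c β => by simp)
  have s3 := fun a b c => cmp_bit θ d n y hΓ 3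
    (fun e β => clo (cmp_eta (a, b, c, e))) (fun b c β => rfl)
  rw [p2, hη, s0]
  simp only [s1, s2, s3]
  simp only [Fintype.sum_prod_type, Fintype.sum_bool, cmp_w]
  simp
  ring

lemma cmp_step (hy : y ≠ 0) :
    pp (parK θ) {ω | Esc (update (Γ ω) y (orig (rot ω y + 1))) d n} ≤
      pp (parK θ) {ω | Esc (update (Γ ω) y (tgt ω y)) d n} := by
  classical
  have h1 := cmp_left θ d n y hΓ
  have h2 := cmp_right θ d n y hΓ
  have h3 := cmp_lin (parK θ) (fun b : cmp_I => cmp_ev d n y Γ fun _ => cmp_g b)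
    (fun b => cmp_loc d n y hΓ _) (cmp_c θ) (fun ω => by
      have := cmp_pt θ.2.1 θ.2.2 (fun g => Esc (update (Γ ω) y g) d n)
        (fun g g' hg e => Esc.mono (fun x k hk => by
          by_cases hxy : x = y
          · subst hxy
            rw [update_self] at hk ⊢
            exact hg k hk
          · rw [update_of_ne hxy] at hk ⊢
            exact hk) e) (tri (Γ ω) d n hy)
      exact this)
  rw [cmp_sum θ (fun g => pp (parK θ) (cmp_ev d n y Γ fun _ => g))] at h3
  have h4 : pp (parK θ) {ω | Esc (update (Γ ω) y (orig (rot ω y + 1))) d n} = _ := h1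
  have h5 : pp (parK θ) {ω | Esc (update (Γ ω) y (tgt ω y)) d n} = _ := h2
  rw [h4, h5]
  linarith

end step

/-- Hybrid of the two models. -/
def cmp_hyb (G : Finset V) (ω : KK → Bool) : V → Gad := fun x =>
  if x ∈ G then gM ω x else gO (rot ω) x

lemma cmp_hyb_loc (G : Finset V) (ω ω' : KK → Bool) (x : V) (h : ∀ k, ω (x, k) = ω' (x, k)) :
    cmp_hyb G ω x = cmp_hyb G ω' x := by
  simp only [cmp_hyb, gM, gO, rot, tgt, h]

lemma cmp_hyb_le (θ : unitInterval) (d : Fin 4) (n : ℕ) (G : Finset V) :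
    pp (parK θ) {ω | Esc (gO (rot ω)) d n} ≤ pp (parK θ) {ω | Esc (cmp_hyb G ω) d n} := by
  induction G using Finset.induction_on with
  | empty =>
    have : ∀ ω, cmp_hyb ∅ ω = gO (rot ω) := fun ω => by funext x; simp [cmp_hyb]
    simp only [this, le_refl]
  | insert y G hyG ih =>
    refine ih.trans ?_
    by_cases hy : y = 0
    · refine pp_mono _ (fun ω e => Esc.mono (fun x k hk => ?_) e)
      by_cases hxy : x = y
      · subst hxy
        simp [cmp_hyb, gM, hy, allG]
      · simpa [cmp_hyb, hxy] using hk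
    · have e1 : ∀ ω, cmp_hyb G ω = update (cmp_hyb G ω) y (orig (rot ω y + 1)) := by
        intro ω
        funext x
        by_cases hxy : x = y
        · subst hxy
          rw [update_self]; simp [cmp_hyb, hyG, gO]
        · rw [update_of_ne hxy]
      have e2 : ∀ ω, cmp_hyb (insert y G) ω = update (cmp_hyb G ω) y (tgt ω y) := by
        intro ω
        funext x
        by_cases hxy : x = y
        · subst hxy
          rw [update_self]; simp [cmp_hyb, gM, hy]
        · rw [update_of_ne hxy]; simp [cmp_hyb, hxy]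
      have h := cmp_step θ d n y (cmp_hyb_loc G) hy
      simp only [← e1, ← e2] at h
      exact h

/-- The rotor model escapes less often than the comparison model. -/
theorem cmp (θ : unitInterval) (d : Fin 4) (n : ℕ) :
    pp (parK θ) {ω | Esc (gO (rot ω)) d n} ≤ pp (parK θ) {ω | Esc (gM ω) d n} := by
  refine (cmp_hyb_le θ d n (cmp_Qfin n).toFinset).trans (pp_mono _ (fun ω e => ?_))
  refine cmp_congr (fun x hx => ?_) e
  simp [cmp_hyb, hx]

end Pool.Agent.FS.RotorSym
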