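import Pool.Agent.FS.RotorSym.Sym

set_option autoImplicit false
set_option linter.unusedSectionVars false
set_option linter.deprecated false
set_option linter.unusedVariables false

namespace Pool.Agent.FS.RotorSym

open Pool.Agent.Lib.MP_9d2e01_pr MeasureTheory Function

lemma cnt_memQ {n : ℕ} {x : V} :
    x ∈ Q n ↔ -(n : ℤ) ≤ x.1 ∧ x.1 ≤ n ∧ -(n : ℤ) ≤ x.2 ∧ x.2 ≤ n := Iff.rfl

lemma cnt_Qfin (n : ℕ) : (Q n).Finite := Rect.finite _ _ _ _

lemma cnt_exit {k n : ℕ} (hk : k ≤ n + 1) {ω : JJ → Bool} (h : ω ∈ Out k (n + 1)) :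
    ∃ w ∈ Cn k n ω, ∃ w', w' ∉ Q (n + 1) ∧ |w'.1 - w.1| ≤ 1 ∧ |w'.2 - w.2| ≤ 1 ∧
      ω (w', 0) = true := by
  obtain ⟨a, ha, b, hb, haR, hao, hp⟩ := h
  have ha' : a ∈ Q (n + 1) := by
    rw [cnt_memQ] at ha ⊢
    push_cast
    omega
  obtain ⟨w, w', h1, h2, h3, h4⟩ := rtg_exit hp ha' hb
  have hn := h4.2.2.2.2.near
  refine ⟨w, ⟨?_, a, ha, w, rfl, ha', hao, ?_⟩, w', h3, hn.1, hn.2, h4.2.2.2.1⟩
  · intro hw
    apply h3
    rw [cnt_memQ] at hw ⊢
    have e1 := abs_le.mp hn.1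
    have e2 := abs_le.mp hn.2
    push_cast
    omega
  · exact rtg_mono (fun p q hpq => ⟨hpq.2.1, hpq.2.2, hpq.1.2.2⟩) h1

lemma cnt_anti {k n : ℕ} (hk : k ≤ n + 1) : Out k (n + 1) ⊆ Out k n := by
  intro ω h
  obtain ⟨w, hw, -⟩ := cnt_exit hk h
  exact arm_mono subset_rfl (Set.singleton_subset_iff.mpr hw.1) subset_rfl hw.2

lemma cnt_sub (k n : ℕ) (ω : JJ → Bool) : Cn k n ω ⊆ Q (n + 1) := by
  rintro b ⟨-, a, -, b', hb', haR, -, hp⟩
  rw [Set.mem_singleton_iff] at hb'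
  subst hb'
  induction hp with
  | refl => exact haR
  | tail _ hs _ => exact hs.2.1

/-- The coordinates read by paths in `Q (n + 1)`. -/
def cntD (n : ℕ) : Set JJ :=
  {k | (k.2 ≠ 2 ∧ k.1 ∈ Q (n + 1)) ∨ (k.2 = 2 ∧ k.1 + (1, 0) ∈ Q (n + 1))}

lemma cntD_fin (n : ℕ) : (cntD n).Finite := by
  refine ((cnt_Qfin (n + 2)).prod (Set.finite_univ (α := Fin 3))).subset ?_
  rintro ⟨x, i⟩ h
  refine ⟨?_, Set.mem_univ _⟩
  rcases h with ⟨-, h⟩ | ⟨-, h⟩
  · rw [cnt_memQ] at h ⊢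
    push_cast at h ⊢
    omega
  · rw [cnt_memQ] at h ⊢
    simp only [Prod.fst_add, Prod.snd_add] at h
    push_cast at h ⊢
    omega

lemma cnt_congr (k n : ℕ) {ω ω' : JJ → Bool} (h : ∀ i ∈ cntD n, ω i = ω' i) :
    Cn k n ω = Cn k n ω' := by
  ext b
  constructor
  · rintro ⟨h1, h2⟩
    exact ⟨h1, arm_dep _ _ _ ω ω' h h2⟩
  · rintro ⟨h1, h2⟩
    exact ⟨h1, arm_dep _ _ _ ω' ω (fun i hi => (h i hi).symm) h2⟩

lemma cnt_step (θ : unitInterval) {k n : ℕ} (m : ℕ) (hk : k ≤ n + 1) :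
    (1 / 2 : ℝ) ^ (9 * m) * pp (parJ θ) {ω | ω ∈ Out k n ∧ (Cn k n ω).ncard < m} +
      pp (parJ θ) (Out k (n + 1)) ≤ pp (parJ θ) (Out k n) := by
  classical
  have lB : Loc (Out k (n + 1)) := arm_loc _ _ (cnt_Qfin _)
  have hA : Dep {ω | ω ∈ Out k n ∧ (Cn k n ω).ncard < m}
      (((cntD_fin n).toFinset : Finset JJ) : Set JJ) := by
    rw [Set.Finite.coe_toFinset]
    rintro ω ω' h ⟨h1, h2⟩
    exact ⟨arm_dep _ _ _ ω ω' h h1, by rw [← cnt_congr k n h]; exact h2⟩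
  have h1 := pp_cond (parJ θ) (cntD_fin n).toFinset hA lB.compl (c := (1 / 2 : ℝ) ^ (9 * m)) (by
    rintro ξ ⟨-, hξ⟩
    have hfin : (Cn k n ξ).Finite := (cnt_Qfin (n + 1)).subset (cnt_sub k n ξ)
    have hcard : hfin.toFinset.card < m := by rwa [← Set.ncard_eq_toFinset_card _ hfin]
    let G : Finset V := hfin.toFinset.biUnion
      (fun b => Finset.Icc (b.1 - 1) (b.1 + 1) ×ˢ Finset.Icc (b.2 - 1) (b.2 + 1))
    let F : Finset JJ := (G.filter (fun x => x ∉ Q (n + 1))).image (fun x => (x, (0 : Fin 3)))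
    have hG : G.card ≤ hfin.toFinset.card * 9 := by
      refine Finset.card_biUnion_le_card_mul _ _ 9 (fun b _ => ?_)
      rw [Finset.card_product, Int.card_Icc, Int.card_Icc]
      have e1 : (b.1 + 1 + 1 - (b.1 - 1)).toNat = 3 := by omega
      have e2 : (b.2 + 1 + 1 - (b.2 - 1)).toNat = 3 := by omega
      rw [e1, e2]
    have hF : F.card ≤ 9 * m :=
      (Finset.card_image_le.trans (Finset.card_filter_le _ _)).trans (by omega)
    have hall := pp_all (parJ θ) F (by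
      intro i hi
      obtain ⟨x, -, rfl⟩ := Finset.mem_image.mp hi
      simp [parJ]) false
    refine le_trans ?_ (pp_mono (parJ θ) (A := {ω | ∀ i ∈ F, ω i = false}) ?_)
    · rw [hall]
      exact pow_le_pow_of_le_one (by norm_num) (by norm_num) hF
    · intro ω hω hout
      obtain ⟨w, hw, w', h3, e1, e2, ho⟩ := cnt_exit hk hout
      rw [← cnt_congr k n (ω := ξ) (fun i hi =>
        (Finset.piecewise_eq_of_mem _ _ _ ((cntD_fin n).mem_toFinset.mpr hi)).symm)] at hw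
      have hS : (w', (0 : Fin 3)) ∉ (cntD_fin n).toFinset := by
        rw [Set.Finite.mem_toFinset]
        rintro (⟨-, h⟩ | ⟨h, -⟩)
        · exact h3 h
        · exact absurd (show (0 : Fin 3) = 2 from h) (by decide)
      rw [Finset.piecewise_eq_of_notMem _ _ _ hS] at ho
      have hmem : (w', (0 : Fin 3)) ∈ F := by
        refine Finset.mem_image.mpr ⟨w', Finset.mem_filter.mpr ⟨?_, h3⟩, rfl⟩
        refine Finset.mem_biUnion.mpr ⟨w, hfin.mem_toFinset.mpr hw, ?_⟩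
        have e1 := abs_le.mp e1
        have e2 := abs_le.mp e2
        simp only [Finset.mem_product, Finset.mem_Icc]
        omega
      rw [hω _ hmem] at ho
      exact absurd ho (by decide))
  have h2 := pp_union_add_inter (parJ θ)
    ({ω | ω ∈ Out k n ∧ (Cn k n ω).ncard < m} ∩ (Out k (n + 1))ᶜ) lB
  have h3 : pp (parJ θ) (({ω | ω ∈ Out k n ∧ (Cn k n ω).ncard < m} ∩ (Out k (n + 1))ᶜ) ∪
      Out k (n + 1)) ≤ pp (parJ θ) (Out k n) :=
    pp_mono _ (Set.union_subset (fun ω hω => hω.1.1) (cnt_anti hk))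
  have h4 : pp (parJ θ) (({ω | ω ∈ Out k n ∧ (Cn k n ω).ncard < m} ∩ (Out k (n + 1))ᶜ) ∩
      Out k (n + 1)) ≤ 0 := by
    rw [← pp_empty (parJ θ)]
    exact pp_mono _ (fun ω hω => hω.1.2 hω.2)
  linarith

theorem con (θ : unitInterval) (k m N : ℕ) {δ : ℝ} (hδ : 0 < δ) :
    ∃ n, N ≤ n ∧ pp (parJ θ) {ω | ω ∈ Out k n ∧ (Cn k n ω).ncard < m} ≤ δ := by
  by_contra hcon
  push Not at hcon
  have hc : 0 < (1 / 2 : ℝ) ^ (9 * m) := by positivity
  have key : ∀ j : ℕ, pp (parJ θ) (Out k (N + k + j)) + j * ((1 / 2 : ℝ) ^ (9 * m) * δ) ≤ 1 := by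
    intro j
    induction j with
    | zero => simpa using pp_le_one (parJ θ) _
    | succ j ih =>
      have h1 := cnt_step θ (k := k) (n := N + k + j) m (by omega)
      have h2 := mul_le_mul_of_nonneg_left (hcon (N + k + j) (by omega)).le hc.le
      have e : N + k + (j + 1) = N + k + j + 1 := rfl
      rw [e]
      push_cast
      linarith
  obtain ⟨j, hj⟩ := exists_nat_gt (1 / ((1 / 2 : ℝ) ^ (9 * m) * δ))
  have h1 := key j
  have h2 := pp_nonneg (parJ θ) (Out k (N + k + j))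
  rw [div_lt_iff₀ (mul_pos hc hδ)] at hj
  linarith

end Pool.Agent.FS.RotorSym
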