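import Pool.Agent.Lib.MP_9d2e01_pr.Prob
import Pool.Agent.Lib.MP_9d2e01_pr.Dual
import Pool.Agent.Lib.MP_9d2e01_pr.Rotor

set_option autoImplicit false
set_option linter.unusedSectionVars false
set_option linter.deprecated false
set_option linter.unusedVariables false

namespace Pool.Agent.FS.RotorSym

open Pool.Agent.Lib.MP_9d2e01_pr MeasureTheory Function

/-- Bernoulli law. -/
noncomputable def ber (p : unitInterval) : Measure Bool :=
  ENNReal.ofReal p • Measure.dirac true + ENNReal.ofReal (1 - p) • Measure.dirac false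

instance berProb (p : unitInterval) : IsProbabilityMeasure (ber p) := by
  constructor
  simp only [ber, Measure.coe_add, Measure.coe_smul, Pi.add_apply, Pi.smul_apply, measure_univ,
    smul_eq_mul, mul_one]
  rw [← ENNReal.ofReal_add p.2.1 (sub_nonneg.2 p.2.2)]
  simp

/-- Product of Bernoulli laws. -/
noncomputable def mup {ι : Type} (p : ι → unitInterval) : Measure (ι → Bool) :=
  Measure.infinitePi (fun i => ber (p i))

instance mupProb {ι : Type} (p : ι → unitInterval) : IsProbabilityMeasure (mup p) := by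
  unfold mup; infer_instance

/-- Real valued probability. -/
noncomputable def pp {ι : Type} (p : ι → unitInterval) (A : Set (ι → Bool)) : ℝ := (mup p).real A

/-- One half. -/
noncomputable def hf : unitInterval := ⟨1 / 2, by norm_num, by norm_num⟩

/-- Centred square. -/
def Q (n : ℕ) : Set V := Rect (-(n : ℤ)) n (-(n : ℤ)) n

/-- Lanes: `(y, d, true)` leaves `y` in direction `d`, `(y, d, false)` enters `y` from there. -/
abbrev Node := V × Fin 4 × Bool

/-- State of a roundabout: `(d, true)` is the arc passing arm `d`, `(d, false)` the corner arc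
from arm `d` to arm `d + 3`. -/
abbrev Gad := Fin 4 × Bool → Bool

/-- Arcs between lanes. -/
def Arc (γ : V → Gad) (u v : Node) : Prop :=
  (u.2.2 = true ∧ v = (u.1 + dir u.2.1, u.2.1 + 2, false)) ∨
    (u.2.2 = true ∧ v = (u.1, u.2.1, false) ∧ γ u.1 (u.2.1, true) = true) ∨
    (u.2.2 = false ∧ v = (u.1, u.2.1 + 3, true) ∧ γ u.1 (u.2.1, false) = true)

/-- Escape from the square `Q n`, starting on the lane that leaves the origin in direction `d`. -/
def Esc (γ : V → Gad) (d : Fin 4) (n : ℕ) : Prop :=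
  ∃ v : Node, v.1 ∉ Q n ∧
    Relation.ReflTransGen (fun u v => u.1 ∈ Q n ∧ Arc γ u v) ((0 : V), d, true) v

/-- All arcs except the corner arc `m`. -/
def orig (m : Fin 4) : Gad := fun k => k.2 || decide (k.1 ≠ m)

/-- Only the corner arcs named by `η`. -/
def clo (η : Fin 4 → Bool) : Gad := fun k => !k.2 && η k.1

/-- All arcs. -/
def allG : Gad := fun _ => true

/-- Roundabouts of a rotor configuration. -/
def gO (ρ : V → Fin 4) : V → Gad := fun y => orig (ρ y + 1)

/-- All lane clusters are finite. -/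
def AllFinN (ρ : V → Fin 4) : Prop :=
  ∀ u : Node, {v | Relation.ReflTransGen (Arc (gO ρ)) u v}.Finite

/-- Undirected adjacency of lanes. -/
def UAdj (u v : Node) : Prop := Arc (fun _ => allG) u v ∨ Arc (fun _ => allG) v u

/-- Undirected connection inside `S`. -/
def UConn (S : Set Node) : Node → Node → Prop :=
  Relation.ReflTransGen (fun u v => u ∈ S ∧ v ∈ S ∧ UAdj u v)

/-- Bits at a site: type, sign, open; four corner bits. -/
abbrev KK := V × (Fin 3 ⊕ Fin 4)

/-- Parameters of the bits. -/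
noncomputable def parK (θ : unitInterval) : KK → unitInterval := fun k =>
  match k.2 with
  | Sum.inl i => if i = 0 then θ else hf
  | Sum.inr d => if d = 0 ∨ d = 2 then θ else unitInterval.symm θ

/-- The rotor read from two bits. -/
def rot (ω : KK → Bool) (y : V) : Fin 4 :=
  if ω (y, Sum.inl 0) then (if ω (y, Sum.inl 1) then 0 else 2)
  else (if ω (y, Sum.inl 1) then 1 else 3)

/-- The comparison roundabout. -/
def tgt (ω : KK → Bool) (y : V) : Gad :=
  if ω (y, Sum.inl 2) then allG else clo (fun d => ω (y, Sum.inr d))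

/-- Comparison model, origin open. -/
def gM (ω : KK → Bool) : V → Gad := fun y => if y = 0 then allG else tgt ω y

/-- Directed site step. -/
def DStp (ω : KK → Bool) (R : Set V) (x z : V) : Prop :=
  x ∈ R ∧ z ∈ R ∧ ω (x, Sum.inl 2) = true ∧ ω (z, Sum.inl 2) = true ∧
    (nb x z ∨ ∃ y d, x = y + dir d ∧ z = y + dir (d + 3) ∧ ω (y, Sum.inr d) = true)

/-- Directed arm from `Q 1` out of `Q n`. -/
def DOut (n : ℕ) : Set (KK → Bool) :=
  {ω | ∃ a ∈ Q 1, ∃ b ∉ Q n, ω (a, Sum.inl 2) = true ∧
    Relation.ReflTransGen (DStp ω (Q (n + 1))) a b}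

/-- Bits of the site model: site, rising diagonal, falling diagonal of the face above right. -/
abbrev JJ := V × Fin 3

/-- Parameters of the site model. -/
noncomputable def parJ (θ : unitInterval) : JJ → unitInterval := fun k =>
  if k.2 = 0 then hf else if k.2 = 1 then θ else unitInterval.symm θ

/-- Adjacency in the site model. -/
def adj (ω : JJ → Bool) (x z : V) : Prop :=
  nb x z ∨ (z = x + (1, 1) ∧ ω (x, 1) = true) ∨ (x = z + (1, 1) ∧ ω (z, 1) = true) ∨
    (z = x + (-1, 1) ∧ ω (x + (-1, 0), 2) = true) ∨ (x = z + (-1, 1) ∧ ω (z + (-1, 0), 2) = true)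

/-- Open step inside `R`. -/
def SStp (ω : JJ → Bool) (R : Set V) (x z : V) : Prop :=
  x ∈ R ∧ z ∈ R ∧ ω (x, 0) = true ∧ ω (z, 0) = true ∧ adj ω x z

/-- Open path from `A` to `B` inside `R`. -/
def Arm (A B R : Set V) : Set (JJ → Bool) :=
  {ω | ∃ a ∈ A, ∃ b ∈ B, a ∈ R ∧ ω (a, 0) = true ∧ Relation.ReflTransGen (SStp ω R) a b}

/-- Arm from `Q k` out of `Q n`. -/
def Out (k n : ℕ) : Set (JJ → Bool) := Arm (Q k) (Q n)ᶜ (Q (n + 1))

/-- Contact points on the boundary of `Q (n + 1)`. -/
def Cn (k n : ℕ) (ω : JJ → Bool) : Set V :=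
  {b | b ∉ Q n ∧ ω ∈ Arm (Q k) {b} (Q (n + 1))}

/-- Contact points on the right side. -/
def Rn (k n : ℕ) (ω : JJ → Bool) : Set V := {b | b ∈ Cn k n ω ∧ b.1 = n + 1}

/-- Arm to the right, in a square prolonged by `L`. -/
def RArm (k N L : ℕ) : Set (JJ → Bool) :=
  Arm (Q k) {x | x.1 = N + L} (Rect (-(N : ℤ)) (N + L) (-(N : ℤ)) N)

/-- Dual configuration. -/
def duJ (ω : JJ → Bool) : JJ → Bool := fun k =>
  !ω (k.1, if k.2 = 0 then 0 else if k.2 = 1 then 2 else 1)

/-- A lattice symmetry `g` with its action `T` on configurations. -/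
structure IsSym (θ : unitInterval) (g : V → V) (T : (JJ → Bool) → JJ → Bool) : Prop where
  bij : Bijective g
  meas : ∀ A, Loc A → pp (parJ θ) {ω | T ω ∈ A} = pp (parJ θ) A
  op : ∀ ω x, T ω (x, 0) = ω (g x, 0)
  ad : ∀ ω x z, adj (T ω) x z ↔ adj ω (g x) (g z)

end Pool.Agent.FS.RotorSym
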