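import Pool.Agent.FS.RotorSym.Defs

set_option autoImplicit false
set_option linter.unusedSectionVars false
set_option linter.deprecated false
set_option linter.unusedVariables false

namespace Pool.Agent.FS.RotorSym

open Pool.Agent.Lib.MP_9d2e01_pr MeasureTheory Function

/-- Open cells of the lattice refined three times. -/
def excCell (ω : JJ → Bool) : Set V :=
  {u | (∃ x : V, ω (x, 0) = true ∧ ((3 * x.1 - 1 ≤ u.1 ∧ u.1 ≤ 3 * x.1 + 1 ∧ u.2 = 3 * x.2) ∨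
      (u.1 = 3 * x.1 ∧ 3 * x.2 - 1 ≤ u.2 ∧ u.2 ≤ 3 * x.2 + 1))) ∨
    ∃ f : V, (3 * f.1 < u.1 ∧ u.1 < 3 * f.1 + 3 ∧ 3 * f.2 < u.2 ∧ u.2 < 3 * f.2 + 3) ∧
      ((ω (f, 0) = true ∧ ω (f, 1) = true) ∨ (ω (f + (1, 0), 0) = true ∧ ω (f, 2) = true))}

lemma exc_du0 (ω : JJ → Bool) (x : V) : duJ ω (x, 0) = !ω (x, 0) := rfl

lemma exc_du1 (ω : JJ → Bool) (x : V) : duJ ω (x, 1) = !ω (x, 2) := rfl

lemma exc_du2 (ω : JJ → Bool) (x : V) : duJ ω (x, 2) = !ω (x, 1) := rfl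

lemma exc_disj {ω : JJ → Bool} {u : V} (h : u ∈ excCell ω) (h' : u ∈ excCell (duJ ω)) : False := by
  rcases h with ⟨x, hx, h1⟩ | ⟨f, h1, hf⟩ <;> rcases h' with ⟨y, hy, h2⟩ | ⟨g, h2, hg⟩
  · obtain rfl : x = y := Prod.ext (by omega) (by omega)
    rw [exc_du0, hx] at hy
    exact absurd hy (by decide)
  · omega
  · omega
  · obtain rfl : f = g := Prod.ext (by omega) (by omega)
    rw [exc_du0, exc_du0, exc_du1, exc_du2] at hg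
    rcases hf with ⟨a, b⟩ | ⟨a, b⟩ <;> rcases hg with ⟨c, d⟩ | ⟨c, d⟩ <;> simp_all

section

variable {ω : JJ → Bool} {x0 x1 y0 y1 : ℤ}

lemma exc_site {x : V} (hx : ω (x, 0) = true) (a b : ℤ)
    (h : ((3 * x.1 - 1 ≤ a ∧ a ≤ 3 * x.1 + 1 ∧ b = 3 * x.2) ∨
      (a = 3 * x.1 ∧ 3 * x.2 - 1 ≤ b ∧ b ≤ 3 * x.2 + 1)) ∧
      3 * x0 ≤ a ∧ a ≤ 3 * x1 ∧ 3 * y0 ≤ b ∧ b ≤ 3 * y1) :
    ((a, b) : V) ∈ excCell ω ∩ Rect (3 * x0) (3 * x1) (3 * y0) (3 * y1) :=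
  ⟨Or.inl ⟨x, hx, h.1⟩, h.2⟩

lemma exc_face {f : V}
    (hf : (ω (f, 0) = true ∧ ω (f, 1) = true) ∨ (ω (f + (1, 0), 0) = true ∧ ω (f, 2) = true))
    (a b : ℤ) (h : (3 * f.1 < a ∧ a < 3 * f.1 + 3 ∧ 3 * f.2 < b ∧ b < 3 * f.2 + 3) ∧
      3 * x0 ≤ a ∧ a ≤ 3 * x1 ∧ 3 * y0 ≤ b ∧ b ≤ 3 * y1) :
    ((a, b) : V) ∈ excCell ω ∩ Rect (3 * x0) (3 * x1) (3 * y0) (3 * y1) :=
  ⟨Or.inr ⟨f, h.1, hf⟩, h.2⟩

lemma exc_zero {S : Set V} {p : V} (h : p ∈ S) : Conn Set.univ S p p ∧ p ∈ S :=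
  ⟨Conn.refl _ _ _, h⟩

lemma exc_go {S : Set V} {p : V} {a b : ℤ} (h : Conn Set.univ S p (a, b) ∧ ((a, b) : V) ∈ S)
    {c d : ℤ} (hc : ((c, d) : V) ∈ S)
    (hn : (c = a + 1 ∧ d = b) ∨ (c = a - 1 ∧ d = b) ∨ (c = a ∧ d = b + 1) ∨ (c = a ∧ d = b - 1)) :
    Conn Set.univ S p (c, d) ∧ ((c, d) : V) ∈ S :=
  ⟨h.1.tail hn h.2 hc trivial, hc⟩

lemma exc_nb {x z : V} (hx : x ∈ Rect x0 x1 y0 y1) (hz : z ∈ Rect x0 x1 y0 y1)
    (ox : ω (x, 0) = true) (oz : ω (z, 0) = true) (h : nb x z) :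
    Conn Set.univ (excCell ω ∩ Rect (3 * x0) (3 * x1) (3 * y0) (3 * y1)) (3 * x.1, 3 * x.2)
      (3 * z.1, 3 * z.2) := by
  obtain ⟨a1, a2, a3, a4⟩ := hx
  obtain ⟨b1, b2, b3, b4⟩ := hz
  unfold nb at h
  have s0 := exc_zero (exc_site (x0 := x0) (x1 := x1) (y0 := y0)
    (y1 := y1) ox (3 * x.1) (3 * x.2) (by omega))
  have s1 := exc_go s0 (exc_site ox (2 * x.1 + z.1) (2 * x.2 + z.2) (by omega)) (by omega)
  have s2 := exc_go s1 (exc_site oz (x.1 + 2 * z.1) (x.2 + 2 * z.2) (by omega)) (by omega)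
  exact (exc_go s2 (exc_site oz (3 * z.1) (3 * z.2) (by omega)) (by omega)).1

lemma exc_up {x z : V} (hx : x ∈ Rect x0 x1 y0 y1) (hz : z ∈ Rect x0 x1 y0 y1)
    (ox : ω (x, 0) = true) (oz : ω (z, 0) = true) (h : z = x + (1, 1)) (hb : ω (x, 1) = true) :
    Conn Set.univ (excCell ω ∩ Rect (3 * x0) (3 * x1) (3 * y0) (3 * y1)) (3 * x.1, 3 * x.2)
      (3 * z.1, 3 * z.2) := by
  obtain ⟨a1, a2, a3, a4⟩ := hx
  obtain ⟨b1, b2, b3, b4⟩ := hz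
  have e1 : z.1 = x.1 + 1 := by rw [h]; rfl
  have e2 : z.2 = x.2 + 1 := by rw [h]; rfl
  have hf : (ω (x, 0) = true ∧ ω (x, 1) = true) ∨ (ω (x + (1, 0), 0) = true ∧ ω (x, 2) = true) :=
    Or.inl ⟨ox, hb⟩
  have s0 := exc_zero (exc_site (x0 := x0) (x1 := x1) (y0 := y0)
    (y1 := y1) ox (3 * x.1) (3 * x.2) (by omega))
  have s1 := exc_go s0 (exc_site ox (3 * x.1 + 1) (3 * x.2) (by omega)) (by omega)
  have s2 := exc_go s1 (exc_face hf (3 * x.1 + 1) (3 * x.2 + 1) (by omega)) (by omega)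
  have s3 := exc_go s2 (exc_face hf (3 * x.1 + 1) (3 * x.2 + 2) (by omega)) (by omega)
  have s4 := exc_go s3 (exc_face hf (3 * x.1 + 2) (3 * x.2 + 2) (by omega)) (by omega)
  have s5 := exc_go s4 (exc_site oz (3 * x.1 + 2) (3 * x.2 + 3) (by omega)) (by omega)
  exact (exc_go s5 (exc_site oz (3 * z.1) (3 * z.2) (by omega)) (by omega)).1

lemma exc_down {x z : V} (hx : x ∈ Rect x0 x1 y0 y1) (hz : z ∈ Rect x0 x1 y0 y1)
    (ox : ω (x, 0) = true) (oz : ω (z, 0) = true) (h : z = x + (-1, 1))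
    (hb : ω (x + (-1, 0), 2) = true) :
    Conn Set.univ (excCell ω ∩ Rect (3 * x0) (3 * x1) (3 * y0) (3 * y1)) (3 * x.1, 3 * x.2)
      (3 * z.1, 3 * z.2) := by
  obtain ⟨a1, a2, a3, a4⟩ := hx
  obtain ⟨b1, b2, b3, b4⟩ := hz
  have e1 : z.1 = x.1 + -1 := by rw [h]; rfl
  have e2 : z.2 = x.2 + 1 := by rw [h]; rfl
  obtain ⟨f, hfx⟩ : ∃ f : V, f = x + (-1, 0) := ⟨_, rfl⟩
  have e3 : f.1 = x.1 + -1 := by rw [hfx]; rfl
  have e4 : f.2 = x.2 + 0 := by rw [hfx]; rfl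
  have e5 : f + (1, 0) = x := Prod.ext (by show f.1 + 1 = x.1; omega) (by show f.2 + 0 = x.2; omega)
  have hf : (ω (f, 0) = true ∧ ω (f, 1) = true) ∨ (ω (f + (1, 0), 0) = true ∧ ω (f, 2) = true) :=
    Or.inr ⟨by rw [e5]; exact ox, by rw [hfx]; exact hb⟩
  have s0 := exc_zero (exc_site (x0 := x0) (x1 := x1) (y0 := y0)
    (y1 := y1) ox (3 * x.1) (3 * x.2) (by omega))
  have s1 := exc_go s0 (exc_site ox (3 * x.1 - 1) (3 * x.2) (by omega)) (by omega)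
  have s2 := exc_go s1 (exc_face hf (3 * x.1 - 1) (3 * x.2 + 1) (by omega)) (by omega)
  have s3 := exc_go s2 (exc_face hf (3 * x.1 - 1) (3 * x.2 + 2) (by omega)) (by omega)
  have s4 := exc_go s3 (exc_face hf (3 * x.1 - 2) (3 * x.2 + 2) (by omega)) (by omega)
  have s5 := exc_go s4 (exc_site oz (3 * x.1 - 2) (3 * x.2 + 3) (by omega)) (by omega)
  exact (exc_go s5 (exc_site oz (3 * z.1) (3 * z.2) (by omega)) (by omega)).1

lemma exc_path {a b : V} (h : Relation.ReflTransGen (SStp ω (Rect x0 x1 y0 y1)) a b) :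
    Conn Set.univ (excCell ω ∩ Rect (3 * x0) (3 * x1) (3 * y0) (3 * y1)) (3 * a.1, 3 * a.2)
      (3 * b.1, 3 * b.2) := by
  induction h with
  | refl => exact Conn.refl _ _ _
  | tail _ hs ih =>
    obtain ⟨hx, hz, ox, oz, h | ⟨h, hb⟩ | ⟨h, hb⟩ | ⟨h, hb⟩ | ⟨h, hb⟩⟩ := hs
    · exact ih.trans (exc_nb hx hz ox oz h)
    · exact ih.trans (exc_up hx hz ox oz h hb)
    · exact ih.trans (exc_up hz hx oz ox h hb).symm
    · exact ih.trans (exc_down hx hz ox oz h hb)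
    · exact ih.trans (exc_down hz hx oz ox h hb).symm

lemma exc_start {a : V} (ha : a ∈ Rect x0 x1 y0 y1) (oa : ω (a, 0) = true) :
    ((3 * a.1, 3 * a.2) : V) ∈ excCell ω ∩ Rect (3 * x0) (3 * x1) (3 * y0) (3 * y1) := by
  obtain ⟨a1, a2, a3, a4⟩ := ha
  exact exc_site oa _ _ (by omega)

end

/-- An open horizontal crossing and a closed vertical crossing exclude each other. -/
theorem exc {x0 x1 y0 y1 : ℤ} {ω : JJ → Bool}
    (h : ω ∈ Arm {x | x.1 = x0} {x | x.1 = x1} (Rect x0 x1 y0 y1))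
    (h' : duJ ω ∈ Arm {x | x.2 = y0} {x | x.2 = y1} (Rect x0 x1 y0 y1)) : False := by
  obtain ⟨a, ha, b, hb, haR, oa, p⟩ := h
  obtain ⟨c, hc, d, hd, hcR, oc, q⟩ := h'
  have ha' : a.1 = x0 := ha
  have hb' : b.1 = x1 := hb
  have hc' : c.2 = y0 := hc
  have hd' : d.2 = y1 := hd
  obtain ⟨z, z1, z2⟩ := cross_meet (x0 := 3 * x0) (x1 := 3 * x1) (y0 := 3 * y0) (y1 := 3 * y1)
    (exc_path p) (exc_start haR oa) Set.inter_subset_right (by show 3 * a.1 = _; omega)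
    (by show 3 * b.1 = _; omega) (exc_path q) (exc_start hcR oc)
    (fun p hp => ⟨hp.2.1, hp.2.2.1⟩) (by show 3 * c.2 ≤ _; omega) (by show _ ≤ 3 * d.2; omega)
  exact exc_disj (z1.mem (exc_start haR oa)).1 (z2.mem (exc_start hcR oc)).1

end Pool.Agent.FS.RotorSym
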