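import Pool.Agent.FS.RotorSym.Pb

set_option autoImplicit false
set_option linter.unusedSectionVars false
set_option linter.deprecated false
set_option linter.unusedVariables false

namespace Pool.Agent.FS.RotorSym

open Pool.Agent.Lib.MP_9d2e01_pr MeasureTheory Function

/-- Indicator function of an event. -/
noncomputable def orth_ind {ι : Type} (A : Set (ι → Bool)) : (ι → Bool) → ℝ :=
  A.indicator fun _ => 1

lemma orth_mul {ι : Type} (A B : Set (ι → Bool)) (ω : ι → Bool) :
    orth_ind (A ∩ B) ω = orth_ind A ω * orth_ind B ω := by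
  unfold orth_ind
  by_cases h1 : ω ∈ A <;> by_cases h2 : ω ∈ B <;> simp [Set.indicator, h1, h2]

lemma orth_int {ι : Type} (p : ι → unitInterval) {A : Set (ι → Bool)} (h : Loc A) :
    Integrable (orth_ind A) (mup p) :=
  (integrable_const (1 : ℝ)).indicator h.measurableSet

lemma orth_val {ι : Type} (p : ι → unitInterval) {A : Set (ι → Bool)} (h : Loc A) :
    ∫ ω, orth_ind A ω ∂(mup p) = pp p A := by
  unfold orth_ind pp
  rw [integral_indicator_const _ h.measurableSet, smul_eq_mul, mul_one]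

/-- Orthogonality of disjoint blocks. -/
lemma orth {ι : Type} [DecidableEq ι] (p : ι → unitInterval) (M : ℕ) (F : ℕ → Finset ι)
    (hF : ∀ i j, i ≠ j → Disjoint (F i) (F j)) (O C : ℕ → Set (ι → Bool))
    (hO : ∀ i, Dep (O i) (F i : Set ι)) (hC : ∀ i, Dep (C i) (F i : Set ι))
    (hOC : ∀ i, Disjoint (O i) (C i)) {π : ℝ} (h1 : ∀ i, pp p (O i) = π) (h2 : ∀ i, pp p (C i) = π)
    {f : Set (ι → Bool)} (hf : Loc f) :
    (∑ i ∈ Finset.range M, (pp p (f ∩ O i) - pp p (f ∩ C i))) ^ 2 ≤ 2 * π * M := by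
  set t := ∑ i ∈ Finset.range M, (pp p (f ∩ O i) - pp p (f ∩ C i)) with ht
  have lO : ∀ i, Loc (O i) := fun i => ⟨F i, hO i⟩
  have lC : ∀ i, Loc (C i) := fun i => ⟨F i, hC i⟩
  have key : ∀ ω, 0 ≤ t ^ 2 * orth_ind f ω
      - 2 * t * ∑ i ∈ Finset.range M, (orth_ind (f ∩ O i) ω - orth_ind (f ∩ C i) ω)
      + ∑ i ∈ Finset.range M, ∑ j ∈ Finset.range M, (orth_ind (O i ∩ O j) ω
        - orth_ind (O i ∩ C j) ω - orth_ind (C i ∩ O j) ω + orth_ind (C i ∩ C j) ω) := by
    intro ω
    have hf2 : orth_ind f ω * orth_ind f ω = orth_ind f ω := by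
      rw [← orth_mul, Set.inter_self]
    have e1 : ∑ i ∈ Finset.range M, (orth_ind (f ∩ O i) ω - orth_ind (f ∩ C i) ω)
        = orth_ind f ω * ∑ i ∈ Finset.range M, (orth_ind (O i) ω - orth_ind (C i) ω) := by
      rw [Finset.mul_sum]
      refine Finset.sum_congr rfl fun i _ => ?_
      rw [orth_mul, orth_mul]
      ring
    have e2 : ∑ i ∈ Finset.range M, ∑ j ∈ Finset.range M, (orth_ind (O i ∩ O j) ω
        - orth_ind (O i ∩ C j) ω - orth_ind (C i ∩ O j) ω + orth_ind (C i ∩ C j) ω)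
        = (∑ i ∈ Finset.range M, (orth_ind (O i) ω - orth_ind (C i) ω))
          * ∑ i ∈ Finset.range M, (orth_ind (O i) ω - orth_ind (C i) ω) := by
      rw [Finset.sum_mul_sum]
      refine Finset.sum_congr rfl fun i _ => Finset.sum_congr rfl fun j _ => ?_
      rw [orth_mul, orth_mul, orth_mul, orth_mul]
      ring
    rw [e1, e2]
    have := sq_nonneg (t * orth_ind f ω
      - ∑ i ∈ Finset.range M, (orth_ind (O i) ω - orth_ind (C i) ω))
    refine this.trans_eq ?_
    linear_combination t ^ 2 * hf2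
  have i1 : ∀ i, Integrable (fun ω => orth_ind (f ∩ O i) ω - orth_ind (f ∩ C i) ω) (mup p) :=
    fun i => (orth_int p (hf.inter (lO i))).sub (orth_int p (hf.inter (lC i)))
  have j1 : ∀ i j, Integrable (fun ω => orth_ind (O i ∩ O j) ω - orth_ind (O i ∩ C j) ω)
      (mup p) := fun i j =>
    (orth_int p ((lO i).inter (lO j))).sub (orth_int p ((lO i).inter (lC j)))
  have j2 : ∀ i j, Integrable (fun ω => orth_ind (O i ∩ O j) ω - orth_ind (O i ∩ C j) ω
      - orth_ind (C i ∩ O j) ω) (mup p) := fun i j =>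
    (j1 i j).sub (orth_int p ((lC i).inter (lO j)))
  have i2 : ∀ i j, Integrable (fun ω => orth_ind (O i ∩ O j) ω - orth_ind (O i ∩ C j) ω
      - orth_ind (C i ∩ O j) ω + orth_ind (C i ∩ C j) ω) (mup p) := fun i j =>
    (j2 i j).add (orth_int p ((lC i).inter (lC j)))
  have a0 : Integrable (fun ω => t ^ 2 * orth_ind f ω) (mup p) := (orth_int p hf).const_mul _
  have a1 : Integrable (fun ω => 2 * t * ∑ i ∈ Finset.range M,
      (orth_ind (f ∩ O i) ω - orth_ind (f ∩ C i) ω)) (mup p) :=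
    (integrable_finset_sum _ fun i _ => i1 i).const_mul _
  have a2 : ∀ i, Integrable (fun ω => ∑ j ∈ Finset.range M, (orth_ind (O i ∩ O j) ω
      - orth_ind (O i ∩ C j) ω - orth_ind (C i ∩ O j) ω + orth_ind (C i ∩ C j) ω)) (mup p) :=
    fun i => integrable_finset_sum _ fun j _ => i2 i j
  have a01 : Integrable (fun ω => t ^ 2 * orth_ind f ω - 2 * t * ∑ i ∈ Finset.range M,
      (orth_ind (f ∩ O i) ω - orth_ind (f ∩ C i) ω)) (mup p) := a0.sub a1
  have h0 : 0 ≤ ∫ ω, (t ^ 2 * orth_ind f ω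
      - 2 * t * ∑ i ∈ Finset.range M, (orth_ind (f ∩ O i) ω - orth_ind (f ∩ C i) ω)
      + ∑ i ∈ Finset.range M, ∑ j ∈ Finset.range M, (orth_ind (O i ∩ O j) ω
        - orth_ind (O i ∩ C j) ω - orth_ind (C i ∩ O j) ω + orth_ind (C i ∩ C j) ω)) ∂(mup p) :=
    integral_nonneg fun ω => key ω
  rw [integral_add a01 (integrable_finset_sum _ fun i _ => a2 i), integral_sub a0 a1,
    integral_const_mul, integral_const_mul, orth_val p hf,
    integral_finset_sum _ fun i _ => i1 i, integral_finset_sum _ fun i _ => a2 i] at h0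
  have b1 : ∑ i ∈ Finset.range M, ∫ ω, (orth_ind (f ∩ O i) ω - orth_ind (f ∩ C i) ω) ∂(mup p)
      = t := by
    refine Finset.sum_congr rfl fun i _ => ?_
    rw [integral_sub (orth_int p (hf.inter (lO i))) (orth_int p (hf.inter (lC i))),
      orth_val p (hf.inter (lO i)), orth_val p (hf.inter (lC i))]
  have b2 : ∀ i ∈ Finset.range M, ∫ ω, ∑ j ∈ Finset.range M, (orth_ind (O i ∩ O j) ω
      - orth_ind (O i ∩ C j) ω - orth_ind (C i ∩ O j) ω + orth_ind (C i ∩ C j) ω) ∂(mup p)
      = 2 * π := by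
    intro i hi
    rw [integral_finset_sum _ fun j _ => i2 i j]
    have c : ∀ j, ∫ ω, (orth_ind (O i ∩ O j) ω - orth_ind (O i ∩ C j) ω
        - orth_ind (C i ∩ O j) ω + orth_ind (C i ∩ C j) ω) ∂(mup p)
        = pp p (O i ∩ O j) - pp p (O i ∩ C j) - pp p (C i ∩ O j) + pp p (C i ∩ C j) := by
      intro j
      rw [integral_add (j2 i j) (orth_int p ((lC i).inter (lC j))),
        integral_sub (j1 i j) (orth_int p ((lC i).inter (lO j))),
        integral_sub (orth_int p ((lO i).inter (lO j))) (orth_int p ((lO i).inter (lC j))),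
        orth_val p ((lO i).inter (lO j)), orth_val p ((lO i).inter (lC j)),
        orth_val p ((lC i).inter (lO j)), orth_val p ((lC i).inter (lC j))]
    rw [Finset.sum_eq_single_of_mem i hi]
    · rw [c, Set.inter_self, Set.inter_self, (hOC i).inter_eq, (hOC i).symm.inter_eq, pp_empty,
        h1, h2]
      ring
    · intro j _ hji
      have hd : Disjoint (F i : Set ι) (F j : Set ι) :=
        Finset.disjoint_coe.mpr (hF i j hji.symm)
      rw [c, pp_indep p (hO i) (hO j) hd (lO i) (lO j), pp_indep p (hO i) (hC j) hd (lO i) (lC j),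
        pp_indep p (hC i) (hO j) hd (lC i) (lO j), pp_indep p (hC i) (hC j) hd (lC i) (lC j),
        h1, h1, h2, h2]
      ring
  rw [b1, Finset.sum_congr rfl b2, Finset.sum_const, Finset.card_range, nsmul_eq_mul] at h0
  have hle := mul_le_mul_of_nonneg_left (pp_le_one p f) (sq_nonneg t)
  nlinarith

end Pool.Agent.FS.RotorSym
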