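import Pool.Agent.FS.RotorSym.Sym
import Pool.Agent.FS.RotorSym.Exc
import Pool.Agent.FS.RotorSym.Orth

set_option autoImplicit false
set_option linter.unusedSectionVars false
set_option linter.deprecated false
set_option linter.unusedVariables false

namespace Pool.Agent.FS.RotorSym

open Pool.Agent.Lib.MP_9d2e01_pr MeasureTheory Function

lemma piv_le {θ : unitInterval} {g : V → V} {T : (JJ → Bool) → JJ → Bool} (h : IsSym θ g T)
    {A B R A' B' R' : Set V} (hR : R.Finite) (h1 : ∀ x ∈ A, g x ∈ A') (h2 : ∀ x ∈ B, g x ∈ B')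
    (h3 : ∀ x ∈ R, g x ∈ R') : pp (parJ θ) (Arm A B R) ≤ pp (parJ θ) (Arm A' B' R') := by
  rw [← h.pp_arm A B hR]
  exact pp_mono _ (arm_mono (Set.image_subset_iff.2 h1) (Set.image_subset_iff.2 h2)
    (Set.image_subset_iff.2 h3))

lemma piv_symm {ω : JJ → Bool} {R : Set V} {a b : V}
    (h : Relation.ReflTransGen (SStp ω R) a b) : Relation.ReflTransGen (SStp ω R) b a := by
  induction h with
  | refl => exact Relation.ReflTransGen.refl
  | tail _ hs ih => exact Relation.ReflTransGen.head hs.symm ih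

lemma piv_end {ω : JJ → Bool} {R : Set V} {a b : V}
    (h : Relation.ReflTransGen (SStp ω R) a b) (h1 : a ∈ R) (h2 : ω (a, 0) = true) :
    b ∈ R ∧ ω (b, 0) = true := by
  induction h with
  | refl => exact ⟨h1, h2⟩
  | tail _ hs _ => exact ⟨hs.2.1, hs.2.2.2.1⟩

lemma piv_corner {ω : JJ → Bool} {R : Set V} {a b c d : ℤ} (hR : Rect a b c d ⊆ R)
    (ho : ∀ x ∈ Rect a b c d, ω (x, 0) = true) {x : V} (hx : x ∈ Rect a b c d) :
    Relation.ReflTransGen (SStp ω R) (a, c) x := by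
  have st : ∀ u v : V, u ∈ Rect a b c d → v ∈ Rect a b c d → nb u v → SStp ω R u v :=
    fun u v hu hv h => ⟨hR hu, hR hv, ho u hu, ho v hv, Or.inl h⟩
  obtain ⟨x1, x2⟩ := x
  obtain ⟨e1, e2, e3, e4⟩ := hx
  simp only at e1 e2 e3 e4
  have k1 : ∀ n : ℕ, a + n ≤ b → Relation.ReflTransGen (SStp ω R) (a, c) (a + n, c) := by
    intro n
    induction n with
    | zero => intro _; rw [Nat.cast_zero, add_zero]
    | succ n ih =>
      intro hn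
      push_cast at hn ⊢
      refine (ih (by omega)).tail (st _ _ ?_ ?_ ?_)
      · simp only [Rect, Set.mem_setOf_eq]; omega
      · simp only [Rect, Set.mem_setOf_eq]; omega
      · exact Or.inl ⟨(add_assoc _ _ _).symm, rfl⟩
  have k2 : ∀ n : ℕ, c + n ≤ d → Relation.ReflTransGen (SStp ω R) (x1, c) (x1, c + n) := by
    intro n
    induction n with
    | zero => intro _; rw [Nat.cast_zero, add_zero]
    | succ n ih =>
      intro hn
      push_cast at hn ⊢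
      refine (ih (by omega)).tail (st _ _ ?_ ?_ ?_)
      · simp only [Rect, Set.mem_setOf_eq]; omega
      · simp only [Rect, Set.mem_setOf_eq]; omega
      · exact Or.inr (Or.inr (Or.inl ⟨rfl, (add_assoc _ _ _).symm⟩))
  obtain ⟨n, rfl⟩ := Int.le.dest e1
  obtain ⟨m, rfl⟩ := Int.le.dest e3
  exact (k1 n e2).trans (k2 m e4)

lemma piv_glue {ω : JJ → Bool} {R B B' : Set V} {a b c d : ℤ} (hR : Rect a b c d ⊆ R)
    (ho : ∀ x ∈ Rect a b c d, ω (x, 0) = true) (h : ω ∈ Arm (Rect a b c d) B R)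
    (h' : ω ∈ Arm (Rect a b c d) B' R) : ω ∈ Arm B B' R := by
  obtain ⟨u, hu, v, hv, u1, u2, p⟩ := h
  obtain ⟨u', hu', v', hv', -, -, p'⟩ := h'
  obtain ⟨v1, v2⟩ := piv_end p u1 u2
  exact ⟨v, hv, v', hv', v1, v2, (piv_symm p).trans
    ((piv_symm (piv_corner hR ho hu)).trans ((piv_corner hR ho hu').trans p'))⟩

lemma piv_inter {ι : Type} (p : ι → unitInterval) {A B : Set (ι → Bool)} (lB : Loc B)
    (hA : 7 / 8 ≤ pp p A) (hB : 7 / 8 ≤ pp p B) : 3 / 4 ≤ pp p (A ∩ B) := by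
  have h1 := pp_union_add_inter p A lB
  have h2 := pp_le_one p (A ∪ B)
  linarith

lemma piv_arms (θ : unitInterval) (k N K t : ℕ) (ht : t ≤ K)
    (h : ∀ L ≤ K, 7 / 8 ≤ pp (parJ θ) (RArm k N L)) :
    7 / 8 ≤ pp (parJ θ) (Arm (Rect (t - k) (t + k) (-k) k) {x | x.1 = -(N : ℤ)}
      (Rect (-(N : ℤ)) (N + K) (-(N : ℤ)) N)) ∧
    7 / 8 ≤ pp (parJ θ) (Arm (Rect (t - k) (t + k) (-k) k) {x | x.1 = (N : ℤ) + K}
      (Rect (-(N : ℤ)) (N + K) (-(N : ℤ)) N)) ∧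
    7 / 8 ≤ pp (parJ θ) (Arm (Rect (t - k) (t + k) (-k) k) {x | x.2 = -(N : ℤ)}
      (Rect (-(N : ℤ)) (N + K) (-(N : ℤ)) N)) ∧
    7 / 8 ≤ pp (parJ θ) (Arm (Rect (t - k) (t + k) (-k) k) {x | x.2 = (N : ℤ)}
      (Rect (-(N : ℤ)) (N + K) (-(N : ℤ)) N)) := by
  obtain ⟨T1, s1⟩ := sym_add θ ((t : ℤ), (0 : ℤ))
  obtain ⟨T2, s2⟩ := sym_neg θ
  obtain ⟨T3, s3⟩ := sym_swp θ
  have top : 7 / 8 ≤ pp (parJ θ) (Arm (Q k) {x | x.2 = (N : ℤ)} (Q N)) := by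
    refine (h 0 (Nat.zero_le _)).trans (piv_le s3 (Rect.finite _ _ _ _) ?_ ?_ ?_) <;>
      intro x hx <;>
      simp only [Q, Rect, Set.mem_setOf_eq, Prod.fst_swap, Prod.snd_swap] at hx ⊢ <;> omega
  have bot : 7 / 8 ≤ pp (parJ θ) (Arm (Q k) {x | x.2 = -(N : ℤ)} (Q N)) := by
    refine top.trans (piv_le s2 (Rect.finite _ _ _ _) ?_ ?_ ?_) <;>
      intro x hx <;>
      simp only [Q, Rect, Set.mem_setOf_eq, Prod.fst_neg, Prod.snd_neg] at hx ⊢ <;> omega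
  have lef : 7 / 8 ≤ pp (parJ θ) (Arm (Q k) {x | x.1 = -((N : ℤ) + t)}
      (Rect (-((N : ℤ) + t)) N (-(N : ℤ)) N)) := by
    refine (h t ht).trans (piv_le s2 (Rect.finite _ _ _ _) ?_ ?_ ?_) <;>
      intro x hx <;>
      simp only [Q, Rect, Set.mem_setOf_eq, Prod.fst_neg, Prod.snd_neg] at hx ⊢ <;> omega
  refine ⟨lef.trans (piv_le s1 (Rect.finite _ _ _ _) ?_ ?_ ?_),
    (h (K - t) (Nat.sub_le _ _)).trans (piv_le s1 (Rect.finite _ _ _ _) ?_ ?_ ?_),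
    bot.trans (piv_le s1 (Rect.finite _ _ _ _) ?_ ?_ ?_),
    top.trans (piv_le s1 (Rect.finite _ _ _ _) ?_ ?_ ?_)⟩ <;>
    intro x hx <;>
    simp only [Q, Rect, Set.mem_setOf_eq, Prod.fst_add, Prod.snd_add] at hx ⊢ <;> omega

lemma piv_one (θ : unitInterval) (k N K t : ℕ) (ht : t ≤ K) (hk : k ≤ N)
    (h : ∀ L ≤ K, 7 / 8 ≤ pp (parJ θ) (RArm k N L)) (F : Finset JJ)
    (hF : ∀ x ∈ Rect ((t : ℤ) - k) (t + k) (-k) k, (x, (0 : Fin 3)) ∈ F) {π : ℝ}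
    (h1 : pp (parJ θ) {ω | ∀ j ∈ F, ω j = true} = π)
    (h2 : pp (parJ θ) {ω | ∀ j ∈ F, ω j = false} = π) :
    π / 2 ≤ pp (parJ θ) (Arm {x | x.1 = -(N : ℤ)} {x | x.1 = (N : ℤ) + K}
        (Rect (-(N : ℤ)) (N + K) (-(N : ℤ)) N) ∩ {ω | ∀ j ∈ F, ω j = true}) -
      pp (parJ θ) (Arm {x | x.1 = -(N : ℤ)} {x | x.1 = (N : ℤ) + K}
        (Rect (-(N : ℤ)) (N + K) (-(N : ℤ)) N) ∩ {ω | ∀ j ∈ F, ω j = false}) := by
  obtain ⟨a1, a2, a3, a4⟩ := piv_arms θ k N K t ht h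
  have hπ : 0 ≤ π := h1 ▸ pp_nonneg _ _
  set R := Rect (-(N : ℤ)) (N + K) (-(N : ℤ)) N with hRdef
  set Bx := Rect ((t : ℤ) - k) (t + k) (-k) k with hBx
  have hR : R.Finite := Rect.finite _ _ _ _
  have hsub : Bx ⊆ R := by
    intro x hx
    simp only [hRdef, hBx, Rect, Set.mem_setOf_eq] at hx ⊢
    omega
  have lO : ∀ b : Bool, Loc {ω : JJ → Bool | ∀ j ∈ F, ω j = b} := fun b =>
    ⟨F, fun ω ω' e hω j hj => (e j hj) ▸ hω j hj⟩
  have uO : Up {ω : JJ → Bool | ∀ j ∈ F, ω j = true} := fun ω ω' e hω j hj => e j (hω j hj)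
  have uC : Up {ω : JJ → Bool | ∀ j ∈ F, ω j = false}ᶜ := fun ω ω' e hω hω' =>
    hω fun j hj => by
      by_contra hc
      have h3 := e j (by simpa using hc)
      rw [hω' j hj] at h3
      exact Bool.false_ne_true h3
  have b1 := piv_inter _ (arm_loc _ _ hR) a1 a2
  have b2 := piv_inter _ (arm_loc _ _ hR) a3 a4
  have lV := (arm_loc Bx {x | x.2 = -(N : ℤ)} hR).inter (arm_loc Bx {x | x.2 = (N : ℤ)} hR)
  have uV := (arm_up Bx {x | x.2 = -(N : ℤ)} R).inter (arm_up Bx {x | x.2 = (N : ℤ)} R)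
  have c1 := pp_fkg (parJ θ) ((arm_loc Bx {x | x.1 = -(N : ℤ)} hR).inter
    (arm_loc Bx {x | x.1 = (N : ℤ) + K} hR)) (lO true)
    ((arm_up _ _ _).inter (arm_up _ _ _)) uO
  have c2 := pp_fkg_down (parJ θ) (loc_duJ lV) (lO false) (up_duJ uV) uC
  rw [pp_duJ θ lV, h2] at c2
  rw [h1] at c1
  have d1 : pp (parJ θ) (Arm Bx {x | x.1 = -(N : ℤ)} R ∩ Arm Bx {x | x.1 = (N : ℤ) + K} R ∩
      {ω | ∀ j ∈ F, ω j = true}) ≤ pp (parJ θ) (Arm {x | x.1 = -(N : ℤ)}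
        {x | x.1 = (N : ℤ) + K} R ∩ {ω | ∀ j ∈ F, ω j = true}) := by
    refine pp_mono _ ?_
    rintro ω ⟨⟨e1, e2⟩, e3⟩
    exact ⟨piv_glue hsub (fun x hx => e3 _ (hF x hx)) e1 e2, e3⟩
  have d2 := pp_union_add_inter (parJ θ) (Arm {x | x.1 = -(N : ℤ)} {x | x.1 = (N : ℤ) + K} R ∩
    {ω | ∀ j ∈ F, ω j = false}) ((loc_duJ lV).inter (lO false))
  have d3 : (Arm {x | x.1 = -(N : ℤ)} {x | x.1 = (N : ℤ) + K} R ∩ {ω | ∀ j ∈ F, ω j = false}) ∩
      ({ω | duJ ω ∈ Arm Bx {x | x.2 = -(N : ℤ)} R ∩ Arm Bx {x | x.2 = (N : ℤ)} R} ∩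
        {ω | ∀ j ∈ F, ω j = false}) = ∅ := by
    refine Set.eq_empty_of_forall_notMem ?_
    rintro ω ⟨⟨e1, e2⟩, ⟨e3, e4⟩, -⟩
    refine exc e1 (piv_glue hsub (fun x hx => ?_) e3 e4)
    have := e2 _ (hF x hx)
    simp only [duJ, if_true, this, Bool.not_false]
  rw [d3, pp_empty] at d2
  have d4 := pp_mono (parJ θ) (Set.union_subset (Set.inter_subset_right (s := Arm
    {x | x.1 = -(N : ℤ)} {x | x.1 = (N : ℤ) + K} R) (t := {ω | ∀ j ∈ F, ω j = false}))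
    (Set.inter_subset_right (s := {ω | duJ ω ∈ Arm Bx {x | x.2 = -(N : ℤ)} R ∩
      Arm Bx {x | x.2 = (N : ℤ)} R})))
  rw [h2] at d4
  have f1 := mul_le_mul_of_nonneg_right b1 hπ
  have f2 := mul_le_mul_of_nonneg_right b2 hπ
  linarith

theorem piv (θ : unitInterval) (k : ℕ)
    (h : ∀ K, ∃ N, k ≤ N ∧ ∀ L ≤ K, 7 / 8 ≤ pp (parJ θ) (RArm k N L)) : False := by
  classical
  obtain ⟨B0, hB0⟩ : ∃ B0 : Finset V, ∀ x, x ∈ B0 ↔ x ∈ Q k :=
    ⟨(Rect.finite _ _ _ _).toFinset, fun x => Set.Finite.mem_toFinset _⟩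
  obtain ⟨F, hF⟩ : ∃ F : ℕ → Finset JJ, ∀ i, F i =
      B0.image fun x => (x + (((i * (2 * k + 1) : ℕ) : ℤ), (0 : ℤ)), (0 : Fin 3)) :=
    ⟨_, fun _ => rfl⟩
  have hcard : ∀ i, (F i).card = B0.card := fun i => by
    rw [hF, Finset.card_image_of_injective]
    intro x y e
    exact add_right_cancel (congrArg Prod.fst e)
  have hmem : ∀ (i : ℕ) (j : JJ), j ∈ F i ↔ j.2 = 0 ∧ j.1 ∈ Rect (((i * (2 * k + 1) : ℕ) : ℤ) - k)
      ((i * (2 * k + 1) : ℕ) + k) (-k) k := fun i j => by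
    rw [hF, Finset.mem_image]
    constructor
    · rintro ⟨x, hx, rfl⟩
      rw [hB0] at hx
      refine ⟨rfl, ?_⟩
      simp only [Q, Rect, Set.mem_setOf_eq, Prod.fst_add, Prod.snd_add] at hx ⊢
      omega
    · rintro ⟨h1, h2⟩
      refine ⟨j.1 - (((i * (2 * k + 1) : ℕ) : ℤ), (0 : ℤ)), (hB0 _).2 ?_, ?_⟩
      · simp only [Q, Rect, Set.mem_setOf_eq, Prod.fst_sub, Prod.snd_sub] at h2 ⊢
        omega
      · rw [sub_add_cancel, ← h1]
  have hall : ∀ (i : ℕ) (b : Bool), pp (parJ θ) {ω | ∀ j ∈ F i, ω j = b} = (1 / 2) ^ B0.card :=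
    fun i b => by
      rw [pp_all (parJ θ) (F i) (fun j hj => ?_) b, hcard]
      exact if_pos ((hmem i j).1 hj).1
  obtain ⟨π, hπ⟩ : ∃ π : ℝ, π = (1 / 2) ^ B0.card := ⟨_, rfl⟩
  rw [← hπ] at hall
  have hπ0 : 0 < π := by rw [hπ]; positivity
  obtain ⟨M, hM⟩ := exists_nat_gt (8 / π)
  obtain ⟨N, hN, hA⟩ := h (M * (2 * k + 1))
  have hlt : ∀ i j, i < j → Disjoint (F i) (F j) := fun i j hij => by
    refine Finset.disjoint_left.2 fun x h1 h2 => ?_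
    have e1 := ((hmem i x).1 h1).2
    have e2 := ((hmem j x).1 h2).2
    have e3 : (i + 1) * (2 * k + 1) ≤ j * (2 * k + 1) := Nat.mul_le_mul_right _ hij
    rw [Nat.succ_mul] at e3
    simp only [Rect, Set.mem_setOf_eq] at e1 e2
    omega
  have hdep : ∀ (i : ℕ) (b : Bool), Dep {ω : JJ → Bool | ∀ j ∈ F i, ω j = b} (F i : Set JJ) :=
    fun i b ω ω' e hω j hj => (e j hj) ▸ hω j hj
  have ho := orth (parJ θ) M F
    (fun i j hij => (lt_or_gt_of_ne hij).elim (hlt i j) fun h' => (hlt j i h').symm)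
    (fun i => {ω | ∀ j ∈ F i, ω j = true}) (fun i => {ω | ∀ j ∈ F i, ω j = false})
    (fun i => hdep i true) (fun i => hdep i false)
    (fun i => Set.disjoint_left.2 fun ω h1 h2 => by
      have hm : ((((i * (2 * k + 1) : ℕ) : ℤ), (0 : ℤ)), (0 : Fin 3)) ∈ F i := by
        refine (hmem i _).2 ⟨rfl, ?_⟩
        simp only [Rect, Set.mem_setOf_eq]
        omega
      exact Bool.false_ne_true ((h2 _ hm).symm.trans (h1 _ hm)))
    (fun i => hall i true) (fun i => hall i false)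
    (arm_loc {x | x.1 = -(N : ℤ)} {x | x.1 = (N : ℤ) + (M * (2 * k + 1) : ℕ)}
      (Rect.finite (-(N : ℤ)) (N + (M * (2 * k + 1) : ℕ)) (-(N : ℤ)) N))
  have hs := Finset.card_nsmul_le_sum (Finset.range M) _ (π / 2) fun i hi =>
    piv_one θ k N (M * (2 * k + 1)) (i * (2 * k + 1))
      (Nat.mul_le_mul_right _ (Finset.mem_range.1 hi).le) hN hA (F i)
      (fun x hx => (hmem i (x, 0)).2 ⟨rfl, hx⟩) (hall i true) (hall i false)
  rw [Finset.card_range, nsmul_eq_mul] at hs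
  rw [div_lt_iff₀ hπ0] at hM
  have h0 : 0 ≤ (M : ℝ) * (π / 2) := by positivity
  have h3 := (pow_le_pow_left₀ h0 hs 2).trans ho
  nlinarith

end Pool.Agent.FS.RotorSym
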