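import Pool.Agent.FS.RotorSym.Defs

set_option autoImplicit false
set_option linter.unusedSectionVars false
set_option linter.deprecated false
set_option linter.unusedVariables false

namespace Pool.Agent.FS.RotorSym

open Pool.Agent.Lib.MP_9d2e01_pr MeasureTheory Function

/-- Open sites, the origin counted as open. -/
def redOp (ω : KK → Bool) (x : V) : Prop := ω (x, Sum.inl 2) = true ∨ x = 0

/-- Adjacency used by directed site steps. -/
def redAd (ω : KK → Bool) (x z : V) : Prop :=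
  nb x z ∨ ∃ y d, x = y + dir d ∧ z = y + dir (d + 3) ∧ ω (y, Sum.inr d) = true

/-- Sites reached from the origin. -/
def redR (ω : KK → Bool) (x : V) : Prop :=
  Relation.ReflTransGen (fun x z => redOp ω z ∧ redAd ω x z) 0 x

/-- Invariant of a reached lane. -/
def redInv (ω : KK → Bool) (u : Node) : Prop :=
  redR ω u.1 ∨ (¬ redOp ω u.1 ∧
    ((u.2.2 = true ∧ ((redR ω (u.1 + dir (u.2.1 + 1)) ∧ ω (u.1, Sum.inr (u.2.1 + 1)) = true) ∨
        redR ω (u.1 + dir u.2.1 + dir (u.2.1 + 1)) ∨ redR ω (u.1 + dir u.2.1))) ∨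
      (u.2.2 = false ∧ (redR ω (u.1 + dir u.2.1) ∨ redR ω (u.1 + dir (u.2.1 + 3) + dir u.2.1) ∨
        redR ω (u.1 + dir (u.2.1 + 3))))))

lemma red_nb (y : V) (d : Fin 4) : nb y (y + dir d) := by
  fin_cases d <;> simp [nb, dir] <;> omega

lemma red_bound (d : Fin 4) :
    -1 ≤ (dir d).1 ∧ (dir d).1 ≤ 1 ∧ -1 ≤ (dir d).2 ∧ (dir d).2 ≤ 1 := by
  fin_cases d <;> simp [dir]

lemma red_bound2 (d : Fin 4) :
    -1 ≤ (dir (d + 3)).1 + (dir d).1 ∧ (dir (d + 3)).1 + (dir d).1 ≤ 1 ∧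
      -1 ≤ (dir (d + 3)).2 + (dir d).2 ∧ (dir (d + 3)).2 + (dir d).2 ≤ 1 ∧
      -1 ≤ (dir (d + 3)).1 - (dir d).1 ∧ (dir (d + 3)).1 - (dir d).1 ≤ 1 ∧
      -1 ≤ (dir (d + 3)).2 - (dir d).2 ∧ (dir (d + 3)).2 - (dir d).2 ≤ 1 ∧
      -1 ≤ (dir d).1 + (dir (d + 1)).1 ∧ (dir d).1 + (dir (d + 1)).1 ≤ 1 ∧
      -1 ≤ (dir d).2 + (dir (d + 1)).2 ∧ (dir d).2 + (dir (d + 1)).2 ≤ 1 := by
  revert d
  decide

lemma red_king {ω : KK → Bool} {x z : V} (h : redAd ω x z) :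
    x.1 - 1 ≤ z.1 ∧ z.1 ≤ x.1 + 1 ∧ x.2 - 1 ≤ z.2 ∧ z.2 ≤ x.2 + 1 := by
  rcases h with h | ⟨y, d, rfl, rfl, _⟩
  · unfold nb at h
    omega
  · have := red_bound2 d
    simp only [Prod.fst_add, Prod.snd_add]
    omega

lemma red_gate {ω : KK → Bool} {y : V} {k : Fin 4 × Bool} (h : gM ω y k = true) :
    redOp ω y ∨ (k.2 = false ∧ ω (y, Sum.inr k.1) = true) := by
  unfold gM at h
  by_cases h0 : y = 0
  · exact Or.inl (Or.inr h0)
  rw [if_neg h0] at h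
  unfold tgt at h
  by_cases h1 : ω (y, Sum.inl 2) = true
  · exact Or.inl (Or.inl h1)
  rw [if_neg h1] at h
  simp only [clo, Bool.and_eq_true, Bool.not_eq_true'] at h
  exact Or.inr h

lemma red_step {ω : KK → Bool} {u v : Node} (hu : redInv ω u) (h : Arc (gM ω) u v) :
    redInv ω v := by
  obtain ⟨y, d, b⟩ := u
  have e1 : d + 2 + 3 = d + 1 := by fin_cases d <;> rfl
  have e2 : d + 1 + 3 = d := by fin_cases d <;> rfl
  have e3 : d + 3 + 1 = d := by fin_cases d <;> rfl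
  rcases h with ⟨hb, rfl⟩ | ⟨hb, rfl, hg⟩ | ⟨hb, rfl, hg⟩
  · simp only at hb
    subst hb
    have e4 : y + dir d + dir (d + 1) + dir (d + 2) = y + dir (d + 1) := by
      rw [add_right_comm y, dir_rev]
    by_cases ho : redOp ω (y + dir d)
    · left
      rcases hu with h1 | ⟨_, ⟨_, ⟨h1, h2⟩ | h1 | h1⟩ | ⟨h1, _⟩⟩
      · exact h1.tail ⟨ho, Or.inl (red_nb y d)⟩
      · exact h1.tail ⟨ho, Or.inr ⟨y, d + 1, rfl, by rw [e2], h2⟩⟩
      · exact h1.tail ⟨ho, Or.inl (red_nb _ _).symm⟩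
      · exact h1
      · exact absurd h1 (by simp)
    · rcases hu with h1 | ⟨_, ⟨_, ⟨h1, h2⟩ | h1 | h1⟩ | ⟨h1, _⟩⟩
      · refine Or.inr ⟨ho, Or.inr ⟨rfl, Or.inl ?_⟩⟩
        simp only [dir_rev]
        exact h1
      · refine Or.inr ⟨ho, Or.inr ⟨rfl, Or.inr (Or.inl ?_)⟩⟩
        simp only [e1, e4]
        exact h1
      · refine Or.inr ⟨ho, Or.inr ⟨rfl, Or.inr (Or.inr ?_)⟩⟩
        simp only [e1]
        exact h1
      · exact Or.inl h1
      · exact absurd h1 (by simp)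
  · rcases hu with h1 | ⟨h1, _⟩
    · exact Or.inl h1
    · rcases red_gate hg with h2 | ⟨h2, _⟩
      · exact absurd h2 h1
      · exact absurd h2 (by simp)
  · simp only at hb
    subst hb
    rcases hu with h1 | ⟨h0, ⟨h1, _⟩ | ⟨_, h1⟩⟩
    · exact Or.inl h1
    · exact absurd h1 (by simp)
    · have h2 : ω (y, Sum.inr d) = true := ((red_gate hg).resolve_left h0).2
      refine Or.inr ⟨h0, Or.inl ⟨rfl, ?_⟩⟩
      simp only [e3]
      rcases h1 with h1 | h1 | h1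
      · exact Or.inl ⟨h1, h2⟩
      · exact Or.inr (Or.inl h1)
      · exact Or.inr (Or.inr h1)

lemma red_near {ω : KK → Bool} {u : Node} (hu : redInv ω u) : ∃ x, redR ω x ∧
    u.1.1 - 1 ≤ x.1 ∧ x.1 ≤ u.1.1 + 1 ∧ u.1.2 - 1 ≤ x.2 ∧ x.2 ≤ u.1.2 + 1 := by
  obtain ⟨y, d, b⟩ := u
  have a0 := red_bound d
  have a1 := red_bound (d + 1)
  have a3 := red_bound (d + 3)
  have a2 := red_bound2 d
  rcases hu with h | ⟨_, ⟨_, ⟨h, _⟩ | h | h⟩ | ⟨_, h | h | h⟩⟩ <;>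
    refine ⟨_, h, ?_⟩ <;> simp only [Prod.fst_add, Prod.snd_add] <;> omega

lemma red_cut {ω : KK → Bool} {x : V} (h : redR ω x) : x = 0 ∨ ∃ a ∈ Q 1,
    ω (a, Sum.inl 2) = true ∧ ω (x, Sum.inl 2) = true ∧
      Relation.ReflTransGen (DStp ω Set.univ) a x := by
  induction h with
  | refl => exact Or.inl rfl
  | @tail x z _ hs ih =>
    rcases hs.1 with hz | hz
    · right
      rcases ih with rfl | ⟨a, h1, h2, h3, h4⟩
      · refine ⟨z, ?_, hz, hz, Relation.ReflTransGen.refl⟩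
        have := red_king hs.2
        simp only [Q, Rect, Set.mem_setOf_eq, Prod.fst_zero, Prod.snd_zero] at this ⊢
        omega
      · exact ⟨a, h1, h2, hz, h4.tail ⟨trivial, trivial, h3, hz, hs.2⟩⟩
    · exact Or.inl hz

/-- An escape in the comparison model gives a directed arm of open sites. -/
theorem red {ω : KK → Bool} {d : Fin 4} {n : ℕ} (hn : 1 ≤ n) (h : Esc (gM ω) d (n + 1)) :
    ω ∈ DOut n := by
  obtain ⟨v, hv, hp⟩ := h
  have h1 : redInv ω v := by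
    clear hv
    induction hp with
    | refl => exact Or.inl Relation.ReflTransGen.refl
    | tail _ hs ih => exact red_step ih hs.2
  obtain ⟨x, hx, hb⟩ := red_near h1
  have hxn : x ∉ Q n := by
    simp only [Q, Rect, Set.mem_setOf_eq] at hv ⊢
    push_cast at hv
    omega
  rcases red_cut hx with rfl | ⟨a, ha, ho, _, hq⟩
  · refine absurd ?_ hxn
    simp only [Q, Rect, Set.mem_setOf_eq, Prod.fst_zero, Prod.snd_zero]
    omega
  have han : a ∈ Q n := by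
    simp only [Q, Rect, Set.mem_setOf_eq] at ha ⊢
    omega
  have sub : ∀ z ∈ Q n, z ∈ Q (n + 1) := fun z hz => by
    simp only [Q, Rect, Set.mem_setOf_eq] at hz ⊢
    push_cast
    omega
  obtain ⟨w, w', k1, k2, k3, k4⟩ := rtg_exit hq han hxn
  refine ⟨a, ha, w', k3, ho, (rtg_mono (fun p q hpq =>
    ⟨sub _ hpq.2.1, sub _ hpq.2.2, hpq.1.2.2⟩) k1).tail ⟨sub _ k2, ?_, k4.2.2⟩⟩
  have := red_king (ω := ω) k4.2.2.2.2
  simp only [Q, Rect, Set.mem_setOf_eq] at k2 ⊢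
  push_cast
  omega

end Pool.Agent.FS.RotorSym
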