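import Pool.Agent.FS.RotorSym.Defs

set_option autoImplicit false
set_option linter.unusedSectionVars false
set_option linter.deprecated false
set_option linter.unusedVariables false

namespace Pool.Agent.FS.RotorSym

open Pool.Agent.Lib.MP_9d2e01_pr MeasureTheory Function

lemma rot_seg (A : V → Fin 4 → Prop) (ρ : V → Fin 4)
    (hsg : ∀ x d, d ≠ ρ x + 1 → A x d → A x (d + 3)) (x : V) :
    (A x (ρ x + 2) → A x (ρ x + 1)) ∧ (A x (ρ x + 3) → A x (ρ x + 2)) ∧
      (A x (ρ x) → A x (ρ x + 3)) := by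
  have e1 : ρ x + 2 + 3 = ρ x + 1 := by generalize ρ x = r; fin_cases r <;> rfl
  have e2 : ρ x + 3 + 3 = ρ x + 2 := by generalize ρ x = r; fin_cases r <;> rfl
  have n1 : ρ x + 2 ≠ ρ x + 1 := by generalize ρ x = r; fin_cases r <;> decide
  have n2 : ρ x + 3 ≠ ρ x + 1 := by generalize ρ x = r; fin_cases r <;> decide
  have n3 : ρ x ≠ ρ x + 1 := by generalize ρ x = r; fin_cases r <;> decide
  exact ⟨fun h => e1 ▸ hsg x _ n1 h, fun h => e2 ▸ hsg x _ n2 h, hsg x _ n3⟩

lemma rot_returns (s : V × (V → Fin 4)) (A : V → Fin 4 → Prop)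
    (hf : {e : V × Fin 4 | A e.1 e.2}.Finite)
    (hsy : ∀ x d, A x d → A (x + dir d) (d + 2))
    (hsg : ∀ x d, d ≠ s.2 x + 1 → A x d → A x (d + 3)) (h0 : A s.1 (s.2 s.1 + 1)) :
    ∃ t, 1 ≤ t ∧ pos s t = s.1 := by
  classical
  by_contra hcon
  push Not at hcon
  set e : ℕ → V × Fin 4 := fun t =>
    (pos s t, s.2 (pos s t) + Fin.ofNat 4 (cnt s t (pos s t)) + 1) with he
  have inj : ∀ u v, u < v → cnt s u (pos s u) ≤ 3 → cnt s v (pos s v) ≤ 3 → e u ≠ e v := by
    intro u v huv h1 h2 heq
    simp only [he, Prod.mk.injEq] at heq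
    obtain ⟨e1, e2⟩ := heq
    have h3 := cnt_mono s (show u + 1 ≤ v from huv) (pos s u)
    rw [cnt_succ, if_pos rfl] at h3
    rw [← e1] at e2 h2
    have e3 := add_left_cancel (add_right_cancel e2)
    have e4 := congrArg Fin.val e3
    simp only [Fin.val_ofNat] at e4
    omega
  have inv : ∀ t, ∀ u < t, cnt s u (pos s u) ≤ 3 ∧ A (e u).1 (e u).2 := by
    intro t
    induction t with
    | zero => intro u hu; omega
    | succ t ih =>
      intro u hu
      rcases Nat.lt_succ_iff_lt_or_eq.mp hu with hu | rfl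
      · exact ih u hu
      rcases Nat.eq_zero_or_pos u with rfl | hpos
      · exact ⟨by simp [cnt], by simpa [he, cnt, pos] using h0⟩
      have hx : pos s 0 ≠ pos s u := fun h => hcon u hpos h.symm
      have c1 : ((Finset.range u).filter (fun v => pos s (v + 1) = pos s u)).card =
          cnt s u (pos s u) + 1 := by
        have h1 := cnt_succ s u (pos s u)
        rw [if_pos rfl] at h1
        rw [← h1, Finset.card_filter, cnt, Finset.sum_range_succ', if_neg hx, add_zero]
      have c2 : ((Finset.range u).filter (fun v => pos s (v + 1) = pos s u)).card ≤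
          (Finset.univ.filter (A (pos s u))).card := by
        refine Finset.card_le_card_of_injOn (fun v => (e v).2 + 2) ?_ ?_
        · intro v hv
          obtain ⟨h1, h2⟩ := Finset.mem_filter.mp (Finset.mem_coe.mp hv)
          have h3 := hsy _ _ (ih v (Finset.mem_range.mp h1)).2
          rw [pos_succ] at h2
          simp only [he] at h3 ⊢
          rw [h2] at h3
          simpa using h3
        · intro v hv w hw hvw
          obtain ⟨h1, h2⟩ := Finset.mem_filter.mp (Finset.mem_coe.mp hv)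
          obtain ⟨k1, k2⟩ := Finset.mem_filter.mp (Finset.mem_coe.mp hw)
          have h3 : (e v).2 = (e w).2 := add_right_cancel hvw
          have h4 : e v = e w := by
            refine Prod.ext ?_ h3
            rw [pos_succ] at h2 k2
            have h5 : (e v).1 + dir (e v).2 = (e w).1 + dir (e w).2 := h2.trans k2.symm
            rw [h3] at h5
            exact add_right_cancel h5
          have iv := (ih v (Finset.mem_range.mp h1)).1
          have iw := (ih w (Finset.mem_range.mp k1)).1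
          rcases lt_trichotomy v w with h | h | h
          · exact absurd h4 (inj v w h iv iw)
          · exact h
          · exact absurd h4.symm (inj w v h iw iv)
      obtain ⟨s1, s2, s3⟩ := rot_seg A s.2 hsg (pos s u)
      exact init_seg _ _ s1 s2 s3 _ (c1 ▸ c2)
  have hinj : Injective e := by
    intro v w h4
    have iv := (inv (v + 1) v (by omega)).1
    have iw := (inv (w + 1) w (by omega)).1
    rcases lt_trichotomy v w with h | h | h
    · exact absurd h4 (inj v w h iv iw)
    · exact h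
    · exact absurd h4.symm (inj w v h iw iv)
  exact Set.infinite_of_injective_forall_mem hinj
    (fun t => (inv (t + 1) t (by omega)).2) hf

lemma rot_back {ρ : V → Fin 4} (h : AllFinN ρ) (x₀ : V) :
    ∃ t, 1 ≤ t ∧ pos (x₀, ρ) t = x₀ := by
  let S : Set Node := {v | Relation.ReflTransGen (Arc (gO ρ)) (x₀, ρ x₀ + 1, true) v}
  have hS : ∀ p q, Arc (gO ρ) p q → p ∈ S → q ∈ S := fun p q hpq hp =>
    Relation.ReflTransGen.tail hp hpq
  have lane : ∀ x d, (x, d, true) ∈ S → (x + dir d, d + 2, false) ∈ S := fun x d hp =>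
    hS _ _ (Or.inl ⟨rfl, rfl⟩) hp
  refine rot_returns (x₀, ρ) (fun x d => (x, d, true) ∈ S ∨ (x, d, false) ∈ S) ?_ ?_ ?_
    (Or.inl Relation.ReflTransGen.refl)
  · refine ((h (x₀, ρ x₀ + 1, true)).image fun v : Node => (v.1, v.2.1)).subset ?_
    rintro ⟨x, d⟩ (he | he)
    · exact ⟨_, he, rfl⟩
    · exact ⟨_, he, rfl⟩
  · rintro x d (he | he)
    · exact Or.inr (lane x d he)
    · rcases Relation.ReflTransGen.cases_tail he with h1 | ⟨⟨y, c, b⟩, h1, h2⟩
      · simp at h1
      · rcases h2 with ⟨rfl, h2⟩ | ⟨rfl, h2, -⟩ | ⟨-, h2, -⟩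
        · simp only [Prod.mk.injEq, and_true] at h2
          obtain ⟨rfl, rfl⟩ := h2
          have e : c + 2 + 2 = c := by fin_cases c <;> rfl
          rw [dir_rev, e]
          exact Or.inl h1
        · simp only [Prod.mk.injEq, and_true] at h2
          obtain ⟨rfl, rfl⟩ := h2
          exact Or.inr (lane _ _ h1)
        · simp at h2
  · intro x d hd he
    have hb : (x, d, false) ∈ S := by
      rcases he with he | he
      · exact hS _ _ (Or.inr (Or.inl ⟨rfl, rfl, rfl⟩)) he
      · exact he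
    refine Or.inl (hS _ _ (Or.inr (Or.inr ⟨rfl, rfl, ?_⟩)) hb)
    exact decide_eq_true hd

lemma rot_update {ρ : V → Fin 4} (h : AllFinN ρ) (x : V) (d : Fin 4) :
    AllFinN (update ρ x d) := by
  intro φ
  refine ((h φ).union (Set.finite_iUnion (fun c : Fin 4 × Bool => h (x, c)))).subset ?_
  intro q hq
  simp only [Set.mem_setOf_eq] at hq
  induction hq with
  | refl => exact Or.inl Relation.ReflTransGen.refl
  | @tail b c _ hs ih =>
    have ext : Arc (gO ρ) b c → c ∈ {v | Relation.ReflTransGen (Arc (gO ρ)) φ v} ∪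
        ⋃ k : Fin 4 × Bool, {v | Relation.ReflTransGen (Arc (gO ρ)) (x, k) v} := by
      intro hy
      rcases ih with ih | ih
      · exact Or.inl (Relation.ReflTransGen.tail ih hy)
      · obtain ⟨c', hc'⟩ := Set.mem_iUnion.mp ih
        exact Or.inr (Set.mem_iUnion.mpr ⟨c', Relation.ReflTransGen.tail hc' hy⟩)
    by_cases hxy : b.1 = x
    · rcases hs with hs | ⟨-, rfl, -⟩ | ⟨-, rfl, -⟩
      · exact ext (Or.inl hs)
      · rw [hxy]
        exact Or.inr (Set.mem_iUnion.mpr ⟨_, Relation.ReflTransGen.refl⟩)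
      · rw [hxy]
        exact Or.inr (Set.mem_iUnion.mpr ⟨_, Relation.ReflTransGen.refl⟩)
    · have e : gO (update ρ x d) b.1 = gO ρ b.1 := by
        unfold gO
        rw [update_of_ne hxy]
      refine ext ?_
      unfold Arc at hs ⊢
      rwa [e] at hs

lemma rot_iter {s : V × (V → Fin 4)} (h : AllFinN s.2) (t : ℕ) : AllFinN (step^[t] s).2 := by
  induction t with
  | zero => exact h
  | succ t ih => rw [iterate_succ_apply']; exact rot_update ih _ _

lemma rot_again {s : V × (V → Fin 4)} (h : AllFinN s.2) (t : ℕ) :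
    ∃ u, t < u ∧ pos s u = pos s t := by
  obtain ⟨u, h1, h2⟩ := rot_back (rot_iter h t) (step^[t] s).1
  refine ⟨u + t, by omega, ?_⟩
  unfold pos at *
  rw [iterate_add_apply]; exact h2

lemma rot_next {s : V × (V → Fin 4)} (h : AllFinN s.2) (t : ℕ) :
    ∃ u, t < u ∧ pos s u = pos s t ∧ cnt s u (pos s t) = cnt s t (pos s t) + 1 := by
  classical
  have ex := rot_again h t
  refine ⟨Nat.find ex, (Nat.find_spec ex).1, (Nat.find_spec ex).2, ?_⟩
  have key : ∀ v, t < v → v ≤ Nat.find ex → cnt s v (pos s t) = cnt s t (pos s t) + 1 := by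
    intro v hv
    induction v, hv using Nat.le_induction with
    | base => intro _; rw [cnt_succ, if_pos rfl]
    | succ v hv ih =>
      intro h2
      rw [cnt_succ, ih (by omega), if_neg, add_zero]
      exact fun h3 => Nat.find_min ex (show v < Nat.find ex by omega) ⟨hv, h3⟩
  exact key _ (Nat.find_spec ex).1 le_rfl

lemma rot_nbr {s : V × (V → Fin 4)} (h : AllFinN s.2) (x : V) (d : Fin 4)
    (hx : ∀ T, ∃ t, T ≤ t ∧ pos s t = x) : ∀ T, ∃ t, T ≤ t ∧ pos s t = x + dir d := by
  intro T
  obtain ⟨t, h1, h2⟩ := hx T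
  have key : ∀ j : ℕ, ∃ u, T ≤ u ∧ pos s u = x ∧ cnt s u x = cnt s t x + j := by
    intro j
    induction j with
    | zero => exact ⟨t, h1, h2, rfl⟩
    | succ j ih =>
      obtain ⟨u, k1, k2, k3⟩ := ih
      obtain ⟨v, j1, j2, j3⟩ := rot_next h u
      rw [k2] at j2 j3
      exact ⟨v, by omega, j2, by omega⟩
  obtain ⟨u, k1, k2, k3⟩ := key (d - (s.2 x + Fin.ofNat 4 (cnt s t x) + 1)).val
  refine ⟨u + 1, by omega, ?_⟩
  rw [pos_succ, k2, k3]
  congr 2
  generalize cnt s t x = k
  generalize s.2 x = r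
  have e : Fin.ofNat 4 (k + (d - (r + Fin.ofNat 4 k + 1)).val) =
      Fin.ofNat 4 k + (d - (r + Fin.ofNat 4 k + 1)) := by
    ext; simp [Fin.val_add]
  rw [e]; abel

theorem AllFinN.recurrent {ρ : V → Fin 4} (h : AllFinN ρ) (x : V) (T : ℕ) :
    ∃ t, T ≤ t ∧ walk ρ t = x := by
  have h' : AllFinN ((0, ρ) : V × (V → Fin 4)).2 := h
  have h0 : ∀ T, ∃ t, T ≤ t ∧ pos (0, ρ) t = 0 := by
    intro T
    induction T with
    | zero => exact ⟨0, le_rfl, rfl⟩
    | succ T ih =>
      obtain ⟨t, h1, h2⟩ := ih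
      obtain ⟨u, k1, k2⟩ := rot_again h' t
      exact ⟨u, by omega, k2.trans h2⟩
  have h1 : ∀ a : ℤ, ∀ T, ∃ t, T ≤ t ∧ pos (0, ρ) t = (a, 0) := by
    intro a
    induction a using Int.induction_on with
    | zero => exact h0
    | succ a ih => simpa [dir] using rot_nbr h' _ 1 ih
    | pred a ih => simpa [dir, sub_eq_add_neg] using rot_nbr h' _ 3 ih
  have h2 : ∀ a b : ℤ, ∀ T, ∃ t, T ≤ t ∧ pos (0, ρ) t = (a, b) := by
    intro a b
    induction b using Int.induction_on with
    | zero => exact h1 a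
    | succ b ih => simpa [dir] using rot_nbr h' _ 0 ih
    | pred b ih => simpa [dir, sub_eq_add_neg] using rot_nbr h' _ 2 ih
  exact h2 x.1 x.2 T

end Pool.Agent.FS.RotorSym
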