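import Pool.Agent.FS.RotorSym.Pb

set_option autoImplicit false
set_option linter.unusedSectionVars false
set_option linter.deprecated false
set_option linter.unusedVariables false

namespace Pool.Agent.FS.RotorSym

open Pool.Agent.Lib.MP_9d2e01_pr MeasureTheory Function

section general

variable {ι : Type} [DecidableEq ι]

/-- The coordinates named in `G` copy their partner. -/
def syHyb (π : ι → ι) (G : Finset ι) (b : ι → Bool) : ι → Bool :=
  fun k => if k ∈ G then b (π k) else b k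

lemma sy_loc {A : Set (ι → Bool)} (h : Loc A) (π : ι → ι) (G : Finset ι) :
    Loc {b | syHyb π G b ∈ A} := by
  obtain ⟨F, hF⟩ := h
  refine ⟨F ∪ F.image π, fun ω ω' hω hA => hF _ _ (fun k hk => ?_) hA⟩
  have hk' := Finset.mem_coe.mp hk
  simp only [syHyb]
  rw [hω k (Finset.mem_coe.mpr (Finset.mem_union_left _ hk')), hω (π k) (Finset.mem_coe.mpr
    (Finset.mem_union_right _ (Finset.mem_image_of_mem π hk')))]

lemma sy_step (p : ι → unitInterval) {A : Set (ι → Bool)} (hl : Loc A) (hu : Up A) {π : ι → ι}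
    {G : Finset ι} {m : ι} (hm : m ∉ G) (h1 : π m ≠ m) (h2 : π m ∉ G)
    (h3 : ∀ k ∈ G, π k ≠ m ∧ π k ≠ π m) (hp : p (π m) = p m)
    (hs : ∀ η : ι → Bool, update η (π m) true ∈ A → update η m true ∈ A → η ∈ A) :
    pp p {b | syHyb π G b ∈ A} ≤ pp p {b | syHyb π (insert m G) b ∈ A} := by
  set W : Bool → Bool → Set (ι → Bool) := fun x y =>
    {b | update (update (syHyb π G b) (π m) x) m y ∈ A} with hW
  have u1 : ∀ (b : ι → Bool) (x y : Bool), syHyb π G (update (update b m y) (π m) x) =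
      update (update (syHyb π G b) (π m) x) m y := by
    intro b x y
    funext k
    by_cases a1 : k = m
    · subst a1; simp [syHyb, hm, update_of_ne h1.symm]
    · by_cases a2 : k = π m
      · subst a2; simp [syHyb, h2, update_of_ne h1]
      · by_cases a3 : k ∈ G
        · simp [syHyb, a3, update_of_ne a1, update_of_ne a2, update_of_ne (h3 k a3).1,
            update_of_ne (h3 k a3).2]
        · simp [syHyb, a3, update_of_ne a1, update_of_ne a2]
  have u2 : ∀ (b : ι → Bool) (x y : Bool),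
      syHyb π (insert m G) (update (update b m y) (π m) x) =
      update (update (syHyb π G b) (π m) x) m x := by
    intro b x y
    funext k
    by_cases a1 : k = m
    · subst a1; simp [syHyb]
    · by_cases a2 : k = π m
      · subst a2; simp [syHyb, h2, h1]
      · by_cases a3 : k ∈ G
        · simp [syHyb, a3, update_of_ne a1, update_of_ne a2, update_of_ne (h3 k a3).1,
            update_of_ne (h3 k a3).2]
        · simp [syHyb, a3, a1, update_of_ne a2]
  have e1 : ∀ x y, sec (sec {b | syHyb π G b ∈ A} (π m) x) m y = W x y := by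
    intro x y; ext b
    simp only [sec, hW, Set.mem_setOf_eq, u1]
  have e2 : ∀ x y, sec (sec {b | syHyb π (insert m G) b ∈ A} (π m) x) m y = W x x := by
    intro x y; ext b
    simp only [sec, hW, Set.mem_setOf_eq, u2]
  have l1 := sy_loc hl π G
  have l2 := sy_loc hl π (insert m G)
  have lw : Loc (W false true) := by rw [← e1]; exact (l1.sec _ _).sec _ _
  have k1 := pp_union_add_inter p (W true false) lw
  have k2 : W true false ∪ W false true ⊆ W true true := by
    rintro b (hb | hb) <;> refine hu _ _ (fun k => ?_) hb <;>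
      simp only [update_apply] <;> split_ifs <;> simp
  have k3 : W true false ∩ W false true ⊆ W false false := by
    rintro b ⟨hb1, hb2⟩
    refine hs _ ?_ ?_
    · have e : update (update (update (syHyb π G b) (π m) false) m false) (π m) true =
          update (update (syHyb π G b) (π m) true) m false := by
        rw [update_comm h1.symm, update_idem]
      rw [e]; exact hb1
    · rw [update_idem]; exact hb2
  have k4 := pp_mono p k2
  have k5 := pp_mono p k3
  rw [pp_split p l1 (π m), pp_split p (l1.sec _ true) m, pp_split p (l1.sec _ false) m,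
    pp_split p l2 (π m), pp_split p (l2.sec _ true) m, pp_split p (l2.sec _ false) m]
  simp only [e1, e2, hp]
  have q0 : 0 ≤ (p m : ℝ) * (1 - p m) := mul_nonneg (p m).2.1 (sub_nonneg.2 (p m).2.2)
  have q1 : 0 ≤ pp p (W true true) + pp p (W false false) - pp p (W true false) -
    pp p (W false true) := by linarith
  nlinarith [mul_nonneg q0 q1]

lemma sy_le (p : ι → unitInterval) {A : Set (ι → Bool)} (hl : Loc A) (hu : Up A) {π : ι → ι}
    {B : Set ι} (h1 : ∀ k ∈ B, π k ∉ B) (h2 : ∀ k ∈ B, ∀ k' ∈ B, π k = π k' → k = k')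
    (hp : ∀ k ∈ B, p (π k) = p k)
    (hs : ∀ m ∈ B, ∀ η : ι → Bool, update η (π m) true ∈ A → update η m true ∈ A → η ∈ A)
    (G : Finset ι) : (∀ k ∈ G, k ∈ B) → pp p A ≤ pp p {b | syHyb π G b ∈ A} := by
  induction G using Finset.induction_on with
  | empty =>
    intro _
    refine le_of_eq (congrArg (pp p) ?_)
    ext b
    have : syHyb π ∅ b = b := by funext k; simp [syHyb]
    simp [this]
  | insert m G hm ih =>
    intro hG
    have hmB : m ∈ B := hG m (Finset.mem_insert_self _ _)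
    have hGB : ∀ k ∈ G, k ∈ B := fun k hk => hG k (Finset.mem_insert_of_mem hk)
    refine (ih hGB).trans (sy_step p hl hu hm (fun e => h1 m hmB (e.symm ▸ hmB))
      (fun e => h1 m hmB (hGB _ e)) (fun k hk => ⟨fun e => h1 k (hGB k hk) (e.symm ▸ hmB),
        fun e => hm (h2 k (hGB k hk) m hmB e ▸ hk)⟩) (hp m hmB) (hs m hmB))

end general

lemma sy_fin {β : Type} [Finite β] (n : ℕ) : {k : V × β | k.1 ∈ Q n}.Finite :=
  ((Rect.finite (-(n : ℤ)) n (-(n : ℤ)) n).prod (Set.finite_univ (α := β))).subset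
    fun k hk => ⟨hk, trivial⟩

lemma sy_near {n : ℕ} {x y : V} (hx : x ∈ Q (n + 1)) (h1 : |y.1 - x.1| ≤ 1)
    (h2 : |y.2 - x.2| ≤ 1) : y ∈ Q (n + 2) := by
  simp only [Q, Rect, Set.mem_setOf_eq, abs_le] at *
  push_cast at *
  omega

lemma sy_one {n : ℕ} {x : V} (hx : x ∈ Q 1) : x ∈ Q (n + 1) := by
  simp only [Q, Rect, Set.mem_setOf_eq] at *
  push_cast at *
  omega

lemma sy_dmono {n : ℕ} {ω ω' : KK → Bool}
    (h : ∀ k : KK, k.1 ∈ Q (n + 2) → ω k = true → ω' k = true) (hA : ω ∈ DOut n) :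
    ω' ∈ DOut n := by
  obtain ⟨a, ha, b, hb, h0, hr⟩ := hA
  have s0 : ∀ x ∈ Q (n + 1), x ∈ Q (n + 2) := fun x hx => sy_near hx (by simp) (by simp)
  refine ⟨a, ha, b, hb, h _ (s0 _ (sy_one ha)) h0, rtg_mono (fun x z hs => ?_) hr⟩
  obtain ⟨a1, a2, a3, a4, a5⟩ := hs
  refine ⟨a1, a2, h _ (s0 _ a1) a3, h _ (s0 _ a2) a4, a5.imp id ?_⟩
  rintro ⟨y, d, b1, b2, b3⟩
  refine ⟨y, d, b1, b2, h _ (sy_near (y := y) a1 ?_ ?_) b3⟩ <;> rw [b1] <;> fin_cases d <;>
    simp [dir]

lemma sy_dloc (n : ℕ) : Loc (DOut n) :=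
  Loc.of_finite (S := {k : KK | k.1 ∈ Q (n + 2)})
    (fun ω ω' h hA => sy_dmono (fun k hk e => h k hk ▸ e) hA) (sy_fin _)

lemma sy_oloc (n : ℕ) : Loc (Out 1 n) := by
  refine Loc.of_finite (S := {k : JJ | k.1 ∈ Q (n + 2)}) (fun ω ω' h hA => ?_) (sy_fin _)
  obtain ⟨a, ha, b, hb, hR, h0, hr⟩ := hA
  have s0 : ∀ x ∈ Q (n + 1), x ∈ Q (n + 2) := fun x hx => sy_near hx (by simp) (by simp)
  have s1 : ∀ x ∈ Q (n + 1), x + (-1, 0) ∈ Q (n + 2) :=
    fun x hx => sy_near hx (by simp) (by simp)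
  refine ⟨a, ha, b, hb, hR, h (a, 0) (s0 _ hR) ▸ h0, rtg_mono (fun x z hs => ?_) hr⟩
  obtain ⟨a1, a2, a3, a4, a5⟩ := hs
  refine ⟨a1, a2, h (x, 0) (s0 _ a1) ▸ a3, h (z, 0) (s0 _ a2) ▸ a4, ?_⟩
  unfold adj at a5 ⊢
  rw [← h (x, 1) (s0 _ a1), ← h (z, 1) (s0 _ a2), ← h (x + (-1, 0), 2) (s1 _ a1),
    ← h (z + (-1, 0), 2) (s1 _ a2)]
  exact a5

lemma sy_extra {η : KK → Bool} {R : Set V} {y : V} {d : Fin 4} {a b : V}
    (h : Relation.ReflTransGen (DStp (update η (y, Sum.inr d) true) R) a b) :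
    Relation.ReflTransGen (DStp η R) a b ∨ (Relation.ReflTransGen (DStp η R) a (y + dir d) ∧
      Relation.ReflTransGen (DStp η R) (y + dir (d + 3)) b) := by
  induction h with
  | refl => exact Or.inl Relation.ReflTransGen.refl
  | @tail x z _ hs ih =>
    have key : DStp η R x z ∨ (x = y + dir d ∧ z = y + dir (d + 3)) := by
      obtain ⟨a1, a2, a3, a4, a5⟩ := hs
      rw [update_of_ne (by simp)] at a3 a4
      rcases a5 with a5 | ⟨y', d', b1, b2, b3⟩
      · exact Or.inl ⟨a1, a2, a3, a4, Or.inl a5⟩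
      · by_cases e : ((y', Sum.inr d') : KK) = (y, Sum.inr d)
        · obtain ⟨e1, e2⟩ := Prod.mk.inj e
          have e3 := Sum.inr.inj e2
          subst e1 e3
          exact Or.inr ⟨b1, b2⟩
        · rw [update_of_ne e] at b3
          exact Or.inl ⟨a1, a2, a3, a4, Or.inr ⟨y', d', b1, b2, b3⟩⟩
    rcases key with k | ⟨k1, k2⟩
    · exact ih.imp (fun i => i.tail k) (fun i => ⟨i.1, i.2.tail k⟩)
    · rcases ih with i | i
      · exact Or.inr ⟨k1 ▸ i, k2 ▸ Relation.ReflTransGen.refl⟩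
      · exact Or.inr ⟨i.1, k2 ▸ Relation.ReflTransGen.refl⟩

lemma sy_super {n : ℕ} {η : KK → Bool} {y y' : V} {d d' : Fin 4}
    (e : y + dir (d + 3) = y' + dir d') (h : update η (y, Sum.inr d) true ∈ DOut n)
    (h' : update η (y', Sum.inr d') true ∈ DOut n) : η ∈ DOut n := by
  obtain ⟨a, ha, b, hb, h0, hr⟩ := h
  obtain ⟨a', ha', b', hb', h0', hr'⟩ := h'
  rw [update_of_ne (by simp)] at h0 h0'
  rcases sy_extra hr with i | i
  · exact ⟨a, ha, b, hb, h0, i⟩
  rcases sy_extra hr' with j | j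
  · exact ⟨a', ha', b', hb', h0', j⟩
  exact ⟨a', ha', b, hb, h0', j.1.trans (e ▸ i.2)⟩

/-- The opposite arc on the same diagonal. -/
def syPi (k : KK) : KK :=
  if k.2 = Sum.inr 0 then (k.1 + (-1, 1), Sum.inr 2) else (k.1 + (-1, -1), Sum.inr 1)

/-- The bit of the directed model that is read for a bit of the site model. -/
def syRd (k : JJ) : KK :=
  if k.2 = 0 then (k.1, Sum.inl 2) else if k.2 = 1 then (k.1 + (0, 1), Sum.inr 2)
  else (k.1, Sum.inr 1)

lemma syRd_inj : Injective syRd := by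
  rintro ⟨x, i⟩ ⟨z, j⟩ h
  fin_cases i <;> fin_cases j <;> simp [syRd] at h ⊢ <;> exact h

lemma sy_read {n : ℕ} {b η : KK → Bool} (g0 : ∀ x, η (x, Sum.inl 2) = b (x, Sum.inl 2))
    (g1 : ∀ x, η (x, Sum.inr 1) = b (x, Sum.inr 1)) (g2 : ∀ x, η (x, Sum.inr 2) = b (x, Sum.inr 2))
    (g3 : ∀ x, η (x, Sum.inr 0) = b (x + (-1, 1), Sum.inr 2))
    (g4 : ∀ x, η (x, Sum.inr 3) = b (x + (-1, -1), Sum.inr 1)) (h : η ∈ DOut n) :
    (fun k => xor false (b (syRd k))) ∈ Out 1 n := by
  have r0 : ∀ x, syRd (x, 0) = (x, Sum.inl 2) := fun x => by simp [syRd]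
  have r1 : ∀ x, syRd (x, 1) = (x + (0, 1), Sum.inr 2) := fun x => by simp [syRd]
  have r2 : ∀ x, syRd (x, 2) = (x, Sum.inr 1) := fun x => by simp [syRd]
  obtain ⟨a, ha, c, hc, h0, hr⟩ := h
  refine ⟨a, ha, c, hc, sy_one ha, by simpa [r0, g0] using h0, rtg_mono (fun x z hs => ?_) hr⟩
  obtain ⟨a1, a2, a3, a4, a5⟩ := hs
  refine ⟨a1, a2, by simpa [r0, g0] using a3, by simpa [r0, g0] using a4, ?_⟩
  rcases a5 with a5 | ⟨y, d, b1, b2, b3⟩
  · exact Or.inl a5
  right
  simp only [Bool.false_xor, r1, r2]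
  obtain ⟨y1, y2⟩ := y
  have hd : d = 0 ∨ d = 1 ∨ d = 2 ∨ d = 3 := by fin_cases d <;> simp
  rcases hd with rfl | rfl | rfl | rfl
  · rw [g3] at b3
    have c1 : x = (y1, y2 + 1) := by rw [b1]; simp [dir]
    have c2 : z = (y1 + -1, y2) := by rw [b2]; simp [dir]
    subst c1 c2
    refine Or.inr (Or.inl ⟨by simp, ?_⟩)
    simpa using b3
  · rw [g1] at b3
    have c1 : x = (y1 + 1, y2) := by rw [b1]; simp [dir]
    have c2 : z = (y1, y2 + 1) := by rw [b2]; simp [dir]
    subst c1 c2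
    refine Or.inr (Or.inr (Or.inl ⟨by simp, ?_⟩))
    simpa using b3
  · rw [g2] at b3
    have c1 : x = (y1, y2 + -1) := by rw [b1]; simp [dir]
    have c2 : z = (y1 + 1, y2) := by rw [b2]; simp [dir]
    subst c1 c2
    refine Or.inl ⟨by simp, ?_⟩
    simpa using b3
  · rw [g4] at b3
    have c1 : x = (y1 + -1, y2) := by rw [b1]; simp [dir]
    have c2 : z = (y1, y2 + -1) := by rw [b2]; simp [dir]
    subst c1 c2
    refine Or.inr (Or.inr (Or.inr ⟨by simp, ?_⟩))
    simpa using b3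

/-- Independent opposite arcs escape less often than undirected diagonals. -/
theorem sy (θ : unitInterval) (n : ℕ) : pp (parK θ) (DOut n) ≤ pp (parJ θ) (Out 1 n) := by
  classical
  obtain ⟨F, hF⟩ := sy_dloc n
  set B : Set KK := {k | k.2 = Sum.inr 0 ∨ k.2 = Sum.inr 3} with hB
  have p0 : ∀ y : V, syPi (y, Sum.inr 0) = (y + (-1, 1), Sum.inr 2) := fun y => by simp [syPi]
  have p3 : ∀ y : V, syPi (y, Sum.inr 3) = (y + (-1, -1), Sum.inr 1) := fun y => by simp [syPi]
  have h := sy_le (parK θ) (sy_dloc n) (fun ω ω' h hA => sy_dmono (fun k _ => h k) hA)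
    (π := syPi) (B := B) ?_ ?_ ?_ ?_ (F.filter (· ∈ B)) (fun k hk => (Finset.mem_filter.1 hk).2)
  · refine h.trans ?_
    rw [← pp_map (parK θ) (parJ θ) syRd_inj (fun _ => false) ?_ (sy_oloc n)]
    · refine pp_mono _ (fun b hb => ?_)
      refine sy_read (η := fun k => if k ∈ B then b (syPi k) else b k) ?_ ?_ ?_ ?_ ?_
        (hF _ _ (fun k hk => ?_) hb)
      · intro x; simp [hB]
      · intro x; simp [hB]
      · intro x; simp [hB]
      · intro x; simp [hB, p0]
      · intro x; simp [hB, p3]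
      · simp only [syHyb, Finset.mem_filter, Finset.mem_coe.mp hk, true_and]
    · rintro ⟨x, i⟩
      fin_cases i <;> simp [parJ, parK, syRd]
  · rintro ⟨y, i⟩ (hk | hk) <;> simp only at hk <;> subst hk <;> simp [hB, p0, p3]
  · rintro ⟨y, i⟩ (hk | hk) ⟨z, j⟩ (hk' | hk') <;> simp only at hk hk' <;> subst hk hk' <;>
      simp [p0, p3]
  · rintro ⟨y, i⟩ (hk | hk) <;> simp only at hk <;> subst hk <;> simp [p0, p3, parK]
  · rintro ⟨⟨y1, y2⟩, i⟩ (hk | hk) η h1 h2 <;> simp only at hk <;> subst hk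
    · rw [p0] at h1
      exact sy_super (by simp [dir]) h1 h2
    · rw [p3] at h1
      exact sy_super (by simp [dir]) h1 h2

end Pool.Agent.FS.RotorSym
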