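import Pool.Agent.FS.RotorSym.Amp
import Pool.Agent.FS.RotorSym.Arms
import Pool.Agent.FS.RotorSym.Piv
import Pool.Agent.FS.RotorSym.Cmp
import Pool.Agent.FS.RotorSym.Red
import Pool.Agent.FS.RotorSym.Sy
import Pool.Agent.FS.RotorSym.Rot

set_option autoImplicit false
set_option linter.unusedSectionVars false
set_option linter.deprecated false
set_option linter.unusedVariables false

namespace Pool.Agent.FS.RotorSym

open Pool.Agent.Lib.MP_9d2e01_pr MeasureTheory Function

theorem esc_small (θ : unitInterval) (d : Fin 4) {ε : ℝ} (hε : 0 < ε) :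
    ∃ n, pp (parK θ) {ω | Esc (gO (rot ω)) d n} ≤ ε := by
  by_contra hc
  push Not at hc
  have h1 : ∀ n, 1 ≤ n → ε ≤ pp (parJ θ) (Out 1 n) := fun n hn =>
    ((hc (n + 1)).le.trans (cmp θ d (n + 1))).trans
      ((pp_mono _ fun ω hω => red hn hω).trans (sy θ n))
  obtain ⟨k, hk⟩ := arms θ (fun e he => amp θ hε h1 he) (δ := 1 / 8) (by norm_num)
  refine piv θ k fun K => ?_
  obtain ⟨N, a, b⟩ := hk K
  exact ⟨N, a, fun L hL => by have := b L hL; linarith⟩

/-- A rotor from two bits. -/
def fin_enc (w : Bool → Bool) : Fin 4 :=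
  if w true then (if w false then 0 else 2) else (if w false then 1 else 3)

/-- The two bits of a site that give the rotor. -/
def fin_loc (k : V × Bool) : KK := (k.1, Sum.inl (if k.2 then 0 else 1))

lemma fin_loc_inj : Injective fin_loc := by
  rintro ⟨a, c⟩ ⟨a', c'⟩ h
  cases c <;> cases c' <;> simp [fin_loc] at h ⊢ <;> exact h

lemma fin_ber_true (p : unitInterval) : ber p {true} = ENNReal.ofReal p := by
  simp [ber]

lemma fin_ber_false (p : unitInterval) : ber p {false} = ENNReal.ofReal (1 - p) := by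
  simp [ber]

lemma fin_enc_map (ν : Measure (Fin 4)) [IsProbabilityMeasure ν] (θ : unitInterval)
    (h0 : ν.real {0} = θ / 2) (h2 : ν.real {2} = θ / 2) (h1 : ν.real {1} = (1 - θ) / 2)
    (h3 : ν.real {3} = (1 - θ) / 2) (y : V) :
    (Measure.infinitePi (fun c : Bool => ber (parK θ (fin_loc (y, c))))).map fin_enc = ν := by
  apply Measure.ext_of_singleton
  intro d
  rw [Measure.map_apply (measurable_of_finite _) (MeasurableSet.singleton d)]
  have h : fin_enc ⁻¹' {d} =
      {fun c => if c then decide (d = 0 ∨ d = 2) else decide (d = 0 ∨ d = 1)} := by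
    ext w
    simp only [Set.mem_preimage, Set.mem_singleton_iff, funext_iff, Bool.forall_bool, fin_enc]
    fin_cases d <;> cases w true <;> cases w false <;> simp
  have e1 : parK θ (fin_loc (y, true)) = θ := rfl
  have e2 : parK θ (fin_loc (y, false)) = hf := rfl
  have e3 : ((hf : unitInterval) : ℝ) = 1 / 2 := rfl
  have p0 : (0 : ℝ) ≤ θ := θ.2.1
  have p1 : (0 : ℝ) ≤ 1 - θ := sub_nonneg.2 θ.2.2
  rw [h, Measure.infinitePi_singleton_of_fintype, Fintype.prod_bool, e1, e2,
    ← ofReal_measureReal (μ := ν) (s := {d})]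
  fin_cases d
  · show ber θ {true} * ber hf {true} = ENNReal.ofReal (ν.real {0})
    rw [fin_ber_true, fin_ber_true, ← ENNReal.ofReal_mul p0, h0, e3]
    congr 1; ring
  · show ber θ {false} * ber hf {true} = ENNReal.ofReal (ν.real {1})
    rw [fin_ber_false, fin_ber_true, ← ENNReal.ofReal_mul p1, h1, e3]
    congr 1; ring
  · show ber θ {true} * ber hf {false} = ENNReal.ofReal (ν.real {2})
    rw [fin_ber_true, fin_ber_false, ← ENNReal.ofReal_mul p0, h2, e3]
    congr 1; ring
  · show ber θ {false} * ber hf {false} = ENNReal.ofReal (ν.real {3})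
    rw [fin_ber_false, fin_ber_false, ← ENNReal.ofReal_mul p1, h3, e3]
    congr 1; ring

lemma fin_rot_eq : rot = (fun (x : V → Bool → Bool) i => fin_enc (x i)) ∘
    (MeasurableEquiv.curry V Bool Bool) ∘ (fun (ω : KK → Bool) k => ω (fin_loc k)) := rfl

lemma fin_rot_meas : Measurable rot := by
  rw [fin_rot_eq]
  exact (measurable_pi_lambda _ fun i =>
    (measurable_of_finite fin_enc).comp (measurable_pi_apply i)).comp
    ((MeasurableEquiv.measurable _).comp (by fun_prop))

lemma fin_rot_map (ν : Measure (Fin 4)) [IsProbabilityMeasure ν] (θ : unitInterval)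
    (h0 : ν.real {0} = θ / 2) (h2 : ν.real {2} = θ / 2) (h1 : ν.real {1} = (1 - θ) / 2)
    (h3 : ν.real {3} = (1 - θ) / 2) :
    (mup (parK θ)).map rot = Measure.infinitePi (fun _ : V => ν) := by
  have a1 : (mup (parK θ)).map (fun ω k => ω (fin_loc k)) =
      Measure.infinitePi (fun k : V × Bool => ber (parK θ (fin_loc k))) :=
    Measure.map_infinitePi_infinitePi_of_inj fin_loc_inj
  have a2 := Measure.infinitePi_map_curry
    (fun (y : V) (c : Bool) => ber (parK θ (fin_loc (y, c))))
  have a3 := Measure.infinitePi_map_pi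
    (fun y : V => Measure.infinitePi (fun c : Bool => ber (parK θ (fin_loc (y, c)))))
    (f := fun _ => fin_enc) (fun _ => measurable_of_finite _)
  have m1 : Measurable (fun (x : V → Bool → Bool) i => fin_enc (x i)) :=
    measurable_pi_lambda _ (fun i => (measurable_of_finite fin_enc).comp (measurable_pi_apply i))
  have m2 : Measurable (fun (ω : KK → Bool) k => ω (fin_loc k)) := by fun_prop
  rw [fin_rot_eq, ← Measure.map_map m1 ((MeasurableEquiv.measurable _).comp m2),
    ← Measure.map_map (MeasurableEquiv.measurable _) m2, a1, a2, a3]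
  simp only [fin_enc_map ν θ h0 h2 h1 h3]

lemma fin_esc_loc (d : Fin 4) (n : ℕ) : Loc {ρ : V → Fin 4 | Esc (gO ρ) d n} := by
  refine Loc.of_finite (S := Q n) ?_ (Rect.finite _ _ _ _)
  rintro ρ ρ' h ⟨v, h1, h2⟩
  refine ⟨v, h1, rtg_mono (fun a b hab => ⟨hab.1, ?_⟩) h2⟩
  have e : gO ρ a.1 = gO ρ' a.1 := by
    show orig (ρ a.1 + 1) = orig (ρ' a.1 + 1)
    rw [h a.1 hab.1]
  have := hab.2
  unfold Arc at this ⊢
  rwa [← e]

lemma fin_esc_of_infinite {ρ : V → Fin 4} {x : V} {d : Fin 4}
    (h : ¬ {v | Relation.ReflTransGen (Arc (gO ρ)) (x, d, true) v}.Finite) (n : ℕ) :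
    Esc (gO fun y => ρ (y + x)) d n := by
  have sh : ∀ v : Node, Relation.ReflTransGen (Arc (gO ρ)) (x, d, true) v →
      Relation.ReflTransGen (Arc (gO fun y => ρ (y + x))) ((0 : V), d, true) (v.1 - x, v.2) := by
    intro v hv
    induction hv with
    | refl => rw [sub_self]
    | @tail a b _ hs ih =>
      refine ih.tail ?_
      have e : gO (fun y => ρ (y + x)) (a.1 - x) = gO ρ a.1 := by
        show orig (ρ (a.1 - x + x) + 1) = orig (ρ a.1 + 1)
        rw [sub_add_cancel]
      rcases hs with ⟨k1, rfl⟩ | ⟨k1, rfl, k2⟩ | ⟨k1, rfl, k2⟩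
      · exact Or.inl ⟨k1, Prod.ext (add_sub_right_comm _ _ _) rfl⟩
      · exact Or.inr (Or.inl ⟨k1, rfl, by rw [← e] at k2; exact k2⟩)
      · exact Or.inr (Or.inr ⟨k1, rfl, by rw [← e] at k2; exact k2⟩)
  have ex : ∃ v : Node, Relation.ReflTransGen (Arc (gO ρ)) (x, d, true) v ∧ v.1 - x ∉ Q n := by
    by_contra hc
    push Not at hc
    refine h ((((Rect.finite _ _ _ _ : (Q n).Finite).image (fun z => z + x)).prod
      (Set.finite_univ (α := Fin 4 × Bool))).subset ?_)
    intro v hv
    exact ⟨⟨v.1 - x, hc v hv, sub_add_cancel _ _⟩, Set.mem_univ _⟩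
  obtain ⟨v, h1, h2⟩ := ex
  have h0 : (0 : V) ∈ Q n := by
    simp only [Q, Rect, Set.mem_setOf_eq, Prod.fst_zero, Prod.snd_zero]; omega
  obtain ⟨w, w', k1, k2, k3, k4⟩ := rtg_exit (Q := {u : Node | u.1 ∈ Q n}) (sh v h1) h0 h2
  exact ⟨w', k3, (rtg_mono (fun a b hab => ⟨hab.2.1, hab.1⟩) k1).tail ⟨k2, k4⟩⟩

theorem ae_allFinN (ν : Measure (Fin 4)) [IsProbabilityMeasure ν] (h1 : ν {0} = ν {2})
    (h2 : ν {1} = ν {3}) : ∀ᵐ ρ ∂(Measure.infinitePi (fun _ : V => ν)), AllFinN ρ := by
  have s1 : ν.real {0} = ν.real {2} := by unfold Measure.real; rw [h1]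
  have s2 : ν.real {1} = ν.real {3} := by unfold Measure.real; rw [h2]
  have s3 : ν.real {0} + ν.real {1} + ν.real {2} + ν.real {3} = 1 := by
    have := sum_measureReal_singleton (μ := ν) (Finset.univ : Finset (Fin 4))
    rw [Fin.sum_univ_four, Finset.coe_univ, probReal_univ] at this
    exact this
  have n0 : 0 ≤ ν.real {0} := measureReal_nonneg
  have n1 : 0 ≤ ν.real {1} := measureReal_nonneg
  let θ : unitInterval := ⟨2 * ν.real {0}, by linarith, by linarith⟩
  have eθ : (θ : ℝ) = 2 * ν.real {0} := rfl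
  have hmap := fin_rot_map ν θ (by rw [eθ]; ring) (by rw [eθ]; linarith) (by rw [eθ]; linarith)
    (by rw [eθ]; linarith)
  have key : ∀ (x : V) (d : Fin 4), ∀ᵐ ρ ∂(Measure.infinitePi (fun _ : V => ν)),
      {v | Relation.ReflTransGen (Arc (gO ρ)) (x, d, true) v}.Finite := by
    intro x d
    rw [ae_iff]
    refine (measureReal_eq_zero_iff (measure_ne_top _ _)).mp
      (le_antisymm (le_of_forall_pos_le_add fun ε hε => ?_) measureReal_nonneg)
    obtain ⟨n, hn⟩ := esc_small θ d hε
    rw [zero_add]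
    refine le_trans ?_ hn
    have hm := (fin_esc_loc d n).measurableSet
    have b1 : (Measure.infinitePi (fun _ : V => ν)).map (fun ρ y => ρ (y + x)) =
        Measure.infinitePi (fun _ : V => ν) :=
      Measure.map_infinitePi_infinitePi_of_inj (add_left_injective x)
    have b2 : pp (parK θ) {ω | Esc (gO (rot ω)) d n} =
        (Measure.infinitePi (fun _ : V => ν)).real {ρ : V → Fin 4 | Esc (gO ρ) d n} := by
      rw [← hmap, map_measureReal_apply fin_rot_meas hm]
      rfl
    rw [b2]
    conv_rhs => rw [← b1, map_measureReal_apply (by fun_prop) hm]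
    exact measureReal_mono fun ρ hρ => fin_esc_of_infinite hρ n
  filter_upwards [ae_all_iff.2 fun x => ae_all_iff.2 (key x)] with ρ hρ
  rintro ⟨x, d, b⟩
  cases b
  · refine ((hρ x (d + 3)).insert (x, d, false)).subset fun v hv => ?_
    rcases Relation.ReflTransGen.cases_head hv with e | ⟨c, k1, k2⟩
    · exact Or.inl e.symm
    · rcases k1 with ⟨k, -⟩ | ⟨k, -⟩ | ⟨-, rfl, -⟩
      · exact absurd k Bool.false_ne_true
      · exact absurd k Bool.false_ne_true
      · exact Or.inr k2
  · exact hρ x d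

end Pool.Agent.FS.RotorSym
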