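import Pool.Agent.FS.RotorSym.Defs

set_option autoImplicit false
set_option linter.unusedSectionVars false
set_option linter.deprecated false
set_option linter.unusedVariables false

namespace Pool.Agent.FS.RotorSym

open Pool.Agent.Lib.MP_9d2e01_pr MeasureTheory Function

/-- Potential of the edge from `c` to `c + α`. -/
def pinchH (c α : V) (u v : ℤ) : ℤ :=
  (if α.1 = 1 ∧ u = c.1 ∧ c.2 ≤ v then 1 else 0) -
    (if α.1 = -1 ∧ u = c.1 - 1 ∧ c.2 ≤ v then 1 else 0)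

lemma pinch_dir (d : Fin 4) : ((dir d).1 = 0 ∧ (dir d).2 = 1 ∧ d = 0) ∨
    ((dir d).1 = 1 ∧ (dir d).2 = 0 ∧ d = 1) ∨ ((dir d).1 = 0 ∧ (dir d).2 = -1 ∧ d = 2) ∨
    ((dir d).1 = -1 ∧ (dir d).2 = 0 ∧ d = 3) := by
  revert d; decide

lemma pinch_hor (c : V) (d : Fin 4) (u v : ℤ) :
    pinchH c (dir d) u v - pinchH c (dir d) u (v - 1) =
      (if d = 1 ∧ u = c.1 ∧ v = c.2 then 1 else 0) -
        (if d = 3 ∧ u = c.1 - 1 ∧ v = c.2 then 1 else 0) := by
  unfold pinchH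
  rcases pinch_dir d with ⟨h1, h2, rfl⟩ | ⟨h1, h2, rfl⟩ | ⟨h1, h2, rfl⟩ | ⟨h1, h2, rfl⟩ <;>
    rw [h1] <;>
    simp only [Fin.reduceEq, Int.reduceEq, Int.reduceNeg, false_and, true_and, if_false] <;>
    (try split_ifs) <;> omega

lemma pinch_ver (c : V) (d : Fin 4) (u v : ℤ) :
    pinchH c (dir d) (u - 1) v - pinchH c (dir d) u v -
      (if c.1 + (dir d).1 = u ∧ c.2 + (dir d).2 ≤ v then 1 else 0) +
      (if c.1 = u ∧ c.2 ≤ v then 1 else 0) =
      (if d = 0 ∧ u = c.1 ∧ v = c.2 then 1 else 0) -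
        (if d = 2 ∧ u = c.1 ∧ v = c.2 - 1 then 1 else 0) := by
  unfold pinchH
  rcases pinch_dir d with ⟨h1, h2, rfl⟩ | ⟨h1, h2, rfl⟩ | ⟨h1, h2, rfl⟩ | ⟨h1, h2, rfl⟩ <;>
    rw [h1, h2] <;>
    simp only [Fin.reduceEq, Int.reduceEq, Int.reduceNeg, false_and, true_and, if_false] <;>
    (try split_ifs) <;> omega

/-- Values on the four faces at the centre. -/
def pinchF (i k j : Fin 4) : ℤ :=
  if j = 0 then 0 else if j = 1 then (if k = 1 then 1 else 0) - (if i = 1 then 1 else 0)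
  else (if i = 0 then 1 else 0) - (if k = 0 then 1 else 0) +
    (if j = 2 then (if i = 3 then 1 else 0) - (if k = 3 then 1 else 0) else 0)

lemma pinch_fin : ∀ i k j l : Fin 4, (i - j).val ≠ 0 ∧ (i - j).val ≤ (i - k).val →
    (k - l).val ≠ 0 ∧ (k - l).val ≤ (k - i).val → pinchF i k j ≠ pinchF i k l := by
  decide

lemma pinch_c {T : Set V} {x0 x1 y0 y1 : ℤ} {c : V} (hT : T ⊆ Rect x0 x1 y0 y1) (hc : c ∉ T)
    (hc' : c ∈ Rect x0 x1 y0 y1) {i k : Fin 4} (ha : c + dir i ∈ T)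
    (h : Conn Set.univ T (c + dir i) (c + dir k)) :
    ∃ m : ℤ, ∀ (j : Fin 4) (q : V), c + dir j + dir (j + 1) ∉ T →
      Conn Set.univ (insert c T)ᶜ (c + dir j + dir (j + 1)) q → q ∉ Rect x0 x1 y0 y1 →
      pinchF i k j = m := by
  obtain ⟨N, hN⟩ := h.pot
  have hb := h.mem ha
  obtain ⟨M, hM⟩ : ∃ M : ℤ → ℤ → ℤ, ∀ u v,
      M u v = N (u, v) + pinchH c (dir i) u v - pinchH c (dir k) u v := ⟨_, fun _ _ => rfl⟩
  have k1 : ∀ u v : ℤ, ((u, v) ∉ T ∨ (u + 1, v) ∉ T) → M u v - M u (v - 1) =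
      ((if i = 1 ∧ u = c.1 ∧ v = c.2 then 1 else 0) -
        (if i = 3 ∧ u = c.1 - 1 ∧ v = c.2 then 1 else 0)) -
      ((if k = 1 ∧ u = c.1 ∧ v = c.2 then 1 else 0) -
        (if k = 3 ∧ u = c.1 - 1 ∧ v = c.2 then 1 else 0)) := by
    intro u v hs
    have : N (u, v) = N (u, v - 1) := by
      by_contra hc
      have := hN.h1 u v hc
      tauto
    rw [← pinch_hor, ← pinch_hor, hM, hM, this]; ring
  have k2 : ∀ u v : ℤ, ((u, v) ∉ T ∨ (u, v + 1) ∉ T) → M (u - 1) v - M u v =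
      ((if i = 0 ∧ u = c.1 ∧ v = c.2 then 1 else 0) -
        (if i = 2 ∧ u = c.1 ∧ v = c.2 - 1 then 1 else 0)) -
      ((if k = 0 ∧ u = c.1 ∧ v = c.2 then 1 else 0) -
        (if k = 2 ∧ u = c.1 ∧ v = c.2 - 1 then 1 else 0)) := by
    intro u v hs
    have : N (u - 1, v) - N (u, v) +
        (if c.1 + (dir i).1 = u ∧ c.2 + (dir i).2 ≤ v then 1 else 0) -
        (if c.1 + (dir k).1 = u ∧ c.2 + (dir k).2 ≤ v then 1 else 0) = 0 := by
      by_contra hc
      have := hN.h2 u v hc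
      tauto
    rw [← pinch_ver, ← pinch_ver, hM, hM]; linarith
  have ne : ∀ (u v : ℤ) (d : Fin 4), (u, v) ∉ T → c + dir d ∈ T →
      ¬ (u = c.1 + (dir d).1 ∧ v = c.2 + (dir d).2) := by
    rintro u v d h' hd ⟨rfl, rfl⟩; exact h' hd
  have around : ∀ u v : ℤ, (u, v) ∉ insert c T →
      M (u - 1) v = M u v ∧ M (u - 1) v = M (u - 1) (v - 1) ∧ M (u - 1) (v - 1) = M u (v - 1) := by
    intro u v hp
    have hp1 : (u, v) ∉ T := fun h' => hp (Or.inr h')
    have hp2 : ¬ (u = c.1 ∧ v = c.2) := by rintro ⟨rfl, rfl⟩; exact hp (Or.inl rfl)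
    have n1 := ne u v i hp1 ha
    have n2 := ne u v k hp1 hb
    have z : ∀ (d e : Fin 4) (P : Prop) [Decidable (d = e ∧ P)],
        (P → u = c.1 ∧ v = c.2 ∨ u = c.1 + (dir e).1 ∧ v = c.2 + (dir e).2) →
        ¬ (u = c.1 + (dir d).1 ∧ v = c.2 + (dir d).2) →
        (if d = e ∧ P then (1 : ℤ) else 0) = 0 := by
      intro d e P _ hP hn
      refine if_neg ?_
      rintro ⟨rfl, h'⟩
      exact (hP h').elim hp2 hn
    have d0 : dir 0 = (0, 1) := rfl
    have d1 : dir 1 = (1, 0) := rfl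
    have d2 : dir 2 = (0, -1) := rfl
    have d3 : dir 3 = (-1, 0) := rfl
    have a1 := k2 u v (Or.inl hp1)
    have a2 := k1 (u - 1) v (Or.inr (by rwa [sub_add_cancel]))
    have a3 := k2 u (v - 1) (Or.inr (by rwa [sub_add_cancel]))
    rw [z i 0 _ (by rw [d0]; omega) n1, z i 2 _ (by rw [d2]; omega) n1,
      z k 0 _ (by rw [d0]; omega) n2, z k 2 _ (by rw [d2]; omega) n2] at a1 a3
    rw [z i 1 _ (by rw [d1]; omega) n1, z i 3 _ (by rw [d3]; omega) n1,
      z k 1 _ (by rw [d1]; omega) n2, z k 3 _ (by rw [d3]; omega) n2] at a2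
    omega
  have step : ∀ p p' : V, nb p p' → p ∉ insert c T → p' ∉ insert c T →
      M (p.1 - 1) p.2 = M (p'.1 - 1) p'.2 := by
    rintro ⟨u, v⟩ ⟨u', v'⟩ hn hp hp'
    have a := around u v hp
    have b := around u' v' hp'
    simp only [nb] at hn ⊢
    rcases hn with ⟨e1, e2⟩ | ⟨e1, e2⟩ | ⟨e1, e2⟩ | ⟨e1, e2⟩ <;> subst e1 e2
    · rw [add_sub_cancel_right]; exact a.1
    · exact b.1.symm
    · have := b.2.1; rw [add_sub_cancel_right] at this; exact this.symm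
    · exact a.2.1
  have path : ∀ p p' : V, Conn Set.univ (insert c T)ᶜ p p' →
      M (p.1 - 1) p.2 = M (p'.1 - 1) p'.2 := by
    intro p p' hc
    induction hc with
    | refl => rfl
    | tail _ hs ih => rw [ih]; exact step _ _ hs.1 hs.2.1 hs.2.2.1
  have out : ∀ p : V, p ∉ Rect x0 x1 y0 y1 → M (p.1 - 1) p.2 = 0 := by
    rintro ⟨u, v⟩ hp
    have ha' := hT ha
    have hb' := hT hb
    simp only [Rect, Set.mem_setOf_eq, Prod.fst_add, Prod.snd_add] at hp ha' hb' hc'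
    have hS' : ∀ z ∈ T, x0 ≤ z.1 ∧ z.1 ≤ x1 ∧ y0 ≤ z.2 ∧ z.2 ≤ y1 := fun z hz => hT hz
    show M (u - 1) v = 0
    by_cases c1 : u < x0
    · have := hN.h5 (u - 1) v (Or.inl fun z hz => by have := hS' z hz; omega)
      rw [hM, this]; unfold pinchH; split_ifs <;> omega
    by_cases c2 : x1 < u
    · have := hN.h5 (u - 1) v (Or.inr fun z hz => by have := hS' z hz; omega)
      rw [hM, this]; unfold pinchH; split_ifs <;> omega
    by_cases c3 : v < y0
    · have := hN.h3 (u - 1) v (fun z hz => by have := hS' z hz; omega)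
      rw [hM, this]; unfold pinchH; split_ifs <;> omega
    · have := hN.h4 (u - 1) v (fun z hz => by have := hS' z hz; omega)
      have e1 := pinch_dir i
      have e2 := pinch_dir k
      rw [hM, this]; unfold pinchH
      simp only [Prod.fst_add]
      split_ifs <;> omega
  have b1 := k1 c.1 c.2 (Or.inl hc)
  have b3 := k1 (c.1 - 1) c.2 (Or.inr (by rwa [sub_add_cancel]))
  have b0 := k2 c.1 c.2 (Or.inl hc)
  have f1 : ¬ c.1 = c.1 - 1 := by omega
  have f2 : ¬ c.1 - 1 = c.1 := by omega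
  have f3 : ¬ c.2 = c.2 - 1 := by omega
  simp only [f1, f2, f3, and_true, and_false, false_and, if_false] at b0 b1 b3
  refine ⟨-M c.1 c.2, fun j q h1 h2 h3 => ?_⟩
  have e := (path _ _ h2).trans (out _ h3)
  have hp : c + dir j + dir (j + 1) ∉ insert c T := by
    rintro (h' | h')
    · have h4 : ∀ j : Fin 4, dir j + dir (j + 1) ≠ 0 := by decide
      exact h4 j (by rwa [add_assoc, add_eq_left] at h')
    · exact h1 h'
  have a := around (c + dir j + dir (j + 1)).1 (c + dir j + dir (j + 1)).2 hp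
  have h5 : ∀ j : Fin 4, j = 0 ∨ j = 1 ∨ j = 2 ∨ j = 3 := by decide
  rcases h5 j with rfl | rfl | rfl | rfl
  · have p1 : (c + dir 0 + dir (0 + 1)).1 - 1 = c.1 := by
      show c.1 + 0 + 1 - 1 = c.1; ring
    have p2 : (c + dir 0 + dir (0 + 1)).2 - 1 = c.2 := by
      show c.2 + 1 + 0 - 1 = c.2; ring
    rw [p1, p2] at a; rw [p1] at e
    simp only [pinchF, if_true]; omega
  · have p1 : (c + dir 1 + dir (1 + 1)).1 - 1 = c.1 := by
      show c.1 + 1 + 0 - 1 = c.1; ring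
    have p2 : (c + dir 1 + dir (1 + 1)).2 = c.2 - 1 := by
      show c.2 + 0 + -1 = c.2 - 1; ring
    rw [p1, p2] at e
    simp only [pinchF, Fin.reduceEq, if_true, if_false]; omega
  · have p1 : (c + dir 2 + dir (2 + 1)).1 = c.1 - 1 := by
      show c.1 + 0 + -1 = c.1 - 1; ring
    have p2 : (c + dir 2 + dir (2 + 1)).2 = c.2 - 1 := by
      show c.2 + -1 + 0 = c.2 - 1; ring
    rw [p1, p2] at a e
    simp only [pinchF, Fin.reduceEq, if_true, if_false]; omega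
  · have p1 : (c + dir 3 + dir (3 + 1)).1 = c.1 - 1 := by
      show c.1 + -1 + 0 = c.1 - 1; ring
    have p2 : (c + dir 3 + dir (3 + 1)).2 - 1 = c.2 := by
      show c.2 + 0 + 1 - 1 = c.2; ring
    rw [p1, p2] at a; rw [p1] at e
    simp only [pinchF, Fin.reduceEq, if_true, if_false]; omega

/-- Centre of the roundabout in the plane picture. -/
def pinchC (y : V) : V := (3 * y.1 + y.2, -y.1 + 3 * y.2)

/-- Position of a lane relative to the centre. -/
def pinchO (x : Fin 4 × Bool) : V := if x.2 then dir x.1 + dir (x.1 + 1) else dir x.1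

/-- Plane picture of the lanes. -/
def pinchE (u : Node) : V := pinchC u.1 + pinchO u.2

lemma pinchO_bd : ∀ x : Fin 4 × Bool, -1 ≤ (pinchO x).1 ∧ (pinchO x).1 ≤ 1 ∧
    -1 ≤ (pinchO x).2 ∧ (pinchO x).2 ≤ 1 ∧ ¬ ((pinchO x).1 = 0 ∧ (pinchO x).2 = 0) := by
  decide

lemma pinchO_inj : ∀ x x' : Fin 4 × Bool, (pinchO x).1 = (pinchO x').1 →
    (pinchO x).2 = (pinchO x').2 → x = x' := by
  decide

lemma pinchE_inj : Injective pinchE := by
  rintro ⟨⟨y1, y2⟩, x⟩ ⟨⟨z1, z2⟩, x'⟩ h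
  have h1 : 3 * y1 + y2 + (pinchO x).1 = 3 * z1 + z2 + (pinchO x').1 := congrArg Prod.fst h
  have h2 : -y1 + 3 * y2 + (pinchO x).2 = -z1 + 3 * z2 + (pinchO x').2 := congrArg Prod.snd h
  have b := pinchO_bd x
  have b' := pinchO_bd x'
  have e1 : y1 = z1 := by omega
  have e2 : y2 = z2 := by omega
  subst e1 e2
  rw [pinchO_inj x x' (by omega) (by omega)]

lemma pinchE_ne (u : Node) (y : V) : pinchE u ≠ pinchC y := by
  obtain ⟨⟨y1, y2⟩, x⟩ := u
  obtain ⟨z1, z2⟩ := y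
  intro h
  have h1 : 3 * y1 + y2 + (pinchO x).1 = 3 * z1 + z2 := congrArg Prod.fst h
  have h2 : -y1 + 3 * y2 + (pinchO x).2 = -z1 + 3 * z2 := congrArg Prod.snd h
  have b := pinchO_bd x
  omega

lemma pinch_nb_add (c p q : V) (h : nb p q) : nb (c + p) (c + q) := by
  simp only [nb, Prod.fst_add, Prod.snd_add] at h ⊢; omega

lemma pinch_arc {u v : Node} (h : Arc (fun _ => allG) u v) : nb (pinchE u) (pinchE v) := by
  obtain ⟨y, d, b⟩ := u
  have t1 : ∀ d : Fin 4, nb (pinchO (d, true)) (pinchC (dir d) + pinchO (d + 2, false)) := by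
    unfold nb; decide
  have t2 : ∀ d : Fin 4, nb (pinchO (d, true)) (pinchO (d, false)) := by
    unfold nb; decide
  have t3 : ∀ d : Fin 4, nb (pinchO (d, false)) (pinchO (d + 3, true)) := by
    unfold nb; decide
  rcases h with ⟨h1, rfl⟩ | ⟨h1, rfl, -⟩ | ⟨h1, rfl, -⟩ <;> simp only at h1 <;> subst h1
  · have e : pinchC (y + dir d) = pinchC y + pinchC (dir d) := by
      simp only [pinchC, Prod.fst_add, Prod.snd_add, Prod.mk_add_mk]
      exact Prod.ext (by simp only; ring) (by simp only; ring)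
    have := pinch_nb_add (pinchC y) _ _ (t1 d)
    rwa [← add_assoc, ← e] at this
  · exact pinch_nb_add (pinchC y) _ _ (t2 d)
  · exact pinch_nb_add (pinchC y) _ _ (t3 d)

lemma pinch_conn {S : Set Node} {R : Set V} (hR : ∀ u ∈ S, pinchE u ∈ R) {u v : Node}
    (h : UConn S u v) : Conn Set.univ R (pinchE u) (pinchE v) := by
  induction h with
  | refl => exact Conn.refl _ _ _
  | tail _ hs ih =>
    exact ih.tail (hs.2.2.elim pinch_arc fun h' => (pinch_arc h').symm) (hR _ hs.1) (hR _ hs.2.1)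
      (Set.mem_univ _)

lemma pinch_ring {S : Set Node} {z : V} (h : ∀ x, (z, x) ∈ S) (d e : Fin 4) (b : Bool) :
    UConn S (z, d, b) (z, e, true) := by
  have s1 : ∀ d : Fin 4, UConn S (z, d, false) (z, d + 3, true) := fun d =>
    Relation.ReflTransGen.single ⟨h _, h _, Or.inl (Or.inr (Or.inr ⟨rfl, rfl, rfl⟩))⟩
  have s2 : ∀ d : Fin 4, UConn S (z, d, true) (z, d + 3, true) := fun d =>
    Relation.ReflTransGen.head ⟨h _, h _, Or.inl (Or.inr (Or.inl ⟨rfl, rfl, rfl⟩))⟩ (s1 d)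
  have s3 : ∀ d : Fin 4, UConn S (z, d, true) (z, e, true) := by
    intro d
    have h5 : ∀ d e : Fin 4, e = d ∨ e = d + 3 ∨ e = d + 3 + 3 ∨ e = d + 3 + 3 + 3 := by decide
    rcases h5 d e with rfl | rfl | rfl | rfl
    · exact Relation.ReflTransGen.refl
    · exact s2 d
    · exact (s2 d).trans (s2 _)
    · exact ((s2 d).trans (s2 _)).trans (s2 _)
  cases b
  · exact (s1 d).trans (s3 _)
  · exact s3 d

lemma pinch_go {S : Set Node} {z : V} {e : Fin 4}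
    (h : ∀ (t : ℕ) x, (z + (t : ℤ) • dir e, x) ∈ S) (d : Fin 4) (b : Bool) (t : ℕ) :
    UConn S (z, d, b) (z + (t : ℤ) • dir e, e, true) := by
  induction t with
  | zero =>
    have := h 0
    simp only [Nat.cast_zero, zero_smul, add_zero] at this ⊢
    exact pinch_ring this d e b
  | succ t ih =>
    have e1 : z + ((t + 1 : ℕ) : ℤ) • dir e = z + (t : ℤ) • dir e + dir e := by
      rw [Nat.cast_succ, add_smul, one_smul, add_assoc]
    have h1 := h (t + 1)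
    rw [e1] at h1 ⊢
    exact (Relation.ReflTransGen.tail ih ⟨h t _, h1 _, Or.inl (Or.inl ⟨rfl, rfl⟩)⟩).trans
      (pinch_ring h1 _ e false)

lemma pinch_far {n : ℕ} {S : Set Node} (hS : ∀ u ∈ S, u.1 ∈ Q n) {q : Node} (hq : q.1 ∉ Q n) :
    ∃ q', UConn Sᶜ q q' ∧ pinchE q' ∉ Rect (-(4 * n + 1)) (4 * n + 1) (-(4 * n + 1)) (4 * n + 1) := by
  obtain ⟨⟨z1, z2⟩, d, b⟩ := q
  simp only [Q, Rect, Set.mem_setOf_eq] at hq
  obtain ⟨e, he⟩ : ∃ e : Fin 4, (n < z1 ∧ (dir e).1 = 1 ∧ (dir e).2 = 0) ∨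
      (z1 < -n ∧ (dir e).1 = -1 ∧ (dir e).2 = 0) ∨ (n < z2 ∧ (dir e).1 = 0 ∧ (dir e).2 = 1) ∨
      (z2 < -n ∧ (dir e).1 = 0 ∧ (dir e).2 = -1) := by
    by_cases c1 : n < z1
    · exact ⟨1, Or.inl ⟨c1, rfl, rfl⟩⟩
    by_cases c2 : z1 < -n
    · exact ⟨3, Or.inr (Or.inl ⟨c2, rfl, rfl⟩)⟩
    by_cases c3 : n < z2
    · exact ⟨0, Or.inr (Or.inr (Or.inl ⟨c3, rfl, rfl⟩))⟩
    · exact ⟨2, Or.inr (Or.inr (Or.inr ⟨by omega, rfl, rfl⟩))⟩
  obtain ⟨t, ht⟩ : ∃ t : ℕ, 4 * (n : ℤ) + 3 + |z1| + |z2| ≤ t :=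
    ⟨(4 * (n : ℤ) + 3 + |z1| + |z2|).toNat, Int.self_le_toNat _⟩
  refine ⟨_, pinch_go (S := Sᶜ) (z := (z1, z2)) (e := e) (fun t x (hx : _ ∈ S) => ?_) d b t,
    fun hr => ?_⟩
  · have := hS _ hx
    simp only [Q, Rect, Set.mem_setOf_eq, Prod.fst_add, Prod.snd_add, Prod.smul_fst, Prod.smul_snd,
      smul_eq_mul] at this
    rcases he with ⟨h0, h1, h2⟩ | ⟨h0, h1, h2⟩ | ⟨h0, h1, h2⟩ | ⟨h0, h1, h2⟩ <;>
      rw [h1, h2] at this <;> omega
  · have bd := pinchO_bd (e, true)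
    have a1 := le_abs_self z1
    have a2 := le_abs_self z2
    have a3 := neg_abs_le z1
    have a4 := neg_abs_le z2
    simp only [pinchE, pinchC, Rect, Set.mem_setOf_eq, Prod.fst_add, Prod.snd_add, Prod.smul_fst,
      Prod.smul_snd, smul_eq_mul] at hr
    generalize |z1| = w1 at *
    generalize |z2| = w2 at *
    rcases he with ⟨h0, h1, h2⟩ | ⟨h0, h1, h2⟩ | ⟨h0, h1, h2⟩ | ⟨h0, h1, h2⟩ <;>
      rw [h1, h2] at hr <;> omega

/-- Two entering lanes at `y` joined inside a bounded set `S` separate the leaving lanes on the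
two sides. -/
lemma pinchN {n : ℕ} {S : Set Node} (hS : ∀ u ∈ S, u.1 ∈ Q n) {y : V} {i k j l : Fin 4}
    (hi : (y, i, false) ∈ S) (hc : UConn S (y, i, false) (y, k, false))
    (hj : (i - j).val ≠ 0 ∧ (i - j).val ≤ (i - k).val)
    (hl : (k - l).val ≠ 0 ∧ (k - l).val ≤ (k - i).val)
    {q q' : Node} (h1 : (y, j, true) ∉ S) (h2 : UConn Sᶜ (y, j, true) q) (h3 : q.1 ∉ Q n)
    (k1 : (y, l, true) ∉ S) (k2 : UConn Sᶜ (y, l, true) q') (k3 : q'.1 ∉ Q n) : False := by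
  have hy := hS _ hi
  obtain ⟨m, hm⟩ := pinch_c (T := pinchE '' S) (c := pinchC y) (i := i) (k := k)
    (x0 := -(4 * n + 1)) (x1 := 4 * n + 1) (y0 := -(4 * n + 1)) (y1 := 4 * n + 1)
    (by
      rintro _ ⟨u, hu, rfl⟩
      have h1 := hS u hu
      have bd := pinchO_bd u.2
      simp only [Q, pinchE, pinchC, Rect, Set.mem_setOf_eq, Prod.fst_add, Prod.snd_add] at h1 ⊢
      omega)
    (by rintro ⟨u, -, hu⟩; exact pinchE_ne u y hu)
    (by simp only [Q, pinchC, Rect, Set.mem_setOf_eq] at hy ⊢; omega)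
    ⟨_, hi, rfl⟩ (pinch_conn (R := pinchE '' S) (fun u hu => ⟨u, hu, rfl⟩) hc)
  have key : ∀ (j : Fin 4) (q : Node), (y, j, true) ∉ S → UConn Sᶜ (y, j, true) q → q.1 ∉ Q n →
      pinchF i k j = m := by
    intro j q a1 a2 a3
    obtain ⟨q', b1, b2⟩ := pinch_far hS a3
    have e : pinchC y + dir j + dir (j + 1) = pinchE (y, j, true) := add_assoc _ _ _
    have hR : ∀ u ∈ Sᶜ, pinchE u ∈ (insert (pinchC y) (pinchE '' S))ᶜ := by
      rintro u hu (h' | ⟨u', hu', h'⟩)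
      · exact pinchE_ne u y h'
      · exact hu (pinchE_inj h' ▸ hu')
    refine hm j (pinchE q') ?_ ?_ b2
    · rw [e]; exact fun h' => hR _ a1 (Or.inr h')
    · rw [e]; exact pinch_conn hR (a2.trans b1)
  exact pinch_fin i k j l hj hl ((key j q h1 h2 h3).trans (key l q' k1 k2 k3).symm)

end Pool.Agent.FS.RotorSym
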