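import Pool.Agent.FS.RotorSym.Pb

set_option autoImplicit false
set_option linter.unusedSectionVars false
set_option linter.deprecated false
set_option linter.unusedVariables false

namespace Pool.Agent.FS.RotorSym

open Pool.Agent.Lib.MP_9d2e01_pr MeasureTheory Function

lemma sym_shift (x : V) : x + (-1, 0) + (1, 0) = x := by
  ext <;> simp

lemma sym_step {ω ω' : JJ → Bool} {R : Set V}
    (h : ∀ k : JJ, ((k.2 ≠ 2 ∧ k.1 ∈ R) ∨ (k.2 = 2 ∧ k.1 + (1, 0) ∈ R)) → ω k = true → ω' k = true)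
    {x z : V} (hs : SStp ω R x z) : SStp ω' R x z := by
  obtain ⟨hx, hz, h1, h2, h3⟩ := hs
  have e0 : (0 : Fin 3) ≠ 2 := by decide
  have e1 : (1 : Fin 3) ≠ 2 := by decide
  refine ⟨hx, hz, h (x, 0) (Or.inl ⟨e0, hx⟩) h1, h (z, 0) (Or.inl ⟨e0, hz⟩) h2, ?_⟩
  rcases h3 with h3 | ⟨e, h3⟩ | ⟨e, h3⟩ | ⟨e, h3⟩ | ⟨e, h3⟩
  · exact Or.inl h3
  · exact Or.inr (Or.inl ⟨e, h (x, 1) (Or.inl ⟨e1, hx⟩) h3⟩)
  · exact Or.inr (Or.inr (Or.inl ⟨e, h (z, 1) (Or.inl ⟨e1, hz⟩) h3⟩))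
  · exact Or.inr (Or.inr (Or.inr (Or.inl ⟨e, h (x + (-1, 0), 2)
      (Or.inr ⟨rfl, (sym_shift x).symm ▸ hx⟩) h3⟩)))
  · exact Or.inr (Or.inr (Or.inr (Or.inr ⟨e, h (z + (-1, 0), 2)
      (Or.inr ⟨rfl, (sym_shift z).symm ▸ hz⟩) h3⟩)))

lemma sym_arm_le {ω ω' : JJ → Bool} {A B R : Set V}
    (h : ∀ k : JJ, ((k.2 ≠ 2 ∧ k.1 ∈ R) ∨ (k.2 = 2 ∧ k.1 + (1, 0) ∈ R)) → ω k = true → ω' k = true)
    (hω : ω ∈ Arm A B R) : ω' ∈ Arm A B R := by
  obtain ⟨a, ha, b, hb, hR, h0, hp⟩ := hω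
  have e0 : (0 : Fin 3) ≠ 2 := by decide
  exact ⟨a, ha, b, hb, hR, h (a, 0) (Or.inl ⟨e0, hR⟩) h0,
    rtg_mono (fun _ _ hs => sym_step h hs) hp⟩

lemma arm_dep (A B R : Set V) :
    Dep (Arm A B R) {k | (k.2 ≠ 2 ∧ k.1 ∈ R) ∨ (k.2 = 2 ∧ k.1 + (1, 0) ∈ R)} :=
  fun ω ω' h hω => sym_arm_le (fun k hk h1 => (h k hk).symm.trans h1) hω

lemma arm_loc (A B : Set V) {R : Set V} (hR : R.Finite) : Loc (Arm A B R) := by
  refine Loc.of_finite (arm_dep A B R) ?_
  refine Set.Finite.subset ((hR.union (hR.image fun x => x + (-1, 0))).prod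
    (Set.finite_univ (α := Fin 3))) ?_
  rintro k (⟨-, hk⟩ | ⟨-, hk⟩)
  · exact ⟨Or.inl hk, Set.mem_univ _⟩
  · refine ⟨Or.inr ⟨_, hk, ?_⟩, Set.mem_univ _⟩
    ext <;> simp

lemma arm_up (A B R : Set V) : Up (Arm A B R) :=
  fun ω ω' h hω => sym_arm_le (fun k _ h1 => h k h1) hω

lemma arm_mono {A B R A' B' R' : Set V} (hA : A ⊆ A') (hB : B ⊆ B') (hR : R ⊆ R') :
    Arm A B R ⊆ Arm A' B' R' := by
  rintro ω ⟨a, ha, b, hb, h1, h0, hp⟩
  exact ⟨a, hA ha, b, hB hb, hR h1, h0, rtg_mono (s := SStp ω R')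
    (fun _ _ hs => ⟨hR hs.1, hR hs.2.1, hs.2.2⟩) hp⟩

lemma SStp.symm {ω : JJ → Bool} {R : Set V} {x z : V} (h : SStp ω R x z) : SStp ω R z x := by
  obtain ⟨hx, hz, h1, h2, h3⟩ := h
  refine ⟨hz, hx, h2, h1, ?_⟩
  rcases h3 with h3 | h3 | h3 | h3 | h3
  · exact Or.inl h3.symm
  · exact Or.inr (Or.inr (Or.inl h3))
  · exact Or.inr (Or.inl h3)
  · exact Or.inr (Or.inr (Or.inr (Or.inr h3)))
  · exact Or.inr (Or.inr (Or.inr (Or.inl h3)))

/-- Adjacent sites are king neighbours. -/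
lemma adj.near {ω : JJ → Bool} {x z : V} (h : adj ω x z) :
    |z.1 - x.1| ≤ 1 ∧ |z.2 - x.2| ≤ 1 := by
  rw [abs_le, abs_le]
  rcases h with h | ⟨e, -⟩ | ⟨e, -⟩ | ⟨e, -⟩ | ⟨e, -⟩
  · unfold nb at h
    omega
  all_goals
    have e1 := congrArg Prod.fst e
    have e2 := congrArg Prod.snd e
    simp only [Prod.fst_add, Prod.snd_add] at e1 e2
    omega

lemma sym_sstp {θ : unitInterval} {g : V → V} {T : (JJ → Bool) → JJ → Bool} (h : IsSym θ g T)
    (ω : JJ → Bool) (R : Set V) (x z : V) :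
    SStp (T ω) R x z ↔ SStp ω (g '' R) (g x) (g z) := by
  unfold SStp
  rw [h.op, h.op, h.ad, h.bij.1.mem_set_image, h.bij.1.mem_set_image]

lemma IsSym.arm {θ : unitInterval} {g : V → V} {T : (JJ → Bool) → JJ → Bool} (h : IsSym θ g T)
    (ω : JJ → Bool) (A B R : Set V) :
    T ω ∈ Arm A B R ↔ ω ∈ Arm (g '' A) (g '' B) (g '' R) := by
  constructor
  · rintro ⟨a, ha, b, hb, h1, h0, hp⟩
    refine ⟨g a, ⟨a, ha, rfl⟩, g b, ⟨b, hb, rfl⟩, ⟨a, h1, rfl⟩, (h.op ω a).symm.trans h0, ?_⟩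
    clear hb
    induction hp with
    | refl => exact Relation.ReflTransGen.refl
    | tail _ hs ih => exact ih.tail ((sym_sstp h ω R _ _).1 hs)
  · rintro ⟨_, ⟨a, ha, rfl⟩, _, ⟨b, hb, rfl⟩, h1, h0, hp⟩
    refine ⟨a, ha, b, hb, h.bij.1.mem_set_image.1 h1, (h.op ω a).trans h0, ?_⟩
    have key : ∀ y, Relation.ReflTransGen (SStp ω (g '' R)) (g a) y → ∀ c, g c = y →
        Relation.ReflTransGen (SStp (T ω) R) a c := by
      intro y hy
      induction hy with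
      | refl =>
        intro c hc
        rw [h.bij.1 hc]
      | @tail u v _ hs ih =>
        intro c hc
        obtain ⟨w, rfl⟩ := h.bij.2 u
        exact (ih w rfl).tail ((sym_sstp h ω R w c).2 (hc ▸ hs))
    exact key _ hp b rfl

lemma IsSym.pp_arm {θ : unitInterval} {g : V → V} {T : (JJ → Bool) → JJ → Bool} (h : IsSym θ g T)
    (A B : Set V) {R : Set V} (hR : R.Finite) :
    pp (parJ θ) (Arm (g '' A) (g '' B) (g '' R)) = pp (parJ θ) (Arm A B R) := by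
  rw [← h.meas _ (arm_loc A B hR)]
  exact congrArg _ (Set.ext fun ω => (h.arm ω A B R).symm)

/-- The ends of the rising diagonal of the face `f`. -/
def symD1 (f x z : V) : Prop :=
  (x.1 = f.1 ∧ x.2 = f.2 ∧ z.1 = f.1 + 1 ∧ z.2 = f.2 + 1) ∨
    (z.1 = f.1 ∧ z.2 = f.2 ∧ x.1 = f.1 + 1 ∧ x.2 = f.2 + 1)

/-- The ends of the falling diagonal of the face `f`. -/
def symD2 (f x z : V) : Prop :=
  (x.1 = f.1 + 1 ∧ x.2 = f.2 ∧ z.1 = f.1 ∧ z.2 = f.2 + 1) ∨
    (z.1 = f.1 + 1 ∧ z.2 = f.2 ∧ x.1 = f.1 ∧ x.2 = f.2 + 1)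

lemma sym_adj_iff (ω : JJ → Bool) (x z : V) : adj ω x z ↔ nb x z ∨
    (∃ f, ω (f, 1) = true ∧ symD1 f x z) ∨ (∃ f, ω (f, 2) = true ∧ symD2 f x z) := by
  constructor
  · rintro (h | ⟨e, h⟩ | ⟨e, h⟩ | ⟨e, h⟩ | ⟨e, h⟩)
    · exact Or.inl h
    · exact Or.inr (Or.inl ⟨x, h, Or.inl (by simp [e])⟩)
    · exact Or.inr (Or.inl ⟨z, h, Or.inr (by simp [e])⟩)
    · exact Or.inr (Or.inr ⟨_, h, Or.inl (by simp [e])⟩)
    · exact Or.inr (Or.inr ⟨_, h, Or.inr (by simp [e])⟩)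
  · rintro (h | ⟨f, h, e | e⟩ | ⟨f, h, e | e⟩)
    · exact Or.inl h
    · have e1 : f = x := Prod.ext e.1.symm e.2.1.symm
      refine Or.inr (Or.inl ⟨Prod.ext ?_ ?_, e1 ▸ h⟩)
      · simp only [Prod.fst_add]; omega
      · simp only [Prod.snd_add]; omega
    · have e1 : f = z := Prod.ext e.1.symm e.2.1.symm
      refine Or.inr (Or.inr (Or.inl ⟨Prod.ext ?_ ?_, e1 ▸ h⟩))
      · simp only [Prod.fst_add]; omega
      · simp only [Prod.snd_add]; omega
    · have e1 : f = x + (-1, 0) := by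
        refine Prod.ext ?_ ?_
        · simp only [Prod.fst_add]; omega
        · simp only [Prod.snd_add]; omega
      refine Or.inr (Or.inr (Or.inr (Or.inl ⟨Prod.ext ?_ ?_, e1 ▸ h⟩)))
      · simp only [Prod.fst_add]; omega
      · simp only [Prod.snd_add]; omega
    · have e1 : f = z + (-1, 0) := by
        refine Prod.ext ?_ ?_
        · simp only [Prod.fst_add]; omega
        · simp only [Prod.snd_add]; omega
      refine Or.inr (Or.inr (Or.inr (Or.inr ⟨Prod.ext ?_ ?_, e1 ▸ h⟩)))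
      · simp only [Prod.fst_add]; omega
      · simp only [Prod.snd_add]; omega

lemma sym_mk (θ : unitInterval) (g φ : V → V) (hg : Bijective g) (hφ : Bijective φ)
    (hn : ∀ x z, nb x z ↔ nb (g x) (g z))
    (h1 : ∀ f x z, symD1 f x z ↔ symD1 (φ f) (g x) (g z))
    (h2 : ∀ f x z, symD2 f x z ↔ symD2 (φ f) (g x) (g z)) : ∃ T, IsSym θ g T := by
  let F : JJ → JJ := fun k => (if k.2 = 0 then g k.1 else φ k.1, k.2)
  have hF : Injective F := by
    rintro ⟨x, i⟩ ⟨y, j⟩ e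
    have e2 : i = j := congrArg Prod.snd e
    subst e2
    have e1 : (if i = 0 then g x else φ x) = if i = 0 then g y else φ y := congrArg Prod.fst e
    by_cases hi : i = 0
    · rw [if_pos hi, if_pos hi] at e1
      rw [hg.1 e1]
    · rw [if_neg hi, if_neg hi] at e1
      rw [hφ.1 e1]
  have f1 : ∀ f, F (f, 1) = (φ f, 1) := fun f => rfl
  have f2 : ∀ f, F (f, 2) = (φ f, 2) := fun f => rfl
  refine ⟨fun ω k => ω (F k), hg, fun A hA => ?_, fun ω x => rfl, fun ω x z => ?_⟩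
  · have := pp_map (parJ θ) (parJ θ) hF (fun _ => false) (fun k => rfl) hA
    simpa only [Bool.false_xor] using this
  · rw [sym_adj_iff, sym_adj_iff, hn]
    refine or_congr Iff.rfl (or_congr ?_ ?_)
    · constructor
      · rintro ⟨f, h, e⟩
        exact ⟨φ f, h, (h1 f x z).1 e⟩
      · rintro ⟨f, h, e⟩
        obtain ⟨f, rfl⟩ := hφ.2 f
        exact ⟨f, h, (h1 f x z).2 e⟩
    · constructor
      · rintro ⟨f, h, e⟩
        exact ⟨φ f, h, (h2 f x z).1 e⟩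
      · rintro ⟨f, h, e⟩
        obtain ⟨f, rfl⟩ := hφ.2 f
        exact ⟨f, h, (h2 f x z).2 e⟩

lemma sym_add (θ : unitInterval) (z : V) : ∃ T, IsSym θ (fun x => x + z) T := by
  refine sym_mk θ _ (fun x => x + z) (Equiv.addRight z).bijective (Equiv.addRight z).bijective
    (fun x y => ?_) (fun f x y => ?_) (fun f x y => ?_)
  · simp only [nb, Prod.fst_add, Prod.snd_add]; omega
  · simp only [symD1, Prod.fst_add, Prod.snd_add]; omega
  · simp only [symD2, Prod.fst_add, Prod.snd_add]; omega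

lemma sym_swp (θ : unitInterval) : ∃ T, IsSym θ Prod.swap T := by
  refine sym_mk θ _ Prod.swap Prod.swap_bijective Prod.swap_bijective
    (fun x y => ?_) (fun f x y => ?_) (fun f x y => ?_)
  · simp only [nb, Prod.fst_swap, Prod.snd_swap]; omega
  · simp only [symD1, Prod.fst_swap, Prod.snd_swap]; omega
  · simp only [symD2, Prod.fst_swap, Prod.snd_swap]; omega

lemma sym_neg (θ : unitInterval) : ∃ T, IsSym θ (fun x => -x) T := by
  refine sym_mk θ _ (fun x => -x + (-1, -1)) (Equiv.neg V).bijective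
    ((Equiv.neg V).trans (Equiv.addRight ((-1, -1) : V))).bijective
    (fun x y => ?_) (fun f x y => ?_) (fun f x y => ?_)
  · simp only [nb, Prod.fst_neg, Prod.snd_neg]; omega
  · simp only [symD1, Prod.fst_neg, Prod.snd_neg, Prod.fst_add, Prod.snd_add]; omega
  · simp only [symD2, Prod.fst_neg, Prod.snd_neg, Prod.fst_add, Prod.snd_add]; omega

/-- The coordinate read by the dual configuration. -/
def symF (k : JJ) : JJ := (k.1, if k.2 = 0 then 0 else if k.2 = 1 then 2 else 1)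

lemma sym_duJ (ω : JJ → Bool) (k : JJ) : duJ ω k = !ω (symF k) := rfl

lemma symF_inj : Injective symF := by
  rintro ⟨x, i⟩ ⟨y, j⟩ e
  have e1 : x = y := congrArg Prod.fst e
  have e2 : (if i = 0 then 0 else if i = 1 then 2 else 1 : Fin 3) =
      if j = 0 then 0 else if j = 1 then 2 else 1 := congrArg Prod.snd e
  have e3 : i = j := by
    clear e
    revert i j
    decide
  rw [e1, e3]

lemma sym_hf : unitInterval.symm hf = hf := by
  apply Subtype.ext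
  rw [unitInterval.coe_symm_eq]
  change (1 : ℝ) - 1 / 2 = 1 / 2
  norm_num

lemma pp_duJ (θ : unitInterval) {A : Set (JJ → Bool)} (h : Loc A) :
    pp (parJ θ) {ω | duJ ω ∈ A} = pp (parJ θ) A := by
  have := pp_map (parJ θ) (parJ θ) symF_inj (fun _ => true) (fun k => by
    obtain ⟨x, i⟩ := k
    rw [if_pos rfl]
    fin_cases i
    · exact sym_hf.symm
    · exact (unitInterval.symm_symm θ).symm
    · rfl) h
  simp only [Bool.true_xor] at this
  exact this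

lemma loc_duJ {A : Set (JJ → Bool)} (h : Loc A) : Loc {ω | duJ ω ∈ A} := by
  classical
  obtain ⟨F, hF⟩ := h
  refine ⟨F.image symF, fun ω ω' e hω => hF (duJ ω) (duJ ω') (fun k hk => ?_) hω⟩
  rw [sym_duJ, sym_duJ, e (symF k) (Finset.mem_coe.2 (Finset.mem_image_of_mem _ hk))]

lemma up_duJ {A : Set (JJ → Bool)} (h : Up A) : Up {ω | duJ ω ∈ A}ᶜ := by
  intro ω ω' e hω hω'
  refine hω (h (duJ ω') (duJ ω) (fun k hk => ?_) hω')
  rw [sym_duJ] at hk ⊢
  cases h1 : ω (symF k)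
  · rfl
  · rw [e _ h1] at hk
    exact hk

end Pool.Agent.FS.RotorSym
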