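import Pool.Agent.FS.RotorSym.Pinch

set_option autoImplicit false
set_option linter.unusedSectionVars false
set_option linter.deprecated false
set_option linter.unusedVariables false

namespace Pool.Agent.FS.RotorSym

open Pool.Agent.Lib.MP_9d2e01_pr MeasureTheory Function

lemma Esc.mono {γ γ' : V → Gad} (h : ∀ y k, γ y k = true → γ' y k = true) {d : Fin 4} {n : ℕ}
    (e : Esc γ d n) : Esc γ' d n := by
  obtain ⟨v, h1, h2⟩ := e
  refine ⟨v, h1, rtg_mono (fun a b hab => ⟨hab.1, ?_⟩) h2⟩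
  rcases hab.2 with k | ⟨k1, k2, k3⟩ | ⟨k1, k2, k3⟩
  · exact Or.inl k
  · exact Or.inr (Or.inl ⟨k1, k2, h _ _ k3⟩)
  · exact Or.inr (Or.inr ⟨k1, k2, h _ _ k3⟩)

/-- Steps with the roundabout at `y` set to `g`. -/
def St (γ : V → Gad) (n : ℕ) (y : V) (g : Gad) (u v : Node) : Prop :=
  u.1 ∈ Q n ∧ Arc (update γ y g) u v

/-- No ring arc. -/
def g0 : Gad := clo fun _ => false

lemma tri_split {γ : V → Gad} {n : ℕ} {y : V} {g : Gad} {u v : Node} (h : St γ n y g u v) :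
    St γ n y g0 u v ∨ (y ∈ Q n ∧ ∃ c, (u = (y, c, true) ∧ v = (y, c, false)) ∨
      (u = (y, c, false) ∧ v = (y, c + 3, true) ∧ g (c, false) = true)) := by
  obtain ⟨x, c, b⟩ := u
  obtain ⟨h1, h2⟩ := h
  by_cases hx : x = y
  · subst hx
    rcases h2 with k | ⟨k1, k2, k3⟩ | ⟨k1, k2, k3⟩
    · exact Or.inl ⟨h1, Or.inl k⟩
    · simp only at k1 k2; subst k1
      exact Or.inr ⟨h1, c, Or.inl ⟨rfl, k2⟩⟩
    · simp only [update_self] at k1 k2 k3; subst k1
      exact Or.inr ⟨h1, c, Or.inr ⟨rfl, k2, k3⟩⟩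
  · refine Or.inl ⟨h1, ?_⟩
    simp only [Arc, update_of_ne hx] at h2 ⊢
    exact h2

lemma tri_up {γ : V → Gad} {n : ℕ} {y : V} (g : Gad) {u v : Node} (h : St γ n y g0 u v) :
    St γ n y g u v := by
  have hm : ∀ x k, update γ y g0 x k = true → update γ y g x k = true := by
    intro x k hk
    by_cases hx : x = y
    · subst hx; simp [g0, clo] at hk
    · simpa [update_of_ne hx] using hk
  refine ⟨h.1, ?_⟩
  rcases h.2 with k | ⟨k1, k2, k3⟩ | ⟨k1, k2, k3⟩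
  · exact Or.inl k
  · exact Or.inr (Or.inl ⟨k1, k2, hm _ _ k3⟩)
  · exact Or.inr (Or.inr ⟨k1, k2, hm _ _ k3⟩)

lemma tri_adj {γ : V → Gad} {n : ℕ} {y : V} {g : Gad} {u v : Node} (h : St γ n y g u v) :
    UAdj u v := by
  left
  rcases h.2 with k | ⟨k1, k2, _⟩ | ⟨k1, k2, _⟩
  · exact Or.inl k
  · exact Or.inr (Or.inl ⟨k1, k2, rfl⟩)
  · exact Or.inr (Or.inr ⟨k1, k2, rfl⟩)

lemma tri_into {γ : V → Gad} {n : ℕ} {y : V} {u : Node} {c : Fin 4} :
    ¬ St γ n y g0 u (y, c, true) := by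
  rintro ⟨_, k | ⟨_, k2, _⟩ | ⟨_, k2, k3⟩⟩
  · simp at k
  · simp at k2
  · have : u.1 = y := (congrArg Prod.fst k2).symm
    rw [this] at k3; simp [g0, clo] at k3

lemma tri_from {γ : V → Gad} {n : ℕ} {y : V} {g : Gad} {v : Node} {c : Fin 4}
    (hg : g (c, false) = false) : ¬ St γ n y g (y, c, false) v := by
  rintro ⟨_, k | ⟨k1, _, _⟩ | ⟨_, _, k3⟩⟩
  · simp at k
  · simp at k1
  · simp [hg] at k3

lemma UConn.symm {S : Set Node} {u v : Node} (h : UConn S u v) : UConn S v u := by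
  induction h with
  | refl => exact Relation.ReflTransGen.refl
  | tail _ hs ih => exact Relation.ReflTransGen.head ⟨hs.2.1, hs.1, hs.2.2.symm⟩ ih

lemma UConn.mono {S T : Set Node} (hST : S ⊆ T) {u v : Node} (h : UConn S u v) : UConn T u v :=
  rtg_mono (fun _ _ k => ⟨hST k.1, hST k.2.1, k.2.2⟩) h

lemma tri_fwd {γ : V → Gad} {n : ℕ} {y : V} {g : Gad} {s u : Node}
    (h : Relation.ReflTransGen (St γ n y g) s u) :
    UConn {w | Relation.ReflTransGen (St γ n y g) s w} s u := by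
  induction h with
  | refl => exact Relation.ReflTransGen.refl
  | tail h1 hs ih => exact ih.tail ⟨h1, h1.tail hs, tri_adj hs⟩

/-- Nodes that escape without the roundabout. -/
def Rb (γ : V → Gad) (n : ℕ) (y : V) : Set Node :=
  {u | ∃ v : Node, v.1 ∉ Q n ∧ Relation.ReflTransGen (St γ n y g0) u v}

lemma tri_bwd {γ : V → Gad} {n : ℕ} {y : V} {u : Node} (h : u ∈ Rb γ n y) :
    ∃ q : Node, q.1 ∉ Q n ∧ UConn (Rb γ n y) u q := by
  obtain ⟨q, h1, h2⟩ := h
  refine ⟨q, h1, ?_⟩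
  induction h2 using Relation.ReflTransGen.head_induction_on with
  | refl => exact Relation.ReflTransGen.refl
  | head k1 k2 ih =>
    exact Relation.ReflTransGen.head ⟨⟨q, h1, k2.head k1⟩, ⟨q, h1, k2⟩, tri_adj k1⟩ ih

lemma tri_last {r : Node → Node → Prop} {S : Set Node} {s v : Node}
    (h : Relation.ReflTransGen r s v) (hs : s ∈ S) (hv : v ∉ S) :
    ∃ u u', u ∈ S ∧ u' ∉ S ∧ r u u' ∧
      Relation.ReflTransGen (fun p q => r p q ∧ p ∉ S ∧ q ∉ S) u' v := by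
  induction h with
  | refl => exact absurd hs hv
  | @tail b c _ k ih =>
    by_cases hb : b ∈ S
    · exact ⟨b, c, hb, hv, k, Relation.ReflTransGen.refl⟩
    · obtain ⟨u, u', a1, a2, a3, a4⟩ := ih hb
      exact ⟨u, u', a1, a2, a3, a4.tail ⟨k, hb, hv⟩⟩

lemma tri_conn {γ : V → Gad} {n : ℕ} {y : V} {g : Gad} {S : Set Node} {u v : Node}
    (h : Relation.ReflTransGen (fun p q => St γ n y g p q ∧ p ∉ S ∧ q ∉ S) u v) :
    UConn Sᶜ u v := rtg_mono (fun _ _ k => ⟨k.2.1, k.2.2, tri_adj k.1⟩) h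

lemma tri_cluster {T : Set Node} {s u : Node} (hs : s ∈ T) (h : UConn T s u) :
    u ∈ T ∧ UConn {w | w ∈ T ∧ UConn T s w} s u := by
  induction h with
  | refl => exact ⟨hs, Relation.ReflTransGen.refl⟩
  | tail h1 k ih =>
    exact ⟨k.2.1, ih.2.tail ⟨⟨k.1, h1⟩, ⟨k.2.1, Relation.ReflTransGen.tail h1 k⟩, k.2.2⟩⟩

lemma tri_fin (t t' : Fin 4) (h : t ≠ t') :
    (t - (t + 3)).val ≠ 0 ∧ (t - (t + 3)).val ≤ (t - t').val := by
  revert t t'; decide

/-- What one roundabout can do for the escape event. -/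
lemma tri (γ : V → Gad) (d : Fin 4) (n : ℕ) {y : V} (hy : y ≠ 0) :
    (∀ m, ¬ Esc (update γ y (orig m)) d n) ∨ Esc (update γ y (clo fun _ => false)) d n ∨
    (∃ t, ¬ Esc (update γ y (orig t)) d n ∧
      Esc (update γ y (clo fun c => decide (c = t))) d n) ∨
    (∃ t, ¬ Esc (update γ y (orig t)) d n ∧ ¬ Esc (update γ y (orig (t + 1))) d n) ∨
    (∃ t, ¬ Esc (update γ y (orig t)) d n ∧ ¬ Esc (update γ y (orig (t + 2))) d n ∧
      Esc (update γ y (clo fun c => decide (c = t ∨ c = t + 2))) d n) := by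
  classical
  by_cases h0 : Esc (update γ y g0) d n
  · exact Or.inr (Or.inl h0)
  by_cases hall : ∀ m, ¬ Esc (update γ y (orig m)) d n
  · exact Or.inl hall
  right; right
  set s : Node := ((0 : V), d, true) with hs
  set R : Set Node := {w | Relation.ReflTransGen (St γ n y g0) s w} with hR
  have sR : s ∈ R := Relation.ReflTransGen.refl
  have RR : ∀ u ∈ R, u ∉ Rb γ n y := fun u hu ⟨v, h1, h2⟩ =>
    h0 ⟨v, h1, Relation.ReflTransGen.trans hu h2⟩
  have out : ∀ u : Node, u.1 ∉ Q n → u ∈ Rb γ n y := fun u hu =>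
    ⟨u, hu, Relation.ReflTransGen.refl⟩
  have inQ : ∀ u : Node, u ∉ Rb γ n y → u.1 ∈ Q n := fun u hu => by
    by_contra hc; exact hu (out u hc)
  have noa : ∀ (w : Node) c, Relation.ReflTransGen (St γ n y g0) w (y, c, true) →
      w = (y, c, true) := by
    intro w c h
    rcases h.cases_tail with e | ⟨_, _, k⟩
    · exact e.symm
    · exact absurd k tri_into
  have aR : ∀ c, (y, c, true) ∉ R := fun c h => hy (congrArg Prod.fst (noa _ _ h)).symm
  have om : ∀ m c : Fin 4, orig m (c, false) = true → c ≠ m := by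
    intro m c h; simpa [orig] using h
  have ex : ∀ m, Esc (update γ y (orig m)) d n → ∃ t, t ≠ m ∧ (y, t, false) ∈ R ∧
      ∃ q : Node, q.1 ∉ Q n ∧ UConn Rᶜ (y, t + 3, true) q := by
    rintro m ⟨v, h1, h2⟩
    obtain ⟨u, u', a1, a2, a3, a4⟩ := tri_last (r := St γ n y (orig m)) h2 sR
      (fun h => RR v h (out v h1))
    rcases tri_split a3 with k | ⟨_, c, ⟨rfl, _⟩ | ⟨rfl, rfl, k⟩⟩
    · exact absurd (Relation.ReflTransGen.tail a1 k) a2
    · exact absurd a1 (aR c)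
    · exact ⟨c, om m c k, a1, v, h1, tri_conn a4⟩
  have exu : ∀ t t' : Fin 4, (y, t, false) ∈ R →
      (∃ q : Node, q.1 ∉ Q n ∧ UConn Rᶜ (y, t + 3, true) q) → (y, t', false) ∈ R →
      (∃ q : Node, q.1 ∉ Q n ∧ UConn Rᶜ (y, t' + 3, true) q) → t = t' := by
    rintro t t' a1 ⟨q, a2, a3⟩ b1 ⟨q', b2, b3⟩
    by_contra hne
    exact pinchN (fun u hu => inQ u (RR u hu)) a1 ((tri_fwd a1).symm.trans (tri_fwd b1))
      (tri_fin t t' hne) (tri_fin t' t (Ne.symm hne)) (aR _) a3 a2 (aR _) b3 b2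
  have en : ∀ m, Esc (update γ y (orig m)) d n → ∃ l, l ≠ m ∧ y ∈ Q n ∧
      UConn (Rb γ n y)ᶜ s (y, l, false) ∧ (y, l + 3, true) ∈ Rb γ n y := by
    rintro m ⟨v, h1, h2⟩
    obtain ⟨w, w', a1, a2, a3, a4⟩ := rtg_exit (r := St γ n y (orig m)) (Q := (Rb γ n y)ᶜ) h2
      (RR s sR) (fun h => h (out v h1))
    have a3' : w' ∈ Rb γ n y := not_not.mp a3
    rcases tri_split a4 with k | ⟨hq, c, ⟨_, rfl⟩ | ⟨rfl, rfl, k⟩⟩
    · obtain ⟨z, z1, z2⟩ := a3'
      exact absurd ⟨z, z1, z2.head k⟩ a2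
    · obtain ⟨z, z1, z2⟩ := a3'
      rcases z2.cases_head with e | ⟨_, k, _⟩
      · rw [← e] at z1; exact absurd hq z1
      · exact absurd k (tri_from (by simp [g0, clo]))
    · exact ⟨c, om m c k, hq, rtg_mono (fun _ _ k => ⟨k.2.1, k.2.2, tri_adj k.1⟩) a1, a3'⟩
  have enu : ∀ l l' : Fin 4, UConn (Rb γ n y)ᶜ s (y, l, false) → (y, l + 3, true) ∈ Rb γ n y →
      UConn (Rb γ n y)ᶜ s (y, l', false) → (y, l' + 3, true) ∈ Rb γ n y → l = l' := by
    intro l l' a1 a2 b1 b2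
    by_contra hne
    obtain ⟨a3, a4⟩ := tri_cluster (RR s sR) a1
    obtain ⟨b3, b4⟩ := tri_cluster (RR s sR) b1
    obtain ⟨q, q1, q2⟩ := tri_bwd a2
    obtain ⟨q', p1, p2⟩ := tri_bwd b2
    have sub : Rb γ n y ⊆ {w | w ∈ (Rb γ n y)ᶜ ∧ UConn (Rb γ n y)ᶜ s w}ᶜ :=
      fun w hw h => h.1 hw
    exact pinchN (S := {w | w ∈ (Rb γ n y)ᶜ ∧ UConn (Rb γ n y)ᶜ s w}) (fun u hu => inQ u hu.1)
      ⟨a3, a1⟩ (a4.symm.trans b4) (tri_fin l l' hne) (tri_fin l' l (Ne.symm hne))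
      (fun h => h.1 a2) (q2.mono sub) q1
      (fun h => h.1 b2) (p2.mono sub) p1
  push Not at hall
  obtain ⟨m0, hm0⟩ := hall
  obtain ⟨t, -, t1, t2⟩ := ex m0 hm0
  obtain ⟨l, -, hq, l1, l2⟩ := en m0 hm0
  have nt : ¬ Esc (update γ y (orig t)) d n := fun h => by
    obtain ⟨t', a, b, c⟩ := ex t h
    exact a (exu t' t b c t1 t2)
  have nl : ¬ Esc (update γ y (orig l)) d n := fun h => by
    obtain ⟨l', a, -, b, c⟩ := en l h
    exact a (enu l' l b c l1 l2)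
  have cor : ∀ (g : Gad) (c : Fin 4), g (c, false) = true →
      St γ n y g (y, c, false) (y, c + 3, true) := fun g c h =>
    ⟨hq, Or.inr (Or.inr ⟨rfl, rfl, by simpa using h⟩)⟩
  have fin : ∀ (g : Gad) (u : Node), Relation.ReflTransGen (St γ n y g) s u → u ∈ Rb γ n y →
      Esc (update γ y g) d n := fun g u h1 ⟨v, h2, h3⟩ =>
    ⟨v, h2, Relation.ReflTransGen.trans h1 (rtg_mono (fun _ _ k => tri_up g k) h3)⟩
  have cs : l = t ∨ l = t + 1 ∨ t = l + 1 ∨ l = t + 2 := by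
    clear * -; revert t l; decide
  rcases cs with rfl | rfl | rfl | rfl
  · refine Or.inl ⟨l, nt, fin _ _ (Relation.ReflTransGen.tail
      (rtg_mono (fun _ _ k => tri_up _ k) t1) (cor _ l (by simp [clo]))) l2⟩
  · exact Or.inr (Or.inl ⟨t, nt, nl⟩)
  · exact Or.inr (Or.inl ⟨l, nl, nt⟩)
  by_cases h3 : Esc (update γ y (orig (t + 2 + 1))) d n
  swap
  · exact Or.inr (Or.inl ⟨t + 2, nl, h3⟩)
  refine Or.inr (Or.inr ⟨t, nt, nl, ?_⟩)
  set g : Gad := clo fun c => decide (c = t ∨ c = t + 2) with hg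
  set R2 : Set Node := {w | Relation.ReflTransGen (St γ n y g0) (y, t + 3, true) w} with hR2
  have c1 : St γ n y g (y, t, false) (y, t + 3, true) := cor g t (by simp [hg, clo])
  have all : ∀ u ∈ R ∪ R2, Relation.ReflTransGen (St γ n y g) s u := by
    rintro u (hu | hu)
    · exact rtg_mono (fun _ _ k => tri_up _ k) hu
    · exact ((rtg_mono (fun _ _ k => tri_up _ k) t1).tail c1).trans
        (rtg_mono (fun _ _ k => tri_up _ k) hu)
  by_contra hc
  have dis : ∀ u ∈ R ∪ R2, u ∉ Rb γ n y := fun u hu h => hc (fin g u (all u hu) h)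
  have nb2 : (y, t + 2, false) ∉ R ∪ R2 := fun h =>
    hc (fin g _ ((all _ h).tail (cor g (t + 2) (by simp [hg, clo]))) l2)
  have con : ∀ u ∈ R ∪ R2, UConn (R ∪ R2) s u := by
    rintro u (hu | hu)
    · exact (tri_fwd hu).mono Set.subset_union_left
    · exact (Relation.ReflTransGen.tail ((tri_fwd t1).mono Set.subset_union_left)
        ⟨Or.inl t1, Or.inr Relation.ReflTransGen.refl, tri_adj c1⟩).trans
        ((tri_fwd hu).mono Set.subset_union_right)
  obtain ⟨v, h1, h2⟩ := h3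
  obtain ⟨u, u', a1, a2, a3, a4⟩ := tri_last (r := St γ n y (orig (t + 2 + 1))) (S := R ∪ R2) h2
    (Or.inl sR) (fun h => dis v h (out v h1))
  rcases tri_split a3 with k | ⟨_, c, ⟨rfl, rfl⟩ | ⟨rfl, rfl, k⟩⟩
  · rcases a1 with a1 | a1
    · exact a2 (Or.inl (Relation.ReflTransGen.tail a1 k))
    · exact a2 (Or.inr (Relation.ReflTransGen.tail a1 k))
  · rcases a1 with a1 | a1
    · exact aR c a1
    · have e : t + 3 = c := congrArg (fun w : Node => w.2.1) (noa _ _ a1)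
      rcases a4.cases_head with e' | ⟨_, k, _⟩
      · rw [← e'] at h1; exact h1 hq
      · refine tri_from ?_ k.1
        rw [← e]; clear * -; revert t; decide
  · have k1 := om _ c k
    have k2 : c ≠ t := by
      rintro rfl; exact a2 (Or.inr Relation.ReflTransGen.refl)
    have k3 : c ≠ t + 2 := by rintro rfl; exact nb2 a1
    have k4 : c = t + 1 := by clear * - k1 k2 k3; revert t c; decide
    subst k4
    obtain ⟨q', p1, p2⟩ := tri_bwd l2
    refine pinchN (S := R ∪ R2) (i := t + 1) (k := t) (fun u hu => inQ u (dis u hu)) a1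
      ((con _ a1).symm.trans (con _ (Or.inl t1))) ?_ ?_ a2 (tri_conn a4) h1
      (fun h => dis _ h l2) (p2.mono fun w hw h => dis w h hw) p1
    · clear * -; revert t; decide
    · clear * -; revert t; decide

end Pool.Agent.FS.RotorSym
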